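import Pool.Agent.Run7.h562.ND.Pull2
import Pool.Agent.Run7.h72.Up

/-!
Forms on the image of a product: norms of the exterior products.
-/

set_option autoImplicit false
set_option linter.overlappingInstances false
set_option linter.unusedSectionVars false
set_option linter.unusedVariables false
set_option maxHeartbeats 1000000
set_option synthInstance.maxHeartbeats 400000

open FF IntermediateField Module

namespace Pool.Agent.Run7.h562.ND

open Pool.Agent Pool.Agent.W603.LV Pool.Agent.W619.PQ Pool.Agent.W619.PL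
open Pool.Agent.W602.GT (Divisorial RegAt IsPluri DerReg exists_der)
open Pool.Agent.W619.TW (Dom IsSec HasIndep NumLe NumNeg KodGe)
open Pool.Agent.Run7.h562.MM
open Run7.h72 (mlt Lv)

open scoped Classical

section

variable {K L : Type} [Field K] [Field L] [Algebra ℂ K] [Algebra ℂ L] [Algebra L K]
  [IsScalarTower ℂ L K] [FiniteDimensional L K]

/-- **Norms of forms.** -/
theorem down_core [Algebra.EssFiniteType ℂ K] [Algebra.EssFiniteType ℂ L] {d : ℕ}
    (hL : Algebra.trdeg ℂ L = d) {κ : ℕ} {m : Fin κ → ℕ} (x : ∀ i, Fin (m i + 1) → K)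
    (hx0 : ∀ i, x i 0 = 1) (hgen : Lv L x κ = ⊤) (S : Finset K) :
    ∃ S'' : Finset L, ∀ (w j : ℕ) (M' : Fin κ → ℕ),
      (∀ i : Fin κ, 2 * (finrank L (Lv L x (i + 1)) - finrank L (Lv L x i)) * w ≤
        M' i * finrank L (Lv L x i)) →
      ∀ (h : ℕ) (W : Fin h → (Fin d → Derivation ℂ K K) → K), LinearIndependent ℂ W →
      (∀ l, IsPluri w (W l)) →
      (∀ l f (Q : Place ℂ K), Divisorial d Q → ∀ D : Fin d → Derivation ℂ K K,
        (∀ i, DerReg Q (D i)) → Dom Q S j (mlt x M' f * W l D)) →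
      HasIndep ℂ L d h (IsSec ℂ L d (fun _ => False) S'' (w * finrank L K) j) := by
  have hc0 : CharZero L := charZero_of_injective_algebraMap (algebraMap ℂ L).injective
  obtain ⟨S0, h1S0, hS0⟩ := exists_dom (k := ℂ) (K := L) S
  refine ⟨S0.image fun s => s ^ finrank L K, fun w j M' hM h W hli hW hdom => ?_⟩
  choose sm hsm hmin using fun P : Place ℂ L => Finset.exists_min_image
    (S0.filter fun a => a ≠ 0) (fun a => P.ord a) ⟨1, Finset.mem_filter.2 ⟨h1S0, one_ne_zero⟩⟩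
  obtain ⟨η, hη1, hη2, hη3⟩ := Run7.h72.tower_ind (k := ℂ) κ (K := L) (L := K) hL
    {P | Divisorial d P} (fun P hP => hP) (fun P => -(((j : ℤ) * P.ord (sm P) : ℤ) : ℚ)) m x hx0
    hgen w M' hM h W hW (fun l f P hP Q e hQ G hG => by
      rcases hdom l f Q (Pool.Agent.Y172.divisorial_up hQ hP) G hG with h1 | ⟨s, hs, hs0, hle⟩
      · exact Or.inl h1
      · right
        obtain ⟨a, ha, ha0, hle2⟩ := hS0 Q s hs
        have h2 := hmin P a (Finset.mem_filter.2 ⟨ha, ha0⟩)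
        rw [hQ.2] at hle2
        have h3 : (e : ℤ) * P.ord (sm P) ≤ e * P.ord a :=
          mul_le_mul_of_nonneg_left h2 (Int.natCast_nonneg e)
        have h4 : (j : ℤ) * (e * P.ord (sm P)) ≤ j * Q.ord s :=
          mul_le_mul_of_nonneg_left (h3.trans hle2) (Int.natCast_nonneg j)
        have h5 : (j : ℤ) * (e * P.ord (sm P)) ≤ Q.ord (mlt x M' f * W l G) := h4.trans hle
        have h6 : (((j : ℤ) * (e * P.ord (sm P)) : ℤ) : ℚ) ≤ Q.ord (mlt x M' f * W l G) := by
          exact_mod_cast h5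
        refine le_trans (le_of_eq ?_) h6
        push_cast
        ring) hli
  refine ⟨η, hη3, fun l => ⟨hη1 l, fun P hP _ G hG => ?_, fun P hP hB => hB.elim⟩⟩
  rcases hη2 l P hP G hG with h1 | h1
  · exact Or.inl h1
  · refine Or.inr ⟨sm P ^ finrank L K, Finset.mem_image.2 ⟨sm P,
      (Finset.mem_filter.1 (hsm P)).1, rfl⟩, pow_ne_zero _ (Finset.mem_filter.1 (hsm P)).2, ?_⟩
    rw [P.ord_pow]
    have h2 : (((j : ℤ) * ((finrank L K : ℕ) * P.ord (sm P)) : ℤ) : ℚ) ≤ P.ord (η l G) := by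
      refine le_trans (le_of_eq ?_) h1
      push_cast
      ring
    exact_mod_cast h2

variable {E F : IntermediateField ℂ K} {M n : ℕ}

/-- **Forms on the image of a product.** -/
theorem down [Algebra.EssFiniteType ℂ K] [Algebra.EssFiniteType ℂ L]
    [Algebra.EssFiniteType ℂ E] [Algebra.EssFiniteType ℂ F] (hsup : E ⊔ F = ⊤)
    (hE : Algebra.trdeg ℂ E = M) (hn : Algebra.trdeg ℂ F = n)
    (hK : Algebra.trdeg ℂ K = (M + n : ℕ)) {κ : ℕ}
    {m : Fin κ → ℕ} (x : ∀ i, Fin (m i + 1) → E) (hx0 : ∀ i, x i 0 = 1)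
    (hgen : Lv L (fun i b => (x i b : K)) κ = ⊤) {N : ℕ} (Mi : Fin κ → ℕ)
    (hM : ∀ i : Fin κ, 2 * (finrank L (Lv L (fun i b => (x i b : K)) (i + 1)) -
      finrank L (Lv L (fun i b => (x i b : K)) i)) * N <
        Mi i * finrank L (Lv L (fun i b => (x i b : K)) i))
    {η : (Fin M → Derivation ℂ E E) → E} (hη : IsPluri N η) (hη0 : ∃ D, η D ≠ 0)
    (hreg : ∀ f, ∀ P : Place ℂ E, Divisorial M P → RegAt P fun G => mlt x Mi f * η G)
    {s0 : ℕ} (q : Fin s0 → (i : Fin κ) × Fin (m i + 1))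
    (hq : AlgebraicIndependent ℂ fun a => x (q a).1 (q a).2) (S' : Finset F) :
    ∃ S'' : Finset L, ∀ (w s r0 t j : ℕ), w = r0 + N * s → r0 ≤ N * j →
      2 * finrank L K * r0 + s0 * t * finrank L K ≤ s → ∀ h,
      HasIndep ℂ F n h (IsSec ℂ F n (fun _ => False) S' w j) →
      HasIndep ℂ L (M + n) (h * (t + 1) ^ s0)
        (IsSec ℂ L (M + n) (fun _ => False) S'' (w * finrank L K) j) := by
  obtain ⟨S, hS⟩ := ext_forms hsup hE hn hK x hx0 Mi hη hη0 hreg q hq S'
  have hL : Algebra.trdeg ℂ L = (M + n : ℕ) := Pool.Agent.Y184.NT.trdeg_below (K := K) hK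
  obtain ⟨S'', hS''⟩ := down_core (L := L) hL (fun i b => (x i b : K))
    (fun i => by rw [hx0]; rfl) hgen S
  refine ⟨S'', fun w s r0 t j hw hr0 hs h hI => ?_⟩
  have hr : 0 < finrank L K := finrank_pos
  have hle : ∀ i, finrank L (Lv L (fun i b => (x i b : K)) i) ≤ finrank L K := fun i =>
    Submodule.finrank_le (Subalgebra.toSubmodule (Lv L (fun i b => (x i b : K)) i).toSubalgebra)
  have hMs : ∀ i, s0 * t ≤ Mi i * s := by
    intro i
    have h1 : 0 < Mi i := by
      rcases Nat.eq_zero_or_pos (Mi i) with h0 | h0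
      · have h2 := hM i
        rw [h0, zero_mul] at h2
        exact absurd h2 (Nat.not_lt_zero _)
      · exact h0
    have h2 : s0 * t ≤ s0 * t * finrank L K := Nat.le_mul_of_pos_right _ hr
    have h3 : s ≤ Mi i * s := Nat.le_mul_of_pos_left _ h1
    omega
  obtain ⟨W, hW1, hW2, hW3⟩ := hS w s r0 t j (fun i => Mi i * s - s0 * t) hw hr0
    (fun i => Nat.sub_add_cancel (hMs i)) h hI
  refine hS'' w j (fun i => Mi i * s - s0 * t) (fun i => ?_) _ W hW1 hW2 hW3
  obtain ⟨a, ha⟩ : ∃ a, a = finrank L (Lv L (fun i b => (x i b : K)) (i + 1)) -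
      finrank L (Lv L (fun i b => (x i b : K)) i) := ⟨_, rfl⟩
  obtain ⟨b, hb⟩ : ∃ b, b = finrank L (Lv L (fun i b => (x i b : K)) i) := ⟨_, rfl⟩
  obtain ⟨r, hrr⟩ : ∃ r, r = finrank L K := ⟨_, rfl⟩
  have ha' : a ≤ r := by
    rw [ha, hrr]
    exact (Nat.sub_le _ _).trans (hle _)
  have hb' : b ≤ r := by
    rw [hb, hrr]
    exact hle _
  have hM' := hM i
  rw [← ha, ← hb] at hM' ⊢
  rw [← hrr] at hs
  rw [Nat.sub_mul]
  apply Nat.le_sub_of_add_le
  rw [hw]
  have h1 : (2 * a * N + 1) * s ≤ Mi i * b * s := Nat.mul_le_mul_right s hM'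
  have h2 : 2 * a * r0 ≤ 2 * r * r0 := Nat.mul_le_mul_right _ (Nat.mul_le_mul_left _ ha')
  have h3 : s0 * t * b ≤ s0 * t * r := Nat.mul_le_mul_left _ hb'
  calc 2 * a * (r0 + N * s) + s0 * t * b = 2 * a * r0 + s0 * t * b + 2 * a * N * s := by ring
    _ ≤ s + 2 * a * N * s := by omega
    _ = (2 * a * N + 1) * s := by ring
    _ ≤ Mi i * b * s := h1
    _ = Mi i * s * b := by ring

end

end Pool.Agent.Run7.h562.ND
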