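import Pool.Agent.Run7.h562.MM.Kun2
import Pool.Agent.W619.TW.NDefs

/-!
Sections of `m K + j A` on the product of a variety and a rational variety: the coefficients are
sections of `m K + j A'` on the variety.
-/

set_option autoImplicit false
set_option linter.overlappingInstances false
set_option linter.unusedSectionVars false
set_option linter.unusedVariables false
set_option maxHeartbeats 4000000
set_option synthInstance.maxHeartbeats 400000

open FF MvPolynomial

namespace Pool.Agent.Run7.h562.ND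

open Pool.Agent Pool.Agent.W603.LV Pool.Agent.W619.PQ
open Pool.Agent.W602.GT (Divisorial RegAt IsPluri DerReg exists_der)
open Pool.Agent.TH122.AB (Gens)
open Pool.Agent.W619.TW (Dom IsSec)
open Pool.Agent.Run7.h562.MM

open scoped Classical

/-- the coordinates of the sections of `m K + j A` -/
def HS {K : Type} [Field K] [Algebra ℂ K] {n : ℕ} (y : Fin n → K) (S : Finset K) (m j : ℕ) :
    Set K :=
  {a | IsSec ℂ K n (fun _ => False) S m j
    fun D => (Matrix.of fun i l => D i (y l)).det ^ m * a}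

theorem pluri_det {K : Type} [Field K] [Algebra ℂ K] {n : ℕ} (y : Fin n → K) (m : ℕ) (a : K) :
    IsPluri m fun D : Fin n → Derivation ℂ K K => (Matrix.of fun i l => D i (y l)).det ^ m * a := by
  intro A D
  have e1 : (Matrix.of fun i l => (∑ j, A i j • D j) (y l)) =
      A * Matrix.of fun i l => D i (y l) := by
    ext i l
    rw [Matrix.of_apply, Matrix.mul_apply]
    have h1 : ∀ (s : Finset (Fin n)), (∑ j ∈ s, A i j • D j) (y l) = ∑ j ∈ s, A i j * D j (y l) := by
      intro s
      induction s using Finset.induction_on with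
      | empty => rfl
      | insert a s ha ih =>
        rw [Finset.sum_insert ha, Finset.sum_insert ha, ← ih]
        rfl
    exact h1 _
  change (Matrix.of fun i l => (∑ j, A i j • D j) (y l)).det ^ m * a = _
  rw [e1, Matrix.det_mul, mul_pow, mul_assoc]

theorem mem_HS {K : Type} [Field K] [Algebra ℂ K] {n : ℕ} {y : Fin n → K} {S : Finset K}
    {m j : ℕ} {a : K} : a ∈ HS y S m j ↔ ∀ P : Place ℂ K, Divisorial n P →
      ∀ D : Fin n → Derivation ℂ K K, (∀ i, DerReg P (D i)) →
        Dom P S j ((Matrix.of fun i l => D i (y l)).det ^ m * a) := by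
  constructor
  · intro h P hP D hD
    exact h.2.1 P hP (fun h => h) D hD
  · intro h
    exact ⟨pluri_det y m a, fun P hP _ D hD => h P hP D hD, fun P hP hb => hb.elim⟩

section

variable {Fd K0 : Type} [Field Fd] [Field K0] [Algebra ℂ Fd] [Algebra ℂ K0] [Algebra Fd K0]
  [IsScalarTower ℂ Fd K0] {M n : ℕ} {x : Fin M → K0} {y : Fin n → Fd}

/-- clearing the denominators -/
theorem exists_den (h : Gens (k := Fd) x) (S0 : Finset K0) :
    ∃ q0 : MvPolynomial (Fin M) Fd, q0 ≠ 0 ∧ ∀ s ∈ S0, ∃ c : MvPolynomial (Fin M) Fd,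
      aeval x q0 * s = aeval x c := by
  choose a b hb hab using h.gen
  refine ⟨∏ s ∈ S0, b s, Finset.prod_ne_zero_iff.2 fun s _ => hb s, fun s hs => ?_⟩
  refine ⟨(∏ t ∈ S0.erase s, b t) * a s, ?_⟩
  have h2 : s * aeval x (b s) = aeval x (a s) := (eq_div_iff (h.ne (hb s))).1 (hab s)
  rw [← Finset.mul_prod_erase S0 b hs, map_mul, map_mul, ← h2]
  ring

/-- **Sections on the product of a variety and a rational variety.** -/
theorem ext0 (h : Gens (k := Fd) x) (hz : IsTranscendenceBasis ℂ (zc x y))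
    (hy : IsTranscendenceBasis ℂ y) (S0 : Finset K0) :
    ∃ q0 : MvPolynomial (Fin M) Fd, q0 ≠ 0 ∧ ∃ S' : Finset Fd, ∀ (m j : ℕ) (p : K0),
      (∀ P : Place ℂ K0, Divisorial (M + n) P →
        (∀ q : MvPolynomial (Fin M) ℂ, q ≠ 0 → P.ord (aeval x q) = 0) →
        ∀ D : Fin (M + n) → Derivation ℂ K0 K0, (∀ i, DerReg P (D i)) →
          Dom P S0 j ((Matrix.of fun i l => D i (zc x y l)).det ^ m * p)) →
      ∃ q : MvPolynomial (Fin M) ℂ, q ≠ 0 ∧ ∃ b : MvPolynomial (Fin M) Fd,
        (∀ s, b.coeff s ∈ HS y S' m j) ∧ aeval x q * (aeval x q0 ^ j * p) = aeval x b := by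
  obtain ⟨q0, hq0, hS0⟩ := exists_den h S0
  choose c hc using hS0
  obtain ⟨S', hS'⟩ : ∃ S' : Finset Fd, S' = S0.attach.biUnion fun s =>
    (c s.1 s.2).support.image fun t => (c s.1 s.2).coeff t := ⟨_, rfl⟩
  refine ⟨q0, hq0, S', fun m j p hp => ?_⟩
  have hq0x : aeval x q0 ≠ 0 := h.ne hq0
  -- the horizontal divisors
  choose E hE using fun i : Fin n => exists_der (L := ℂ) _ hy fun j => if i = j then (1 : Fd) else 0
  have hone : (Matrix.of fun i j => E i (y j) : Matrix (Fin n) (Fin n) Fd) = 1 := by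
    ext i j
    rw [Matrix.of_apply, hE, Matrix.one_apply]
  obtain ⟨q, hq, b, hb⟩ := hartogs0 h (p := aeval x q0 ^ j * p) fun π hπ hh v hv => by
    obtain ⟨D, h1, h2, h3, h4⟩ := exists_frame hz hy E
    have hreg := hp (toC v) (hv.divisorial h hz hπ) (fun q hq => by
      rw [← aeval_C' (Fd := Fd)]
      exact (hv _ (map_ne hq)).2.2 (hh q hq)) D (fun i => by
      refine Fin.addCases (fun i => ?_) (fun j => ?_) i
      · exact fun f hf => hv.derReg h hπ (fun c => ⟨0, by rw [h2, map_zero]⟩)
          (fun l => ⟨if i = l then 1 else 0, by rw [h1]; split_ifs <;> simp⟩) hf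
      · exact fun f hf => hv.derReg h hπ (fun c => ⟨E j c, h4 j c⟩)
          (fun l => ⟨0, by rw [h3, map_zero]⟩) hf)
    rw [det_frame h1 h2 h3 h4, hone, Matrix.det_one, map_one, one_pow, one_mul] at hreg
    rcases hreg with h0 | ⟨s, hs, hs0, hle⟩
    · rw [h0, mul_zero]
      exact v.reg_zero
    · by_cases hp0 : p = 0
      · rw [hp0, mul_zero]
        exact v.reg_zero
      right
      rw [v.ord_mul (pow_ne_zero _ hq0x) hp0, v.ord_pow]
      have hcs := hc s hs
      have hcs0 : c s hs ≠ 0 := by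
        intro h0
        rw [h0, map_zero] at hcs
        exact mul_ne_zero hq0x hs0 hcs
      have h5 := (hv _ hcs0).1
      rw [← hcs, v.ord_mul hq0x hs0] at h5
      have h6 : (j : ℤ) * v.ord s ≤ v.ord p := hle
      have h7 := mul_nonneg (Int.natCast_nonneg j) h5
      linarith
  refine ⟨q, hq, b, fun t => ?_, hb⟩
  rw [mem_HS]
  intro P hP δ hδ
  have hn : 0 < n := by
    rcases Nat.eq_zero_or_pos n with h0 | h0
    · exfalso
      subst h0
      have halg : Algebra.IsAlgebraic ℂ Fd := by
        have h1 := hy.isAlgebraic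
        rw [Set.range_eq_empty, Algebra.adjoin_empty] at h1
        refine ⟨fun z => ?_⟩
        have h2 := h1.isAlgebraic z
        exact h2.restrictScalars ℂ
      obtain ⟨t, ht0, ht⟩ := P.surj
      have h1 := ord_eq_zero_of_alg (K0 := ℂ) (K1 := Fd) (K2 := Fd) P (fun c => by
        by_cases hc : c = 0
        · rw [hc, map_zero, P.ord_zero]
        · exact P.ord_const hc) t
      rw [Algebra.algebraMap_self, RingHom.id_apply, ht] at h1
      exact one_ne_zero h1
    · exact h0
  obtain ⟨U, hU⟩ := exists_gauss h P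
  have hU' : IsGaussP x P U := hU
  obtain ⟨D, h1, h2, h3, h4⟩ := exists_frame hz hy δ
  have hreg := hp U (hU'.divisorial h hP hn) (fun q hq => hU'.unit h hq) D (fun i => by
    refine Fin.addCases (fun i => ?_) (fun j => ?_) i
    · refine hU'.derReg h (δ := 0) (fun f _ => by
        change P.Reg 0
        exact P.reg_zero) (fun c => by
        rw [h2]
        simp) (fun l => ⟨if i = l then 1 else 0, by rw [h1]; split_ifs <;> simp⟩)
    · exact hU'.derReg h (hδ j) (h4 j) (fun l => ⟨0, by rw [h3, map_zero]⟩))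
  rw [det_frame h1 h2 h3 h4] at hreg
  obtain ⟨Δ, hΔ⟩ : ∃ Δ : Fd, Δ = (Matrix.of fun i j => δ i (y j) :
    Matrix (Fin n) (Fin n) Fd).det ^ m := ⟨_, rfl⟩
  have hqx : aeval x q ≠ 0 := by
    rw [← aeval_C' (Fd := Fd)]
    exact h.ne (map_ne hq)
  have h6 : aeval x (C Δ * b) = aeval x q * aeval x q0 ^ j *
      (algebraMap Fd K0 (Matrix.of fun i j => δ i (y j) :
        Matrix (Fin n) (Fin n) Fd).det ^ m * p) := by
    rw [map_mul, aeval_C, ← hb, hΔ, map_pow]
    ring
  rw [← hΔ]
  rcases hreg with h0 | ⟨s, hs, hs0, hle⟩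
  · rw [h0, mul_zero] at h6
    have h7 : C Δ * b = 0 := by
      by_contra h8
      exact h.ne h8 h6
    have h8 := congrArg (coeff t) h7
    rw [coeff_C_mul, coeff_zero] at h8
    exact Or.inl h8
  · have hcs := hc s hs
    have hcs0 : c s hs ≠ 0 := by
      intro h0
      rw [h0, map_zero] at hcs
      exact mul_ne_zero hq0x hs0 hcs
    by_cases hz0 : (algebraMap Fd K0 (Matrix.of fun i j => δ i (y j) :
        Matrix (Fin n) (Fin n) Fd).det ^ m * p) = 0
    · rw [hz0, mul_zero] at h6
      have h7 : C Δ * b = 0 := by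
        by_contra h8
        exact h.ne h8 h6
      have h8 := congrArg (coeff t) h7
      rw [coeff_C_mul, coeff_zero] at h8
      exact Or.inl h8
    -- the coefficient of minimal order
    obtain ⟨t0, ht0, hmin⟩ := Finset.exists_min_image (c s hs).support
      (fun t => P.ord ((c s hs).coeff t)) (by
        rw [Finset.nonempty_iff_ne_empty]
        simpa using hcs0)
    have hnu : nu P (c s hs) = P.ord ((c s hs).coeff t0) := by
      apply le_antisymm
      · have h7 := (le_nu_iff P hcs0).1 (le_refl (nu P (c s hs))) t0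
        exact (ge_iff_ord P (mem_support_iff.1 ht0)).1 h7
      · rw [le_nu_iff P hcs0]
        intro t
        by_cases ht : (c s hs).coeff t = 0
        · exact Or.inl ht
        · exact Or.inr (hmin t (mem_support_iff.2 ht))
    have hUc : U.ord (aeval x q0) + U.ord s = P.ord ((c s hs).coeff t0) := by
      rw [← hnu, ← hU _ hcs0, ← hcs, U.ord_mul hq0x hs0]
    have hge : Ge U (j * P.ord ((c s hs).coeff t0)) (aeval x (C Δ * b)) := by
      right
      rw [h6, U.ord_mul (mul_ne_zero hqx (pow_ne_zero _ hq0x)) hz0,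
        U.ord_mul hqx (pow_ne_zero _ hq0x), U.ord_pow, hU'.unit h hq, ← hUc]
      linarith
    have h8 := (hU'.ge_iff h _ _).1 hge t
    rw [coeff_C_mul] at h8
    rcases h8 with h8 | h8
    · exact Or.inl h8
    · refine Or.inr ⟨(c s hs).coeff t0, ?_, mem_support_iff.1 ht0, h8⟩
      rw [hS', Finset.mem_biUnion]
      exact ⟨⟨s, hs⟩, Finset.mem_attach _ _, Finset.mem_image.2 ⟨t0, ht0, rfl⟩⟩

end

end Pool.Agent.Run7.h562.ND
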