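import Pool.Agent.Run7.h72.Diff
import Pool.Agent.W762.PG.PRES
import Pool.Agent.W619.TW.NDefs
import Pool.Agent.Y172.Cov2

/-!
Finite extensions: poles of the coefficients of minimal polynomials, unramified places, traces.
-/

set_option autoImplicit false
set_option linter.overlappingInstances false
set_option linter.unusedSectionVars false
set_option linter.unusedVariables false
set_option maxHeartbeats 4000000
set_option synthInstance.maxHeartbeats 400000

open Polynomial FF Module

namespace Pool.Agent.Run7.h562.ND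

open Pool.Agent Pool.Agent.W603.LV Pool.Agent.W619.PQ
open Pool.Agent.W602.GT (Divisorial RegAt IsPluri DerReg exists_der)
open Pool.Agent.W619.TW (Dom IsSec)

open scoped Classical

section

variable {k K L : Type} [Field k] [CharZero k] [Field K] [Field L] [Algebra k K] [Algebra k L]
  [Algebra K L] [IsScalarTower k K L] [FiniteDimensional K L]

/-- Each function has its poles in those of the coefficients of its minimal polynomial. -/
theorem exists_coeff_le (s : L) (Q : Place k L) :
    ∃ a ∈ insert (1 : K) ((minpoly K s).support.image fun i => (minpoly K s).coeff i),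
      a ≠ 0 ∧ Q.ord (algebraMap K L a) ≤ Q.ord s := by
  by_cases hs : s = 0
  · refine ⟨1, Finset.mem_insert_self _ _, one_ne_zero, ?_⟩
    rw [hs, map_one, Q.ord_one, Q.ord_zero]
  by_contra hcon
  push Not at hcon
  have h1 := hcon 1 (Finset.mem_insert_self _ _) one_ne_zero
  rw [map_one, Q.ord_one] at h1
  obtain ⟨r, hr⟩ : ∃ r, r = (minpoly K s).natDegree := ⟨_, rfl⟩
  have hmon : (minpoly K s).Monic := minpoly.monic (Algebra.IsIntegral.isIntegral s)
  have h2 : eval₂ (algebraMap K L) s (minpoly K s) = 0 := by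
    rw [← aeval_def]
    exact minpoly.aeval K s
  rw [eval₂_eq_sum_range, Finset.sum_range_succ, ← hr] at h2
  have h3 : (minpoly K s).coeff r = 1 := by
    rw [hr]
    exact hmon
  rw [h3, map_one, one_mul] at h2
  have h4 : Ge Q (r * Q.ord s + 1)
      (∑ i ∈ Finset.range r, algebraMap K L ((minpoly K s).coeff i) * s ^ i) := by
    refine Ge.sum _ _ fun i hi => ?_
    by_cases hc : (minpoly K s).coeff i = 0
    · left
      rw [hc, map_zero, zero_mul]
    right
    have hc' : algebraMap K L ((minpoly K s).coeff i) ≠ 0 := by simpa using hc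
    rw [Q.ord_mul hc' (pow_ne_zero _ hs), Q.ord_pow]
    have h5 := hcon _ (Finset.mem_insert_of_mem (Finset.mem_image.2
      ⟨i, mem_support_iff.2 hc, rfl⟩)) hc
    have h6 : (i : ℤ) + 1 ≤ r := by exact_mod_cast Finset.mem_range.1 hi
    nlinarith
  have h5 : s ^ r = -∑ i ∈ Finset.range r, algebraMap K L ((minpoly K s).coeff i) * s ^ i := by
    linear_combination h2
  have h6 := h4.neg
  rw [← h5] at h6
  have h7 := h6.resolve_left (pow_ne_zero _ hs)
  rw [Q.ord_pow] at h7
  omega

/-- Divisors on the covering are dominated by divisors from below. -/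
theorem exists_dom (S : Finset L) : ∃ S0 : Finset K, 1 ∈ S0 ∧ ∀ (Q : Place k L), ∀ s ∈ S,
    ∃ a ∈ S0, a ≠ 0 ∧ Q.ord (algebraMap K L a) ≤ Q.ord s := by
  refine ⟨insert 1 (S.biUnion fun s => (minpoly K s).support.image fun i => (minpoly K s).coeff i),
    Finset.mem_insert_self _ _, fun Q s hs => ?_⟩
  obtain ⟨a, ha, ha0, h⟩ := exists_coeff_le (K := K) s Q
  refine ⟨a, ?_, ha0, h⟩
  rw [Finset.mem_insert] at ha ⊢
  rcases ha with ha | ha
  · exact Or.inl ha
  · exact Or.inr (Finset.mem_biUnion.2 ⟨s, hs, ha⟩)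

/-- **Unramified places.** -/
theorem unram (P : Place k K) {θ : L} (hθ : ∀ (Q : Place k L) (e : ℕ), Over Q P e → Ge Q 0 θ)
    (hgen : Algebra.adjoin K {θ} = ⊤) (p : Polynomial P.O) (hpm : p.Monic)
    (hp : eval₂ ((algebraMap K L).comp P.O.subtype) θ p = 0)
    (hder : ∀ (Q : Place k L) (e : ℕ), Over Q P e →
      eval₂ ((algebraMap K L).comp P.O.subtype) θ (derivative p) ≠ 0 ∧
      Q.ord (eval₂ ((algebraMap K L).comp P.O.subtype) θ (derivative p)) = 0)
    (Q : Place k L) (e : ℕ) (hQ : Over Q P e) : e = 1 := by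
  let iA : Algebra P.O L := algO P
  have htw : IsScalarTower P.O K L := IsScalarTower.of_algebraMap_eq fun _ => rfl
  have hDVR : IsDiscreteValuationRing P.O := P.isDVR
  have halg : (algebraMap P.O L) = (algebraMap K L).comp P.O.subtype := rfl
  have hint : IsIntegral P.O θ := isIntegral_of_reg P θ hθ
  have hinj : Function.Injective (algebraMap P.O L) := by
    rw [halg]
    exact (algebraMap K L).injective.comp Subtype.val_injective
  have htf : Module.IsTorsionFree P.O L := Module.isTorsionFree_iff_algebraMap_injective.2 hinj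
  have hdvd : minpoly P.O θ ∣ p := minpoly.isIntegrallyClosed_dvd hint (by
    rw [aeval_def, halg]
    exact hp)
  obtain ⟨r, hr⟩ := hdvd
  have h4 : minpoly K θ = (minpoly P.O θ).map (algebraMap P.O K) :=
    minpoly.isIntegrallyClosed_eq_field_fractions K L hint
  have hge := Run7.h72.ge_derivative P θ hθ hgen Q e hQ
  obtain ⟨hne, h0⟩ := hder Q e hQ
  have h5 : eval₂ ((algebraMap K L).comp P.O.subtype) θ (derivative p) =
      aeval θ (derivative (minpoly K θ)) * aeval θ r := by
    have h6 : eval₂ ((algebraMap K L).comp P.O.subtype) θ (derivative p) =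
        aeval θ (derivative p) := by rw [aeval_def, halg]
    rw [h6, hr, derivative_mul, map_add, map_mul, map_mul, minpoly.aeval, zero_mul, add_zero, h4,
      derivative_map, aeval_map_algebraMap]
  rw [h5] at hne h0
  have hr1 : aeval θ r ≠ 0 := right_ne_zero_of_mul hne
  have hr2 : aeval θ (derivative (minpoly K θ)) ≠ 0 := left_ne_zero_of_mul hne
  rw [Q.ord_mul hr2 hr1] at h0
  have h7 : Ge Q 0 (aeval θ r) := by
    refine Run7.h72.reg_of_isIntegral hQ _ ?_
    have h8 : Algebra.adjoin P.O {θ} ≤ integralClosure P.O L :=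
      Algebra.adjoin_le (Set.singleton_subset_iff.2 hint)
    exact h8 (aeval_mem_adjoin_singleton _ _)
  have h8 := hge.resolve_left hr2
  have h9 := h7.resolve_left hr1
  have h10 := hQ.1
  omega

/-- the trace of a regular function is regular -/
theorem trace_reg (q : Place k K) (z : L)
    (hz : ∀ (w : Place k L) (e : ℕ), Over w q e → Ge w 0 z) : q.Reg (Algebra.trace K L z) := by
  let iA : Algebra q.O L := algO q
  have h1 : IsIntegral q.O z := isIntegral_of_reg q z hz
  have : IsScalarTower q.O K L := IsScalarTower.of_algebraMap_eq fun _ => rfl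
  have h2 : IsIntegral q.O (Algebra.trace K L z) := Algebra.isIntegral_trace h1
  obtain ⟨a, ha⟩ := IsIntegrallyClosed.isIntegral_iff.1 h2
  rw [← ha]
  exact a.2

/-- traces and divisors at an unramified place -/
theorem trace_dom (P : Place k K) (hun : ∀ (Q : Place k L) (e : ℕ), Over Q P e → e = 1)
    {S0 : Finset K} (h1 : (1 : K) ∈ S0) {S : Finset L}
    (hS : ∀ (Q : Place k L), ∀ s ∈ S, ∃ a ∈ S0, a ≠ 0 ∧ Q.ord (algebraMap K L a) ≤ Q.ord s)
    {j : ℕ} {f : L} (hf : ∀ (Q : Place k L) (e : ℕ), Over Q P e → Dom Q S j f) :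
    Dom P S0 j (Algebra.trace K L f) := by
  -- the element of minimal order
  obtain ⟨s1, hs1, hmin⟩ := Finset.exists_min_image (S0.filter fun a => a ≠ 0)
    (fun a => P.ord a) ⟨1, Finset.mem_filter.2 ⟨h1, one_ne_zero⟩⟩
  rw [Finset.mem_filter] at hs1
  have hs1L : algebraMap K L s1 ≠ 0 := by simpa using hs1.2
  have h2 : P.Reg (Algebra.trace K L (f / algebraMap K L s1 ^ j)) := by
    refine trace_reg P _ fun Q e hQ => ?_
    by_cases hf0 : f = 0
    · left
      rw [hf0, zero_div]
    rcases hf Q e hQ with h3 | ⟨s, hs, hs0, hle⟩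
    · exact absurd h3 hf0
    right
    rw [Q.ord_div hf0 (pow_ne_zero _ hs1L), Q.ord_pow]
    obtain ⟨a, ha, ha0, hle2⟩ := hS Q s hs
    have he := hun Q e hQ
    subst he
    have h4 : Q.ord (algebraMap K L s1) ≤ Q.ord s := by
      rw [hQ.2] at hle2 ⊢
      have h5 := hmin a (Finset.mem_filter.2 ⟨ha, ha0⟩)
      have h6 : (((1 : ℕ) : ℤ)) * P.ord s1 ≤ ((1 : ℕ) : ℤ) * P.ord a := by
        simpa using h5
      exact h6.trans hle2
    have h5 := mul_le_mul_of_nonneg_left h4 (Int.natCast_nonneg j)
    linarith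
  have h3 : f = algebraMap K L (s1 ^ j) * (f / algebraMap K L s1 ^ j) := by
    rw [map_pow, mul_div_cancel₀ _ (pow_ne_zero _ hs1L)]
  have h4 : Algebra.trace K L f = s1 ^ j * Algebra.trace K L (f / algebraMap K L s1 ^ j) := by
    conv_lhs => rw [h3, ← Algebra.smul_def, map_smul, smul_eq_mul]
  rw [h4]
  rcases h2 with h2 | h2
  · left
    rw [h2, mul_zero]
  · by_cases h5 : Algebra.trace K L (f / algebraMap K L s1 ^ j) = 0
    · left
      rw [h5, mul_zero]
    refine Or.inr ⟨s1, hs1.1, hs1.2, ?_⟩
    rw [P.ord_mul (pow_ne_zero _ hs1.2) h5, P.ord_pow]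
    linarith

end

end Pool.Agent.Run7.h562.ND
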