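import Pool.Agent.Run7.h562.ND.Ext1
import Pool.Agent.Run7.h562.ND.Ext2
import Pool.Agent.Run7.h562.MM.Kun3
import Pool.Agent.Run7.h72.Mob

/-!
Sections of `m K + j A` on the product of two varieties are combinations of sections of
`m K + j A'` on one factor, with coefficients in the function field of the other one.
-/

set_option autoImplicit false
set_option linter.overlappingInstances false
set_option linter.unusedSectionVars false
set_option linter.unusedVariables false
set_option maxHeartbeats 1000000
set_option synthInstance.maxHeartbeats 400000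

open FF IntermediateField Module

namespace Pool.Agent.Run7.h562.ND

open Pool.Agent Pool.Agent.W603.LV Pool.Agent.W619.PQ
open Pool.Agent.W602.GT (Divisorial RegAt IsPluri DerReg exists_der)
open Pool.Agent.TH122.AB (Gens)
open Pool.Agent.W619.TW (Dom IsSec)
open Pool.Agent.Run7.h562.MM

open scoped Classical

section

variable {K : Type} [Field K] [Algebra ℂ K] {E F : IntermediateField ℂ K} {M n : ℕ}
  {x : Fin M → E} {y : Fin n → F}

/-- **Lagrange's formula** for a product. -/
theorem lagr (hsup : E ⊔ F = ⊤) (Kx : IntermediateField F K) [FiniteDimensional Kx K]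
    [CharZero Kx] (Sx : IntermediateField ℂ E) [FiniteDimensional Sx E] [CharZero Sx]
    (hSK : ∀ s ∈ Sx, (s : K) ∈ Kx) (θ : E) (hθ : ∀ e : E, ∃ f : Polynomial Sx,
      e = Polynomial.aeval θ f) : ∃ g : Polynomial E, g.eval θ ≠ 0 ∧ ∀ u : K,
    (g.map (algebraMap E K)).sum (fun j c => c * algebraMap Kx K
      (Algebra.trace Kx K ((θ : K) ^ j * u))) = algebraMap E K (g.eval θ) * u := by
  have hσS : ∀ (σ τ : K →ₐ[Kx] AlgebraicClosure K) (s : Sx), σ ((s : E) : K) = τ ((s : E) : K) := by
    intro σ τ s
    have h1 := σ.commutes ⟨_, hSK s s.2⟩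
    have h2 := τ.commutes ⟨_, hSK s s.2⟩
    exact h1.trans h2.symm
  obtain ⟨g, hg⟩ : ∃ g : Polynomial E, g = minpolyDiv Sx θ := ⟨_, rfl⟩
  have hgθ : g.eval θ ≠ 0 := by
    rw [hg, eval_minpolyDiv_self]
    exact (Algebra.IsSeparable.isSeparable Sx θ).aeval_derivative_ne_zero (minpoly.aeval Sx θ)
  refine ⟨g, hgθ, fun u => ?_⟩
  have hL := lagrange (K0 := Kx) (K := K) (θ : K) (g.map (algebraMap E K)) (by
    intro σ τ hστ
    have hE : ∀ e : E, σ (e : K) = τ (e : K) := by
      intro e
      obtain ⟨f, hf⟩ := hθ e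
      rw [hf]
      exact hom_ext (S := Sx) (E := E) (θ := θ) (σ : K →+* AlgebraicClosure K)
        (τ : K →+* AlgebraicClosure K) (fun s => hσS σ τ s) hστ f
    have hF : ∀ a : F, σ (a : K) = τ (a : K) := by
      intro a
      have h1 := σ.commutes (algebraMap F Kx a)
      have h2 := τ.commutes (algebraMap F Kx a)
      exact h1.trans h2.symm
    let eq0 : IntermediateField ℂ K :=
      { carrier := {z | σ z = τ z}
        mul_mem' := fun {a b} ha hb => by
          change σ (a * b) = τ (a * b)
          rw [map_mul, map_mul, show σ a = τ a from ha, show σ b = τ b from hb]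
        add_mem' := fun {a b} ha hb => by
          change σ (a + b) = τ (a + b)
          rw [map_add, map_add, show σ a = τ a from ha, show σ b = τ b from hb]
        algebraMap_mem' := fun c => hF (algebraMap ℂ F c)
        inv_mem' := fun a ha => by
          change σ a⁻¹ = τ a⁻¹
          rw [map_inv₀, map_inv₀, show σ a = τ a from ha] }
    have h1 : E ⊔ F ≤ eq0 := sup_le (fun z hz => hE ⟨z, hz⟩) fun z hz => hF ⟨z, hz⟩
    rw [hsup] at h1
    exact AlgHom.ext fun z => h1 (IntermediateField.mem_top (x := z))) (by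
    intro σ hσ
    have h1 : (minpolyDiv Sx θ) * (Polynomial.X - Polynomial.C θ) =
        (minpoly Sx θ).map (algebraMap Sx E) := minpolyDiv_spec Sx θ
    rw [← hg] at h1
    -- evaluate at `σ θ`
    have h2 := congrArg (fun p : Polynomial E => (p.map ((algebraMap K (AlgebraicClosure K)).comp
      (algebraMap E K))).eval (σ (θ : K))) h1
    simp only [Polynomial.map_mul, Polynomial.map_sub, Polynomial.map_X, Polynomial.map_C,
      Polynomial.eval_mul, Polynomial.eval_sub, Polynomial.eval_X, Polynomial.eval_C,
      Polynomial.map_map] at h2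
    have h3 : ((minpoly Sx θ).map (((algebraMap K (AlgebraicClosure K)).comp
        (algebraMap E K)).comp (algebraMap Sx E))).eval (σ (θ : K)) = 0 := by
      have h4 : ((algebraMap K (AlgebraicClosure K)).comp (algebraMap E K)).comp
          (algebraMap Sx E) = (σ : K →+* AlgebraicClosure K).comp ((algebraMap E K).comp
            (algebraMap Sx E)) := by
        ext s
        exact hσS (IsScalarTower.toAlgHom Kx K _) σ s
      rw [h4, Polynomial.eval_map]
      have h5 : (σ : K →+* AlgebraicClosure K) (Polynomial.eval₂ ((algebraMap E K).comp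
          (algebraMap Sx E)) (θ : K) (minpoly Sx θ)) = 0 := by
        have h6 : Polynomial.eval₂ ((algebraMap E K).comp (algebraMap Sx E)) (θ : K)
            (minpoly Sx θ) = algebraMap E K (Polynomial.aeval θ (minpoly Sx θ)) := by
          rw [Polynomial.aeval_def, Polynomial.hom_eval₂]
          rfl
        rw [h6, minpoly.aeval, map_zero, map_zero]
      rw [Polynomial.hom_eval₂] at h5
      exact h5
    rw [h3] at h2
    have h4 := (mul_eq_zero.1 h2).resolve_right (fun h5 => hσ (sub_eq_zero.1 h5))
    rw [Polynomial.map_map]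
    exact h4) u
  have h8 : ((g.map (algebraMap E K)).eval (θ : K)) = algebraMap E K (g.eval θ) := by
    rw [Polynomial.eval_map]
    exact Polynomial.eval₂_at_apply (algebraMap E K) θ
  rw [h8] at hL
  exact hL

/-- **Sections on a product.** -/
theorem ext [Algebra.EssFiniteType ℂ K] [Algebra.EssFiniteType ℂ E] (hsup : E ⊔ F = ⊤)
    (hx : IsTranscendenceBasis ℂ x) (hy : IsTranscendenceBasis ℂ y)
    (hn : Algebra.trdeg ℂ F = n) (hK : Algebra.trdeg ℂ K = (M + n : ℕ))
    (hz : IsTranscendenceBasis ℂ (Fin.append (fun i => (x i : K)) (fun j => (y j : K))))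
    (S : Finset K) : ∃ b0 : K, b0 ≠ 0 ∧ ∃ S' : Finset F, ∀ (m j : ℕ) (u : K),
      (∀ Q : Place ℂ K, Divisorial (M + n) Q → (∀ f : E, Q.ord (f : K) = 0) →
        ∀ D : Fin (M + n) → Derivation ℂ K K, (∀ i, DerReg Q (D i)) →
          Dom Q S j ((Matrix.of fun i l => D i
            (Fin.append (fun i => (x i : K)) (fun j => (y j : K)) l)).det ^ m * u)) →
      b0 ^ j * u ∈ Submodule.span E ((fun a : F => (a : K)) '' HS y S' m j) := by
  obtain ⟨Kx, hKx⟩ : ∃ Kx : IntermediateField F K, Kx =
    IntermediateField.adjoin F (Set.range fun i => (x i : K)) := ⟨_, rfl⟩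
  have hTow : IsScalarTower ℂ Kx K := IsScalarTower.of_algebraMap_eq fun c => rfl
  have hxm : ∀ i, (x i : K) ∈ Kx := fun i => by
    rw [hKx]
    exact IntermediateField.subset_adjoin _ _ ⟨i, rfl⟩
  obtain ⟨x0, hx0⟩ : ∃ x0 : Fin M → Kx, ∀ i, (x0 i : K) = x i := ⟨fun i => ⟨_, hxm i⟩, fun _ => rfl⟩
  have hcF : CharZero F := charZero_of_injective_algebraMap (algebraMap ℂ F).injective
  have hcK : CharZero K := charZero_of_injective_algebraMap (algebraMap ℂ K).injective
  have hc0 : CharZero Kx := charZero_of_injective_algebraMap (algebraMap ℂ Kx).injective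
  -- `x` are independent generators over `F`
  have hzalg : Algebra.IsAlgebraic (IntermediateField.adjoin ℂ (Set.range
    (Fin.append (fun i => (x i : K)) (fun j => (y j : K))))) K := hz.isAlgebraic_field
  have hle : ∀ z ∈ IntermediateField.adjoin ℂ (Set.range
      (Fin.append (fun i => (x i : K)) (fun j => (y j : K)))), z ∈ Kx := by
    have h1 : IntermediateField.adjoin ℂ (Set.range
        (Fin.append (fun i => (x i : K)) (fun j => (y j : K)))) ≤ Kx.restrictScalars ℂ := by
      rw [IntermediateField.adjoin_le_iff]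
      rintro _ ⟨i, rfl⟩
      refine Fin.addCases (fun i => ?_) (fun j => ?_) i
      · rw [Fin.append_left]
        exact hxm i
      · rw [Fin.append_right]
        exact Kx.algebraMap_mem (y j)
    exact h1
  have halg : Algebra.IsAlgebraic Kx K := by
    refine ⟨fun z => ?_⟩
    let f : IntermediateField.adjoin ℂ (Set.range
        (Fin.append (fun i => (x i : K)) (fun j => (y j : K)))) →+* Kx :=
      { toFun := fun w => ⟨(w : K), hle w w.2⟩
        map_one' := rfl
        map_mul' := fun _ _ => rfl
        map_zero' := rfl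
        map_add' := fun _ _ => rfl }
    exact (hzalg.isAlgebraic z).ringHom_of_comp_eq f (RingHom.id K) f.injective (by ext w; rfl)
  have hxF : IsTranscendenceBasis F (fun i => (x i : K)) := indep_over hn hK hz
  have hx0i : AlgebraicIndependent F x0 := by
    refine AlgebraicIndependent.of_comp Kx.val ?_
    have h3 : (Kx.val ∘ x0 : Fin M → K) = fun i => (x i : K) := funext hx0
    rw [h3]
    exact hxF.1
  have hgens : Gens (k := F) x0 := by
    refine ⟨hx0i, fun z => ?_⟩
    have h1 : (z : K) ∈ IntermediateField.adjoin F (Set.range fun i => (x i : K)) := by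
      rw [← hKx]
      exact z.2
    rw [IntermediateField.mem_adjoin_range_iff] at h1
    obtain ⟨a, b, hab⟩ := h1
    have h4 : ∀ c : MvPolynomial (Fin M) F, ((MvPolynomial.aeval x0 c : Kx) : K) =
        MvPolynomial.aeval (fun i => (x i : K)) c := by
      intro c
      have h5 := MvPolynomial.aeval_algebraMap_apply K x0 c
      have h6 : (fun i => algebraMap Kx K (x0 i)) = fun i => (x i : K) := funext hx0
      have h7 : (algebraMap Kx K ∘ x0) = fun i => (x i : K) := funext hx0
      rw [h7] at h5
      exact h5.symm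
    by_cases hb : b = 0
    · refine ⟨0, 1, one_ne_zero, Subtype.ext ?_⟩
      rw [hab, hb, map_zero, div_zero, map_zero, zero_div]
      rfl
    · refine ⟨a, b, hb, Subtype.ext ?_⟩
      rw [hab, ← h4, ← h4]
      rfl
  have hess : Algebra.EssFiniteType Kx K := Algebra.EssFiniteType.of_comp ℂ Kx K
  have hfd : FiniteDimensional Kx K := by
    obtain ⟨s, hs⟩ := IntermediateField.fg_top Kx K
    have h1 : FiniteDimensional Kx (IntermediateField.adjoin Kx (s : Set K)) :=
      IntermediateField.finiteDimensional_adjoin fun x _ => (halg.isAlgebraic x).isIntegral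
    rw [hs] at h1
    exact h1.equiv IntermediateField.topEquiv.toLinearEquiv
  have hessKx : Algebra.EssFiniteType ℂ Kx := Pool.Agent.TH466.QG.ess_below (K := K)
  have htr0 : Algebra.trdeg ℂ Kx = (M + n : ℕ) := Pool.Agent.Y184.NT.trdeg_below (K := K) hK
  -- the coordinates on `Kx`
  have hcomp : ∀ j, algebraMap Kx K (zc x0 y j) =
      Fin.append (fun i => (x i : K)) (fun j => (y j : K)) j := by
    intro j
    refine Fin.addCases (fun i => ?_) (fun j => ?_) j
    · rw [zc_left, Fin.append_left]
      exact hx0 i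
    · rw [zc_right, Fin.append_right]
      rfl
  have hz0 : IsTranscendenceBasis ℂ (zc x0 y) := by
    have h1 : AlgebraicIndependent ℂ (zc x0 y) := by
      refine AlgebraicIndependent.of_comp (IsScalarTower.toAlgHom ℂ Kx K) ?_
      have h2 : ((IsScalarTower.toAlgHom ℂ Kx K : Kx →ₐ[ℂ] K) ∘ zc x0 y : Fin (M + n) → K) =
          Fin.append (fun i => (x i : K)) (fun j => (y j : K)) := funext hcomp
      rw [h2]
      exact hz.1
    refine h1.isTranscendenceBasis_of_lift_trdeg_le_of_finite ?_
    rw [htr0]
    simp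
  -- the generator
  have hfdE : FiniteDimensional (IntermediateField.adjoin ℂ (Set.range x)) E :=
    Pool.Agent.Y297.NT.fd_basis hx
  obtain ⟨Sx, hSx⟩ : ∃ Sx, Sx = IntermediateField.adjoin ℂ (Set.range x) := ⟨_, rfl⟩
  rw [← hSx] at hfdE
  have hcS : CharZero Sx := charZero_of_injective_algebraMap (algebraMap ℂ Sx).injective
  let pb := Field.powerBasisOfFiniteOfSeparable Sx E
  obtain ⟨θ, hθ⟩ : ∃ θ, θ = pb.gen := ⟨_, rfl⟩
  have hint : IsIntegral Sx θ := Algebra.IsIntegral.isIntegral θ
  have hSK : ∀ s ∈ Sx, (s : K) ∈ Kx := by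
    have h1 : Sx ≤ (Kx.restrictScalars ℂ).comap E.val := by
      rw [hSx, IntermediateField.adjoin_le_iff]
      rintro _ ⟨i, rfl⟩
      exact hxm i
    exact h1
  have hgenθ : Algebra.adjoin Kx {(θ : K)} = ⊤ := by
    rw [← Run7.h72.gen_iff]
    have h1 : E ⊔ F ≤ (IntermediateField.adjoin Kx {(θ : K)}).restrictScalars ℂ := by
      refine sup_le (fun z hz => ?_) fun z hz => ?_
      · obtain ⟨f, hf⟩ := pb.exists_eq_aeval' ⟨z, hz⟩
        rw [← hθ] at hf
        have h2 : z = ((Polynomial.aeval θ f : E) : K) := congrArg Subtype.val hf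
        change z ∈ IntermediateField.adjoin Kx {(θ : K)}
        rw [h2, Polynomial.aeval_eq_sum_range]
        have h3 : ((∑ i ∈ Finset.range (f.natDegree + 1), f.coeff i • θ ^ i : E) : K) =
            ∑ i ∈ Finset.range (f.natDegree + 1), ((f.coeff i : E) : K) * (θ : K) ^ i := by
          rw [← IntermediateField.coe_val, map_sum]
          refine Finset.sum_congr rfl fun i _ => ?_
          rw [Algebra.smul_def, map_mul, map_pow]
          rfl
        rw [h3]
        refine sum_mem fun i _ => mul_mem ?_ (pow_mem (mem_adjoin_simple_self _ _) _)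
        exact (IntermediateField.adjoin Kx {(θ : K)}).algebraMap_mem ⟨_, hSK _ (f.coeff i).2⟩
      · exact (IntermediateField.adjoin Kx {(θ : K)}).algebraMap_mem
          (algebraMap F Kx ⟨z, hz⟩)
    rw [hsup] at h1
    rw [eq_top_iff]
    exact fun z _ => h1 (IntermediateField.mem_top (x := z))
  obtain ⟨f, hf⟩ : ∃ f, f = minpoly Sx θ := ⟨_, rfl⟩
  have hfm : f.Monic := by
    rw [hf]
    exact minpoly.monic hint
  have hfθ : Polynomial.aeval θ f = 0 := by
    rw [hf]
    exact minpoly.aeval _ _
  have hfd' : Polynomial.aeval θ (Polynomial.derivative f) ≠ 0 := by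
    rw [hf]
    exact (Algebra.IsSeparable.isSeparable Sx θ).aeval_derivative_ne_zero (minpoly.aeval Sx θ)
  -- the divisors
  obtain ⟨S0, hS01, hS0⟩ := exists_dom (k := ℂ) (K := Kx) S
  obtain ⟨q0, hq0, S', hext⟩ := ext0 hgens hz0 hy S0
  obtain ⟨b0, hb0⟩ : ∃ b0, b0 = algebraMap Kx K (MvPolynomial.aeval x0 q0) := ⟨_, rfl⟩
  refine ⟨b0, ?_, S', fun m j u hu => ?_⟩
  · rw [hb0]
    exact (_root_.map_ne_zero _).2 (hgens.ne hq0)
  -- the traces
  have htrace : ∀ e : E, ∃ q : MvPolynomial (Fin M) ℂ, q ≠ 0 ∧
      ∃ b : MvPolynomial (Fin M) F, (∀ s, b.coeff s ∈ HS y S' m j) ∧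
      MvPolynomial.aeval x0 q * (MvPolynomial.aeval x0 q0 ^ j *
        Algebra.trace Kx K ((e : K) * u)) = MvPolynomial.aeval x0 b := by
    intro e
    refine hext m j _ fun P hP hPq D hD => ?_
    -- the elements of `Sx` are units at `P`
    have hPS : ∀ (s : E) (hs : s ∈ Sx), P.ord (⟨(s : K), hSK s hs⟩ : Kx) = 0 := by
      intro s hs
      have h4 := hs
      rw [hSx, IntermediateField.mem_adjoin_range_iff] at h4
      obtain ⟨a', b', hab⟩ := h4
      have h5 : ∀ c : MvPolynomial (Fin M) ℂ, ((MvPolynomial.aeval x c : E) : K) =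
          algebraMap Kx K (MvPolynomial.aeval x0 c) := by
        intro c
        have h6 : algebraMap E K (MvPolynomial.aeval x c) =
            algebraMap Kx K (MvPolynomial.aeval x0 c) := by
          rw [← MvPolynomial.aeval_algebraMap_apply, ← MvPolynomial.aeval_algebraMap_apply]
          congr 2
          funext i
          exact (hx0 i).symm
        exact h6
      have h6 : (⟨(s : K), hSK s hs⟩ : Kx) =
          MvPolynomial.aeval x0 a' / MvPolynomial.aeval x0 b' := by
        apply (algebraMap Kx K).injective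
        rw [map_div₀, ← h5, ← h5]
        change (s : K) = _
        rw [hab]
        rfl
      rw [h6]
      by_cases ha : MvPolynomial.aeval x0 a' = 0
      · rw [ha, zero_div, P.ord_zero]
      by_cases hb : MvPolynomial.aeval x0 b' = 0
      · rw [hb, div_zero, P.ord_zero]
      have ha' : a' ≠ 0 := by
        rintro rfl
        exact ha (map_zero _)
      have hb' : b' ≠ 0 := by
        rintro rfl
        exact hb (map_zero _)
      rw [P.ord_div ha hb, hPq a' ha', hPq b' hb', sub_zero]
    -- the elements of `E` are units at the places over `P`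
    have hQE : ∀ (Q : Place ℂ K) (a : ℕ), Over Q P a → ∀ e : E, Q.ord (algebraMap E K e) = 0 := by
      intro Q a hQ
      have halgE : Algebra.IsAlgebraic (IntermediateField.adjoin ℂ (Set.range x)) E :=
        hx.isAlgebraic_field
      rw [← hSx] at halgE
      refine ord_eq_zero_of_alg (K0 := Sx) (K1 := E) (K2 := K) Q (fun s => ?_)
      have h4 := hQ.2 ⟨((s : E) : K), hSK s s.2⟩
      rw [hPS s s.2, mul_zero] at h4
      exact h4
    have hQE' : ∀ (Q : Place ℂ K) (a : ℕ), Over Q P a → ∀ e : E, Ge Q 0 (e : K) := by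
      intro Q a hQ e
      exact Or.inr (hQE Q a hQ e).ge
    -- the places over `P` are unramified
    let φ : Sx →+* P.O :=
      { toFun := fun s => ⟨⟨((s : E) : K), hSK s s.2⟩, Or.inr (hPS s s.2).ge⟩
        map_one' := rfl
        map_mul' := fun _ _ => rfl
        map_zero' := rfl
        map_add' := fun _ _ => rfl }
    have hφ : ((algebraMap Kx K).comp P.O.subtype).comp φ =
        (algebraMap E K).comp (algebraMap Sx E) := by
      ext s
      rfl
    have heval : ∀ g : Polynomial Sx, Polynomial.eval₂ ((algebraMap Kx K).comp P.O.subtype)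
        (θ : K) (g.map φ) = algebraMap E K (Polynomial.aeval θ g) := by
      intro g
      rw [Polynomial.eval₂_map, hφ, Polynomial.aeval_def, Polynomial.hom_eval₂]
      rfl
    have hun : ∀ (Q : Place ℂ K) (a : ℕ), Over Q P a → a = 1 := by
      intro Q a hQ
      refine unram P (θ := (θ : K)) (fun Q a hQ => hQE' Q a hQ θ) hgenθ (f.map φ) (hfm.map φ)
        ?_ (fun Q a hQ => ?_) Q a hQ
      · rw [heval, hfθ, map_zero]
      · rw [Polynomial.derivative_map, heval]
        exact ⟨(_root_.map_ne_zero _).2 hfd', hQE Q a hQ _⟩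
    -- the vector fields
    choose D' hD' using fun i => Pool.Agent.Y172.exists_lift (L := K) htr0 (D i)
    have hdet : (Matrix.of fun i l => D' i
        (Fin.append (fun i => (x i : K)) (fun j => (y j : K)) l)).det =
        algebraMap Kx K (Matrix.of fun i l => D i (zc x0 y l)).det := by
      rw [RingHom.map_det]
      congr 1
      ext i l
      rw [RingHom.mapMatrix_apply, Matrix.map_apply, Matrix.of_apply, Matrix.of_apply, ← hD',
        hcomp]
    have h7 : Dom P S0 j (Algebra.trace Kx K ((e : K) * ((Matrix.of fun i l => D' i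
        (Fin.append (fun i => (x i : K)) (fun j => (y j : K)) l)).det ^ m * u))) := by
      refine trace_dom P hun hS01 hS0 fun Q a hQ => ?_
      have hreg : ∀ i, DerReg Q (D' i) := by
        intro i
        refine Pool.Agent.W762.PG.pres P Q a hQ (D' i) (fun z hz => ?_) (Or.inl (hun Q a hQ))
        rw [hD']
        exact hQ.reg.2 (hD i z hz)
      have h8 := hu Q (Pool.Agent.Y172.divisorial_up hQ hP) (hQE Q a hQ) D' hreg
      rcases h8 with h8 | ⟨s, hs, hs0, hle⟩
      · left
        rw [h8, mul_zero]
      · by_cases he0 : (e : K) = 0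
        · left
          rw [he0, zero_mul]
        by_cases hg0 : ((Matrix.of fun i l => D' i
            (Fin.append (fun i => (x i : K)) (fun j => (y j : K)) l)).det ^ m * u) = 0
        · left
          rw [hg0, mul_zero]
        refine Or.inr ⟨s, hs, hs0, ?_⟩
        rw [Q.ord_mul he0 hg0]
        have h9 : Q.ord (e : K) = 0 := hQE Q a hQ e
        rw [h9, zero_add]
        exact hle
    have h8 : Algebra.trace Kx K ((e : K) * ((Matrix.of fun i l => D' i
        (Fin.append (fun i => (x i : K)) (fun j => (y j : K)) l)).det ^ m * u)) =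
        (Matrix.of fun i l => D i (zc x0 y l)).det ^ m * Algebra.trace Kx K ((e : K) * u) := by
      rw [hdet]
      have h9 : (e : K) * (algebraMap Kx K (Matrix.of fun i l => D i (zc x0 y l)).det ^ m * u) =
          ((Matrix.of fun i l => D i (zc x0 y l)).det ^ m) • ((e : K) * u) := by
        rw [Algebra.smul_def, map_pow]
        ring
      rw [h9, map_smul, smul_eq_mul]
    rw [h8] at h7
    exact h7
  -- the traces are combinations
  have hspan : ∀ e : E, b0 ^ j * algebraMap Kx K (Algebra.trace Kx K ((e : K) * u)) ∈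
      Submodule.span E ((fun a : F => (a : K)) '' HS y S' m j) := by
    intro e
    obtain ⟨q, hq, b, hb, he⟩ := htrace e
    have hqx : MvPolynomial.aeval x q ≠ 0 := fun h0 =>
      hq ((injective_iff_map_eq_zero _).1 hx.1 _ h0)
    have h6 : ((MvPolynomial.aeval x q : E) : K) =
        algebraMap Kx K (MvPolynomial.aeval x0 q) := by
      change algebraMap E K (MvPolynomial.aeval x q) = _
      rw [← MvPolynomial.aeval_algebraMap_apply, ← MvPolynomial.aeval_algebraMap_apply]
      congr 2
      funext i
      exact (hx0 i).symm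
    have h7 : b0 ^ j * algebraMap Kx K (Algebra.trace Kx K ((e : K) * u)) =
        (MvPolynomial.aeval x q)⁻¹ • ∑ s ∈ b.support, (∏ i, x i ^ s i) • ((b.coeff s : F) : K) := by
      have h8 : (MvPolynomial.aeval x q) • (b0 ^ j *
          algebraMap Kx K (Algebra.trace Kx K ((e : K) * u))) =
          ∑ s ∈ b.support, (∏ i, x i ^ s i) • ((b.coeff s : F) : K) := by
        rw [Algebra.smul_def]
        change ((MvPolynomial.aeval x q : E) : K) * _ = _
        rw [h6, hb0, ← map_pow, ← map_mul, ← map_mul, he, MvPolynomial.aeval_eq_eval₂Hom,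
          MvPolynomial.coe_eval₂Hom, MvPolynomial.eval₂_eq', map_sum]
        refine Finset.sum_congr rfl fun s _ => ?_
        rw [map_mul, map_prod, Algebra.smul_def, map_prod, mul_comm]
        congr 1
        refine Finset.prod_congr rfl fun i _ => ?_
        rw [map_pow, map_pow]
        congr 1
        exact hx0 i
      rw [← h8, smul_smul, inv_mul_cancel₀ hqx, one_smul]
    rw [h7]
    refine Submodule.smul_mem _ _ (Submodule.sum_mem _ fun s _ => Submodule.smul_mem _ _
      (Submodule.subset_span ⟨b.coeff s, hb s, rfl⟩))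
  obtain ⟨g, hgθ, hL⟩ := lagr hsup Kx Sx hSK θ fun e => by
    obtain ⟨f, hf⟩ := pb.exists_eq_aeval' e
    rw [← hθ] at hf
    exact ⟨f, hf⟩
  have h9 : b0 ^ j * u = (g.eval θ)⁻¹ • (b0 ^ j * (algebraMap E K (g.eval θ) * u)) := by
    rw [Algebra.smul_def]
    have h10 : algebraMap E K (g.eval θ)⁻¹ * (b0 ^ j * (algebraMap E K (g.eval θ) * u)) =
        (algebraMap E K (g.eval θ)⁻¹ * algebraMap E K (g.eval θ)) * (b0 ^ j * u) := by ring
    rw [h10, ← map_mul, inv_mul_cancel₀ hgθ, map_one, one_mul]
  rw [h9, ← hL u]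
  refine Submodule.smul_mem _ _ ?_
  rw [Polynomial.sum, Finset.mul_sum]
  refine Submodule.sum_mem _ fun l _ => ?_
  rw [Polynomial.coeff_map]
  have h12 : b0 ^ j * (algebraMap E K (g.coeff l) *
      algebraMap Kx K (Algebra.trace Kx K ((θ : K) ^ l * u))) =
      g.coeff l • (b0 ^ j * algebraMap Kx K (Algebra.trace Kx K ((θ : K) ^ l * u))) := by
    rw [Algebra.smul_def]
    ring
  rw [h12]
  refine Submodule.smul_mem _ _ ?_
  have h10 := hspan (θ ^ l)
  have h11 : (((θ ^ l : E) : K)) = (θ : K) ^ l := rfl
  rw [h11] at h10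
  exact h10

end

end Pool.Agent.Run7.h562.ND
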