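import Pool.Agent.Run7.h562.ND.Down

/-!
The canonical divisor of the image of a product: pseudo-effectivity, Kodaira dimension and numerical
dimension.
-/

set_option autoImplicit false
set_option linter.overlappingInstances false
set_option linter.unusedSectionVars false
set_option linter.unusedVariables false
set_option maxHeartbeats 1000000
set_option synthInstance.maxHeartbeats 400000

open FF IntermediateField Module

namespace Pool.Agent.Run7.h562.ND

open Pool.Agent Pool.Agent.W603.LV Pool.Agent.W619.PQ Pool.Agent.W619.PL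
open Pool.Agent.W602.GT (Divisorial RegAt IsPluri DerReg exists_der)
open Pool.Agent.W619.TW (Dom IsSec HasIndep NumLe NumNeg KodGe)
open Pool.Agent.Run7.h562.MM
open Run7.h72 (mlt Lv)

open scoped Classical

section

/-- multiplication by powers of a form with poles -/
theorem shift {F : Type} [Field F] [Algebra ℂ F] {n : ℕ} (hn : Algebra.trdeg ℂ F = n)
    (S' : Finset F) (k : ℕ) : ∃ S2 : Finset F, ∀ m j h : ℕ, 1 ≤ j →
      HasIndep ℂ F n h (IsSec ℂ F n (fun _ => False) S' m j) →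
      HasIndep ℂ F n h (IsSec ℂ F n (fun _ => False) S2 (k + m) j) := by
  obtain ⟨y, hy⟩ := Pool.Agent.W636.PG.exists_basis ℂ F n hn
  obtain ⟨G, hG⟩ := Pool.Agent.W636.PG.exists_duals ℂ F n y hy
  obtain ⟨Sx, h1, hSx⟩ := form_dom (k := ℂ) y
  have hdet : (Matrix.of fun i l => G i (y l) : Matrix (Fin n) (Fin n) F) = 1 := by
    ext i l
    rw [Matrix.of_apply, hG, Matrix.one_apply]
  refine ⟨(Sx ×ˢ S').image fun p => p.1 ^ k * p.2, fun m j h hj hI => ?_⟩
  obtain ⟨τ, hli, hτ⟩ := hI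
  refine ⟨fun l D => (Matrix.of fun i l => D i (y l)).det ^ k * τ l D, ?_, fun l => ⟨?_, ?_, ?_⟩⟩
  · refine LinearIndependent.of_comp (LinearMap.proj G) ?_
    have h2 := Pool.Agent.Y173.QA.lin_frame (fun D =>
      ⟨_, Pool.Agent.Y173.QA.der_expand hy hG D⟩) hli (fun l => (hτ l).1)
      (one_ne_zero (α := F))
    have h3 : ((LinearMap.proj G : ((Fin n → Derivation ℂ F F) → F) →ₗ[ℂ] F) ∘
        fun l D => (Matrix.of fun i l => D i (y l)).det ^ k * τ l D) = fun l => 1 * τ l G := by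
      funext l
      change (Matrix.of fun i l => G i (y l)).det ^ k * τ l G = _
      rw [hdet, Matrix.det_one, one_pow]
    rw [h3]
    exact h2
  · have h2 := Pool.Agent.Y172.pluri_mul (Run7.h72.det_pluri y k (1 : F)) (hτ l).1
    simp only [mul_one] at h2
    exact h2
  · intro P hP hB D hD
    obtain ⟨s1, hs1, hs10, hs1n, hs1d⟩ := hSx P D hD
    rcases (hτ l).2.1 P hP hB D hD with h2 | ⟨s2, hs2, hs20, hs2d⟩
    · left
      beta_reduce
      rw [h2, mul_zero]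
    · have h6 : Ge P ((j : ℤ) * P.ord s2) (τ l D) := Or.inr hs2d
      rcases (hs1d.pow k).mul h6 with h7 | h7
      · exact Or.inl h7
      · refine Or.inr ⟨s1 ^ k * s2, Finset.mem_image.2 ⟨(s1, s2),
          Finset.mem_product.2 ⟨hs1, hs2⟩, rfl⟩, mul_ne_zero (pow_ne_zero _ hs10) hs20,
          le_trans ?_ h7⟩
        rw [P.ord_mul (pow_ne_zero _ hs10) hs20, P.ord_pow]
        have h9 : (k : ℤ) ≤ j * k := by
          have : k ≤ j * k := Nat.le_mul_of_pos_left _ hj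
          exact_mod_cast this
        have h10 : ((j : ℤ) * k) * P.ord s1 ≤ k * P.ord s1 :=
          mul_le_mul_of_nonpos_right h9 hs1n
        linarith
  · exact fun P hP hB => hB.elim

end

section

variable {F L : Type} [Field F] [Algebra ℂ F] [Field L] [Algebra ℂ L] {n d s0 N r : ℕ}

/-- forms on the base are obtained from those on the second factor -/
def DownP (F L : Type) [Field F] [Algebra ℂ F] [Field L] [Algebra ℂ L] (n d s0 N r : ℕ) : Prop :=
  ∀ S' : Finset F, ∃ S'' : Finset L, ∀ (w s r0 t j : ℕ), w = r0 + N * s → r0 ≤ N * j →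
    2 * r * r0 + s0 * t * r ≤ s → ∀ h,
    HasIndep ℂ F n h (IsSec ℂ F n (fun _ => False) S' w j) →
    HasIndep ℂ L d (h * (t + 1) ^ s0) (IsSec ℂ L d (fun _ => False) S'' (w * r) j)

theorem neg_of_down (hN : 1 ≤ N) (hr : 1 ≤ r) (hd : DownP F L n d s0 N r)
    (h : NumNeg ℂ L d (fun _ => False)) : NumNeg ℂ F n (fun _ => False) := by
  intro S'
  obtain ⟨S'', hS''⟩ := hd S'
  obtain ⟨m0, hm0⟩ := h S''
  refine ⟨m0 + 2 * r * N * N, fun w hw hI => ?_⟩
  have h1 := hS'' w (w / N) (w % N) 0 1 (Nat.mod_add_div w N).symm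
    (by rw [mul_one]; exact (Nat.mod_lt w hN).le) (by
      rw [mul_zero, zero_mul, add_zero, Nat.le_div_iff_mul_le hN]
      have h2 : 2 * r * (w % N) ≤ 2 * r * N := Nat.mul_le_mul_left _ (Nat.mod_lt w hN).le
      have h3 : 2 * r * (w % N) * N ≤ 2 * r * N * N := Nat.mul_le_mul_right _ h2
      omega) 1 hI
  rw [zero_add, one_pow, mul_one] at h1
  refine hm0 (w * r) ?_ h1
  have h2 : w ≤ w * r := Nat.le_mul_of_pos_right _ hr
  have h3 : m0 ≤ w := by omega
  exact h3.trans h2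

theorem num_of_down (hn : Algebra.trdeg ℂ F = n) (hN : 1 ≤ N) (hr : 1 ≤ r)
    (hd : DownP F L n d s0 N r) {h : ℕ}
    (hnum : NumLe ℂ L d (fun _ => False) (s0 + h)) : NumLe ℂ F n (fun _ => False) h := by
  intro S'
  obtain ⟨w1, hw1⟩ : ∃ w1, w1 = 4 * r * N * N := ⟨_, rfl⟩
  obtain ⟨S2, hS2⟩ := shift hn S' w1
  obtain ⟨S'', hS''⟩ := hd S2
  obtain ⟨C, hC⟩ := hnum S''
  obtain ⟨Q, hQ⟩ : ∃ Q, Q = s0 * r + 1 := ⟨_, rfl⟩
  obtain ⟨A, hA⟩ : ∃ A, A = 4 * N * Q := ⟨_, rfl⟩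
  refine ⟨A ^ s0 * C * r ^ (s0 + h) * (1 + w1) ^ h, fun m N' hm hI => ?_⟩
  have hI2 := hS2 m 1 N' le_rfl hI
  obtain ⟨w, hw⟩ : ∃ w, w = w1 + m := ⟨_, rfl⟩
  obtain ⟨s, hs⟩ : ∃ s, s = w / N := ⟨_, rfl⟩
  obtain ⟨t, ht⟩ : ∃ t, t = (s - 2 * r * N) / Q := ⟨_, rfl⟩
  rw [← hw] at hI2
  have hQ0 : 0 < Q := by omega
  have hs4 : 4 * r * N ≤ s := by
    rw [hs, Nat.le_div_iff_mul_le hN, ← hw1]
    omega
  have hrN : 1 ≤ r * N := Nat.mul_pos hr hN
  have hs4' : 4 * (r * N) ≤ s := by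
    calc 4 * (r * N) = 4 * r * N := by ring
      _ ≤ s := hs4
  have h2rN : 2 * r * N = 2 * (r * N) := by ring
  have htQ : t * Q ≤ s - 2 * r * N := by
    rw [ht]
    exact Nat.div_mul_le_self _ _
  have htQ2 : s - 2 * r * N < (t + 1) * Q := by
    rw [ht]
    exact Nat.lt_mul_of_div_lt (Nat.lt_succ_self _) hQ0
  have h1 := hS'' w s (w % N) t 1 (by rw [hs]; exact (Nat.mod_add_div w N).symm)
    (by rw [mul_one]; exact (Nat.mod_lt w hN).le) (by
      have h2 : 2 * r * (w % N) ≤ 2 * r * N := Nat.mul_le_mul_left _ (Nat.mod_lt w hN).le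
      have h3 : s0 * t * r ≤ t * Q := by
        rw [hQ]
        calc s0 * t * r = t * (s0 * r) := by ring
          _ ≤ t * (s0 * r + 1) := Nat.mul_le_mul_left _ (Nat.le_succ _)
      omega) N' hI2
  have hwr : 1 ≤ w * r := Nat.mul_pos (by omega) hr
  have h2 := hC (w * r) _ hwr h1
  -- the growth
  have h3 : w ≤ A * (t + 1) := by
    have h4 : w < N * (s + 1) := by
      rw [hs, mul_comm]
      exact Nat.lt_mul_of_div_lt (Nat.lt_succ_self _) hN
    have h5 : N * (s + 1) ≤ N * (2 * s) := Nat.mul_le_mul_left _ (by omega)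
    have h6 : 2 * s ≤ 4 * ((t + 1) * Q) := by omega
    calc w ≤ N * (2 * s) := (h4.trans_le h5).le
      _ ≤ N * (4 * ((t + 1) * Q)) := Nat.mul_le_mul_left _ h6
      _ = A * (t + 1) := by rw [hA]; ring
  have hw0 : 0 < w := by omega
  have h4 : N' * w ^ s0 ≤ A ^ s0 * C * r ^ (s0 + h) * w ^ h * w ^ s0 := by
    calc N' * w ^ s0 ≤ N' * (A * (t + 1)) ^ s0 :=
          Nat.mul_le_mul_left _ (Nat.pow_le_pow_left h3 _)
      _ = A ^ s0 * (N' * (t + 1) ^ s0) := by rw [mul_pow]; ring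
      _ ≤ A ^ s0 * (C * (w * r) ^ (s0 + h)) := Nat.mul_le_mul_left _ h2
      _ = A ^ s0 * C * r ^ (s0 + h) * w ^ h * w ^ s0 := by
        rw [mul_pow, pow_add w]
        ring
  have h5 := Nat.le_of_mul_le_mul_right h4 (pow_pos hw0 _)
  have h6 : w ≤ (1 + w1) * m := by
    rw [hw, Nat.add_mul, one_mul]
    have := Nat.le_mul_of_pos_right w1 hm
    omega
  calc N' ≤ A ^ s0 * C * r ^ (s0 + h) * w ^ h := h5
    _ ≤ A ^ s0 * C * r ^ (s0 + h) * ((1 + w1) * m) ^ h :=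
      Nat.mul_le_mul_left _ (Nat.pow_le_pow_left h6 _)
    _ = _ := by rw [mul_pow]; ring

theorem kod_of_down (hN : 1 ≤ N) (hr : 1 ≤ r) (hd : DownP F L n d s0 N r) {a : ℕ}
    (hk : KodGe ℂ F n (fun _ => False) a) : KodGe ℂ L d (fun _ => False) (s0 + a) := by
  obtain ⟨m, hm, hk⟩ := hk
  obtain ⟨S'', hS''⟩ := hd {1}
  obtain ⟨Q, hQ⟩ : ∃ Q, Q = s0 * r + 1 := ⟨_, rfl⟩
  have hQ0 : 0 < Q := by omega
  refine ⟨Q * N * m * r, Nat.mul_pos (Nat.mul_pos (Nat.mul_pos hQ0 hN) hm) hr,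
    fun J hJ => ?_⟩
  have h1 := hS'' (J * (Q * N) * m) (J * Q * m) 0 J 0 (by ring) (by simp) (by
      rw [mul_zero, zero_add]
      have h2 : s0 * J * r ≤ J * Q := by
        rw [hQ]
        calc s0 * J * r = J * (s0 * r) := by ring
          _ ≤ J * (s0 * r + 1) := Nat.mul_le_mul_left _ (Nat.le_succ _)
      exact h2.trans (Nat.le_mul_of_pos_right _ hm)) _
    (hk (J * (Q * N)) (Nat.mul_pos hJ (Nat.mul_pos hQ0 hN)))
  have e1 : J * (Q * N) * m * r = J * (Q * N * m * r) := by ring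
  rw [e1] at h1
  refine indep_mono h1 ?_ fun ω hω => sec_zero hω 0
  have h2 : J ^ a ≤ (J * (Q * N)) ^ a :=
    Nat.pow_le_pow_left (Nat.le_mul_of_pos_right _ (Nat.mul_pos hQ0 hN)) _
  have h3 : J ^ s0 ≤ (J + 1) ^ s0 := Nat.pow_le_pow_left (Nat.le_succ _) _
  calc J ^ (s0 + a) = J ^ a * J ^ s0 := by rw [pow_add]; ring
    _ ≤ _ := Nat.mul_le_mul h2 h3

/-- the Kodaira dimension is at most the numerical dimension -/
theorem kod_le_num {a b : ℕ} (hk : KodGe ℂ L d (fun _ => False) a)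
    (hnum : NumLe ℂ L d (fun _ => False) b) : a ≤ b := by
  by_contra hab
  push Not at hab
  obtain ⟨m, hm, hk⟩ := hk
  obtain ⟨C, hC⟩ := hnum {1}
  obtain ⟨J, hJ⟩ : ∃ J, J = C * m ^ b + 1 := ⟨_, rfl⟩
  have hJ0 : 0 < J := by omega
  have h1 := hC (J * m) _ (Nat.mul_pos hJ0 hm)
    (indep_mono (hk J hJ0) le_rfl fun ω hω => sec_zero hω 1)
  have h2 : J ^ (b + 1) ≤ J ^ a := Nat.pow_le_pow_right hJ0 hab
  rw [mul_pow] at h1
  have h3 : J ^ b * J ≤ J ^ b * (C * m ^ b) := by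
    calc J ^ b * J = J ^ (b + 1) := by rw [pow_succ]
      _ ≤ C * (J ^ b * m ^ b) := h2.trans h1
      _ = _ := by ring
  have h4 := Nat.le_of_mul_le_mul_left h3 (pow_pos hJ0 _)
  omega

theorem kod_mono {a b : ℕ} (hab : a ≤ b) (hk : KodGe ℂ L d (fun _ => False) b) :
    KodGe ℂ L d (fun _ => False) a := by
  obtain ⟨m, hm, hk⟩ := hk
  exact ⟨m, hm, fun j hj => indep_mono (hk j hj) (Nat.pow_le_pow_right hj hab) fun _ h => h⟩

end

section

variable {K L : Type} [Field K] [Field L] [Algebra ℂ K] [Algebra ℂ L] [Algebra L K]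
  [IsScalarTower ℂ L K] [FiniteDimensional L K]

/-- pull-backs to the covering -/
theorem up [Algebra.EssFiniteType ℂ L] {d : ℕ} (hL : Algebra.trdeg ℂ L = d) (S : Finset L)
    {m j N : ℕ} (hI : HasIndep ℂ L d N (IsSec ℂ L d (fun _ => False) S m j)) :
    HasIndep ℂ K d N (IsSec ℂ K d (fun _ => False) (S.image (algebraMap L K)) m j) := by
  have hc0 : CharZero L := charZero_of_injective_algebraMap (algebraMap ℂ L).injective
  have h1 := Run7.h72.indep_up (L := K) hL (fun _ => False) S hI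
  rw [Pool.Agent.W619.Y.bdUp_false] at h1
  exact h1

theorem neg_below [Algebra.EssFiniteType ℂ L] {d : ℕ} (hL : Algebra.trdeg ℂ L = d)
    (h : NumNeg ℂ K d (fun _ => False)) : NumNeg ℂ L d (fun _ => False) := by
  intro S
  obtain ⟨m0, hm0⟩ := h (S.image (algebraMap L K))
  exact ⟨m0, fun m hm hI => hm0 m hm (up hL S hI)⟩

theorem num_below [Algebra.EssFiniteType ℂ L] {d h : ℕ} (hL : Algebra.trdeg ℂ L = d)
    (hnum : NumLe ℂ K d (fun _ => False) h) : NumLe ℂ L d (fun _ => False) h := by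
  intro S
  obtain ⟨C, hC⟩ := hnum (S.image (algebraMap L K))
  exact ⟨C, fun m N hm hI => hC m N hm (up hL S hI)⟩

theorem kod_above [Algebra.EssFiniteType ℂ L] {d a : ℕ} (hL : Algebra.trdeg ℂ L = d)
    (hk : KodGe ℂ L d (fun _ => False) a) : KodGe ℂ K d (fun _ => False) a := by
  obtain ⟨m, hm, hk⟩ := hk
  refine ⟨m, hm, fun j hj => ?_⟩
  have h1 := up (K := K) hL {1} (hk j hj)
  rwa [Finset.image_singleton, map_one] at h1

variable {E F : IntermediateField ℂ K} {M n : ℕ}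

/-- **The image of a product.** -/
theorem main [Algebra.EssFiniteType ℂ K] [Algebra.EssFiniteType ℂ E]
    [Algebra.EssFiniteType ℂ F] (hsup : E ⊔ F = ⊤)
    (hE : Algebra.trdeg ℂ E = M) (hn : Algebra.trdeg ℂ F = n)
    (hK : Algebra.trdeg ℂ K = (M + n : ℕ)) {κ : ℕ}
    {m : Fin κ → ℕ} (x : ∀ i, Fin (m i + 1) → E) (hx0 : ∀ i, x i 0 = 1)
    (hgen : Lv L (fun i b => (x i b : K)) κ = ⊤) {N : ℕ} (hN : 1 ≤ N) (Mi : Fin κ → ℕ)
    (hM : ∀ i : Fin κ, 2 * (finrank L (Lv L (fun i b => (x i b : K)) (i + 1)) -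
      finrank L (Lv L (fun i b => (x i b : K)) i)) * N <
        Mi i * finrank L (Lv L (fun i b => (x i b : K)) i))
    {η : (Fin M → Derivation ℂ E E) → E} (hη : IsPluri N η) (hη0 : ∃ D, η D ≠ 0)
    (hreg : ∀ f, ∀ P : Place ℂ E, Divisorial M P → RegAt P fun G => mlt x Mi f * η G)
    {s0 : ℕ} (q : Fin s0 → (i : Fin κ) × Fin (m i + 1))
    (hq : AlgebraicIndependent ℂ fun a => x (q a).1 (q a).2) :
    (NumNeg ℂ L (M + n) (fun _ => False) ↔ NumNeg ℂ F n (fun _ => False)) ∧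
    (KodGe ℂ L (M + n) (fun _ => False) 0 ↔ KodGe ℂ F n (fun _ => False) 0) ∧
    (∀ h, NumLe ℂ L (M + n) (fun _ => False) (s0 + h) → NumLe ℂ F n (fun _ => False) h) ∧
    (∀ h, NumLe ℂ F n (fun _ => False) h → NumLe ℂ L (M + n) (fun _ => False) (M + h)) ∧
    (∀ a, KodGe ℂ F n (fun _ => False) a → KodGe ℂ L (M + n) (fun _ => False) (s0 + a)) ∧
    (∀ a, KodGe ℂ L (M + n) (fun _ => False) (M + a) → KodGe ℂ F n (fun _ => False) a) := by
  have hL : Algebra.trdeg ℂ L = (M + n : ℕ) := Pool.Agent.Y184.NT.trdeg_below (K := K) hK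
  have hessL : Algebra.EssFiniteType ℂ L := Pool.Agent.TH466.QG.ess_below (K := K)
  have hr : 1 ≤ finrank L K := finrank_pos
  have hd : DownP F L n (M + n) s0 N (finrank L K) :=
    down hsup hE hn hK x hx0 hgen Mi hM hη hη0 hreg q hq
  refine ⟨⟨neg_of_down hN hr hd, fun h => neg_below hL (neg_add hsup hE hn hK h)⟩,
    ⟨fun h => kod_zero hsup hE hn hK (kod_above hL h), fun h =>
      kod_mono (Nat.zero_le _) (kod_of_down hN hr hd h)⟩,
    fun h => num_of_down hn hN hr hd, fun h hh => num_below hL (num_add hsup hE hn hK hh),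
    fun a => kod_of_down hN hr hd, fun a ha => kod_add hsup hE hn hK (kod_above hL ha)⟩

end

end Pool.Agent.Run7.h562.ND
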