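import Pool.Agent.Run7.h562.ND.PPull

/-!
Pairs dominated by the product of a variety and a pair.
-/

set_option autoImplicit false
set_option linter.overlappingInstances false
set_option linter.unusedSectionVars false
set_option linter.unusedVariables false
set_option maxHeartbeats 1000000
set_option synthInstance.maxHeartbeats 400000

open FF IntermediateField Module

namespace Pool.Agent.Run7.h562.ND

open Pool.Agent Pool.Agent.W603.LV Pool.Agent.W619.PQ Pool.Agent.W619.PL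
open Pool.Agent.W602.GT (Divisorial RegAt IsPluri DerReg exists_der)
open Pool.Agent.W619.TW (Dom IsSec HasIndep)
open Pool.Agent.Run7.h562.MM
open Run7.h72 (mlt Lv)
open Pool.Agent.Y174 (PairSec PairNum LiesOn IsPull)

open scoped Classical

section

variable {K L : Type} [Field K] [Field L] [Algebra ℂ K] [Algebra ℂ L] [Algebra L K]
  [IsScalarTower ℂ L K] [FiniteDimensional L K]

/-- **Norms of forms.** -/
theorem pdown_core [Algebra.EssFiniteType ℂ K] [Algebra.EssFiniteType ℂ L] {d : ℕ}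
    (hL : Algebra.trdeg ℂ L = d) {κ : ℕ} {m : Fin κ → ℕ} (x : ∀ i, Fin (m i + 1) → K)
    (hx0 : ∀ i, x i 0 = 1) (hgen : Lv L x κ = ⊤) (S : Finset K)
    {δQ : Place ℂ K → ℝ} {δW : Place ℂ L → ℚ}
    (hδ : ∀ (P : Place ℂ L) (Q : Place ℂ K) (e : ℕ), Divisorial d P → Over Q P e →
      δQ Q ≤ e * (δW P : ℝ)) :
    ∃ S'' : Finset L, ∀ (w j : ℕ) (M' : Fin κ → ℕ),
      (∀ i : Fin κ, 2 * (finrank L (Lv L x (i + 1)) - finrank L (Lv L x i)) * w ≤
        M' i * finrank L (Lv L x i)) →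
      ∀ (h : ℕ) (W : Fin h → (Fin d → Derivation ℂ K K) → K), LinearIndependent ℂ W →
      (∀ l, IsPluri w (W l)) →
      (∀ l f (Q : Place ℂ K), Divisorial d Q → ∀ D : Fin d → Derivation ℂ K K,
        (∀ i, DerReg Q (D i)) → RDom Q S j (w * δQ Q) (mlt x M' f * W l D)) →
      HasIndep ℂ L d h (PairSec ℂ L d (fun P => (δW P : ℝ)) S'' (w * finrank L K) j) := by
  have hc0 : CharZero L := charZero_of_injective_algebraMap (algebraMap ℂ L).injective
  obtain ⟨S0, h1S0, hS0⟩ := exists_dom (k := ℂ) (K := L) S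
  refine ⟨S0.image fun s => s ^ finrank L K, fun w j M' hM h W hli hW hdom => ?_⟩
  choose sm hsm hmin using fun P : Place ℂ L => Finset.exists_min_image
    (S0.filter fun a => a ≠ 0) (fun a => P.ord a) ⟨1, Finset.mem_filter.2 ⟨h1S0, one_ne_zero⟩⟩
  obtain ⟨η, hη1, hη2, hη3⟩ := Run7.h72.tower_ind (k := ℂ) κ (K := L) (L := K) hL
    {P | Divisorial d P} (fun P hP => hP) (fun P => (w : ℚ) * δW P - (((j : ℤ) * P.ord (sm P) : ℤ) : ℚ)) m x hx0
    hgen w M' hM h W hW (fun l f P hP Q e hQ G hG => by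
      rcases hdom l f Q (Pool.Agent.Y172.divisorial_up hQ hP) G hG with h1 | ⟨s, hs, hs0, hle⟩
      · exact Or.inl h1
      · right
        obtain ⟨a, ha, ha0, hle2⟩ := hS0 Q s hs
        have h2 := hmin P a (Finset.mem_filter.2 ⟨ha, ha0⟩)
        rw [hQ.2] at hle2
        have h3 : (e : ℤ) * P.ord (sm P) ≤ e * P.ord a :=
          mul_le_mul_of_nonneg_left h2 (Int.natCast_nonneg e)
        have h4 : (j : ℤ) * (e * P.ord (sm P)) ≤ j * Q.ord s :=
          mul_le_mul_of_nonneg_left (h3.trans hle2) (Int.natCast_nonneg j)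
        have h5 : ((j : ℝ) * (e * P.ord (sm P))) ≤ j * Q.ord s := by exact_mod_cast h4
        have h6 := mul_le_mul_of_nonneg_left (hδ P Q e hP hQ) (Nat.cast_nonneg (α := ℝ) w)
        have h7 : -((e : ℝ) * ((w : ℝ) * (δW P : ℝ) - (j : ℝ) * P.ord (sm P))) ≤
            Q.ord (mlt x M' f * W l G) := by
          linarith
        have h8 : ((-((e : ℚ) * ((w : ℚ) * δW P - (((j : ℤ) * P.ord (sm P) : ℤ) : ℚ))) : ℚ) : ℝ) ≤
            ((Q.ord (mlt x M' f * W l G) : ℚ) : ℝ) := by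
          push_cast
          push_cast at h7
          exact h7
        exact (Rat.cast_le (K := ℝ)).1 h8) hli
  refine ⟨η, hη3, fun l => ⟨hη1 l, fun P hP G hG => ?_⟩⟩
  rcases hη2 l P hP G hG with h1 | h1
  · exact Or.inl h1
  · refine Or.inr ⟨sm P ^ finrank L K, Finset.mem_image.2 ⟨sm P,
      (Finset.mem_filter.1 (hsm P)).1, rfl⟩, pow_ne_zero _ (Finset.mem_filter.1 (hsm P)).2, ?_⟩
    rw [P.ord_pow]
    have h2 : ((-((finrank L K : ℚ) * ((w : ℚ) * δW P - (((j : ℤ) * P.ord (sm P) : ℤ) : ℚ))) : ℚ) :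
        ℝ) ≤ ((P.ord (η l G) : ℚ) : ℝ) := (Rat.cast_le (K := ℝ)).2 h1
    push_cast at h2 ⊢
    linarith

variable {E F : IntermediateField ℂ K} {M n : ℕ}

/-- **Forms on the image of a product.** -/
theorem pdown [Algebra.EssFiniteType ℂ K] [Algebra.EssFiniteType ℂ L]
    [Algebra.EssFiniteType ℂ E] [Algebra.EssFiniteType ℂ F] (hsup : E ⊔ F = ⊤)
    (hE : Algebra.trdeg ℂ E = M) (hn : Algebra.trdeg ℂ F = n)
    (hK : Algebra.trdeg ℂ K = (M + n : ℕ)) {κ : ℕ}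
    {m : Fin κ → ℕ} (x : ∀ i, Fin (m i + 1) → E) (hx0 : ∀ i, x i 0 = 1)
    (hgen : Lv L (fun i b => (x i b : K)) κ = ⊤) {N : ℕ} (Mi : Fin κ → ℕ)
    (hM : ∀ i : Fin κ, 2 * (finrank L (Lv L (fun i b => (x i b : K)) (i + 1)) -
      finrank L (Lv L (fun i b => (x i b : K)) i)) * N <
        Mi i * finrank L (Lv L (fun i b => (x i b : K)) i))
    {η : (Fin M → Derivation ℂ E E) → E} (hη : IsPluri N η) (hη0 : ∃ D, η D ≠ 0)
    (hreg : ∀ f, ∀ P : Place ℂ E, Divisorial M P → RegAt P fun G => mlt x Mi f * η G)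
    {s0 : ℕ} (q : Fin s0 → (i : Fin κ) × Fin (m i + 1))
    (hq : AlgebraicIndependent ℂ fun a => x (q a).1 (q a).2) {δY : Place ℂ F → ℝ}
    {δQ : Place ℂ K → ℝ} {δW : Place ℂ L → ℚ}
    (hδ1 : ∀ Q : Place ℂ K, Divisorial (M + n) Q → (∀ f : F, Q.ord (f : K) = 0) → 0 ≤ δQ Q)
    (hδ2 : ∀ Q : Place ℂ K, Divisorial (M + n) Q → ∀ (P : Place ℂ F) (e : ℕ), Over Q P e →
      1 - e * (1 - δY P) ≤ δQ Q)
    (hδ : ∀ (P : Place ℂ L) (Q : Place ℂ K) (e : ℕ), Divisorial (M + n) P → Over Q P e →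
      δQ Q ≤ e * (δW P : ℝ)) (S' : Finset F) :
    ∃ S'' : Finset L, ∀ (w s r0 t j : ℕ), w = r0 + N * s → r0 ≤ N * j →
      2 * finrank L K * r0 + s0 * t * finrank L K ≤ s → ∀ h,
      HasIndep ℂ F n h (PairSec ℂ F n δY S' w j) →
      HasIndep ℂ L (M + n) (h * (t + 1) ^ s0)
        (PairSec ℂ L (M + n) (fun P => (δW P : ℝ)) S'' (w * finrank L K) j) := by
  obtain ⟨S, hS⟩ := pext_forms hsup hE hn hK x hx0 Mi hη hη0 hreg q hq S' hδ1 hδ2
  have hL : Algebra.trdeg ℂ L = (M + n : ℕ) := Pool.Agent.Y184.NT.trdeg_below (K := K) hK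
  obtain ⟨S'', hS''⟩ := pdown_core (L := L) hL (fun i b => (x i b : K))
    (fun i => by rw [hx0]; rfl) hgen S hδ
  refine ⟨S'', fun w s r0 t j hw hr0 hs h hI => ?_⟩
  have hr : 0 < finrank L K := finrank_pos
  have hle : ∀ i, finrank L (Lv L (fun i b => (x i b : K)) i) ≤ finrank L K := fun i =>
    Submodule.finrank_le (Subalgebra.toSubmodule (Lv L (fun i b => (x i b : K)) i).toSubalgebra)
  have hMs : ∀ i, s0 * t ≤ Mi i * s := by
    intro i
    have h1 : 0 < Mi i := by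
      rcases Nat.eq_zero_or_pos (Mi i) with h0 | h0
      · have h2 := hM i
        rw [h0, zero_mul] at h2
        exact absurd h2 (Nat.not_lt_zero _)
      · exact h0
    have h2 : s0 * t ≤ s0 * t * finrank L K := Nat.le_mul_of_pos_right _ hr
    have h3 : s ≤ Mi i * s := Nat.le_mul_of_pos_left _ h1
    omega
  obtain ⟨W, hW1, hW2, hW3⟩ := hS w s r0 t j (fun i => Mi i * s - s0 * t) hw hr0
    (fun i => Nat.sub_add_cancel (hMs i)) h hI
  refine hS'' w j (fun i => Mi i * s - s0 * t) (fun i => ?_) _ W hW1 hW2 hW3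
  obtain ⟨a, ha⟩ : ∃ a, a = finrank L (Lv L (fun i b => (x i b : K)) (i + 1)) -
      finrank L (Lv L (fun i b => (x i b : K)) i) := ⟨_, rfl⟩
  obtain ⟨b, hb⟩ : ∃ b, b = finrank L (Lv L (fun i b => (x i b : K)) i) := ⟨_, rfl⟩
  obtain ⟨r, hrr⟩ : ∃ r, r = finrank L K := ⟨_, rfl⟩
  have ha' : a ≤ r := by
    rw [ha, hrr]
    exact (Nat.sub_le _ _).trans (hle _)
  have hb' : b ≤ r := by
    rw [hb, hrr]
    exact hle _
  have hM' := hM i
  rw [← ha, ← hb] at hM' ⊢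
  rw [← hrr] at hs
  rw [Nat.sub_mul]
  apply Nat.le_sub_of_add_le
  rw [hw]
  have h1 : (2 * a * N + 1) * s ≤ Mi i * b * s := Nat.mul_le_mul_right s hM'
  have h2 : 2 * a * r0 ≤ 2 * r * r0 := Nat.mul_le_mul_right _ (Nat.mul_le_mul_left _ ha')
  have h3 : s0 * t * b ≤ s0 * t * r := Nat.mul_le_mul_left _ hb'
  calc 2 * a * (r0 + N * s) + s0 * t * b = 2 * a * r0 + s0 * t * b + 2 * a * N * s := by ring
    _ ≤ s + 2 * a * N * s := by omega
    _ = (2 * a * N + 1) * s := by ring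
    _ ≤ Mi i * b * s := h1
    _ = Mi i * s * b := by ring

end

section

/-- multiplication by powers of a form with poles -/
theorem pshift {F : Type} [Field F] [Algebra ℂ F] {n : ℕ} (hn : Algebra.trdeg ℂ F = n)
    {δ : Place ℂ F → ℝ} (hδ0 : ∀ P, Divisorial n P → 0 ≤ δ P) (S' : Finset F) (k : ℕ) : ∃ S2 : Finset F, ∀ m j h : ℕ, 1 ≤ j →
      HasIndep ℂ F n h (PairSec ℂ F n δ S' m j) →
      HasIndep ℂ F n h (PairSec ℂ F n δ S2 (k + m) j) := by
  obtain ⟨y, hy⟩ := Pool.Agent.W636.PG.exists_basis ℂ F n hn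
  obtain ⟨G, hG⟩ := Pool.Agent.W636.PG.exists_duals ℂ F n y hy
  obtain ⟨Sx, h1, hSx⟩ := form_dom (k := ℂ) y
  have hdet : (Matrix.of fun i l => G i (y l) : Matrix (Fin n) (Fin n) F) = 1 := by
    ext i l
    rw [Matrix.of_apply, hG, Matrix.one_apply]
  refine ⟨(Sx ×ˢ S').image fun p => p.1 ^ k * p.2, fun m j h hj hI => ?_⟩
  obtain ⟨τ, hli, hτ⟩ := hI
  refine ⟨fun l D => (Matrix.of fun i l => D i (y l)).det ^ k * τ l D, ?_, fun l => ⟨?_, ?_⟩⟩
  · refine LinearIndependent.of_comp (LinearMap.proj G) ?_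
    have h2 := Pool.Agent.Y173.QA.lin_frame (fun D =>
      ⟨_, Pool.Agent.Y173.QA.der_expand hy hG D⟩) hli (fun l => (hτ l).1)
      (one_ne_zero (α := F))
    have h3 : ((LinearMap.proj G : ((Fin n → Derivation ℂ F F) → F) →ₗ[ℂ] F) ∘
        fun l D => (Matrix.of fun i l => D i (y l)).det ^ k * τ l D) = fun l => 1 * τ l G := by
      funext l
      change (Matrix.of fun i l => G i (y l)).det ^ k * τ l G = _
      rw [hdet, Matrix.det_one, one_pow]
    rw [h3]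
    exact h2
  · have h2 := Pool.Agent.Y172.pluri_mul (Run7.h72.det_pluri y k (1 : F)) (hτ l).1
    simp only [mul_one] at h2
    exact h2
  · intro P hP D hD
    obtain ⟨s1, hs1, hs10, hs1n, hs1d⟩ := hSx P D hD
    rcases (hτ l).2 P hP D hD with h2 | ⟨s2, hs2, hs20, hs2d⟩
    · left
      beta_reduce
      rw [h2, mul_zero]
    · have h6 : Ge P (P.ord (τ l D)) (τ l D) := Or.inr le_rfl
      rcases (hs1d.pow k).mul h6 with h7 | h7
      · exact Or.inl h7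
      · refine Or.inr ⟨s1 ^ k * s2, Finset.mem_image.2 ⟨(s1, s2),
          Finset.mem_product.2 ⟨hs1, hs2⟩, rfl⟩, mul_ne_zero (pow_ne_zero _ hs10) hs20, ?_⟩
        rw [P.ord_mul (pow_ne_zero _ hs10) hs20, P.ord_pow]
        have h9 : (k : ℤ) ≤ j * k := by
          have : k ≤ j * k := Nat.le_mul_of_pos_left _ hj
          exact_mod_cast this
        have h10 : ((j : ℤ) * k) * P.ord s1 ≤ k * P.ord s1 :=
          mul_le_mul_of_nonpos_right h9 hs1n
        have h11 : (((j : ℤ) * k) * P.ord s1 + P.ord (τ l D) : ℤ) ≤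
            P.ord ((Matrix.of fun i l => D i (y l)).det ^ k * τ l D) := by linarith
        have h12 : (((((j : ℤ) * k) * P.ord s1 + P.ord (τ l D) : ℤ)) : ℝ) ≤
            (P.ord ((Matrix.of fun i l => D i (y l)).det ^ k * τ l D) : ℝ) := by
          exact_mod_cast h11
        have h13 := mul_nonneg (Nat.cast_nonneg (α := ℝ) k) (hδ0 P hP)
        push_cast at h12 ⊢
        linarith

end

section

variable {F L : Type} [Field F] [Algebra ℂ F] [Field L] [Algebra ℂ L] {n d s0 N r : ℕ}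

/-- forms on the base are obtained from those on the second factor -/
def PDownP (F L : Type) [Field F] [Algebra ℂ F] [Field L] [Algebra ℂ L] (n d s0 N r : ℕ)
    (δY : Place ℂ F → ℝ) (δW : Place ℂ L → ℝ) : Prop :=
  ∀ S' : Finset F, ∃ S'' : Finset L, ∀ (w s r0 t j : ℕ), w = r0 + N * s → r0 ≤ N * j →
    2 * r * r0 + s0 * t * r ≤ s → ∀ h,
    HasIndep ℂ F n h (PairSec ℂ F n δY S' w j) →
    HasIndep ℂ L d (h * (t + 1) ^ s0) (PairSec ℂ L d δW S'' (w * r) j)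

theorem pneg_of_down {δY : Place ℂ F → ℝ} {δW : Place ℂ L → ℝ} (hN : 1 ≤ N) (hr : 1 ≤ r) (hd : PDownP F L n d s0 N r δY δW)
    (h : PairNeg L d δW) : PairNeg F n δY := by
  intro S'
  obtain ⟨S'', hS''⟩ := hd S'
  obtain ⟨m0, hm0⟩ := h S''
  refine ⟨m0 + 2 * r * N * N, fun w hw hI => ?_⟩
  have h1 := hS'' w (w / N) (w % N) 0 1 (Nat.mod_add_div w N).symm
    (by rw [mul_one]; exact (Nat.mod_lt w hN).le) (by
      rw [mul_zero, zero_mul, add_zero, Nat.le_div_iff_mul_le hN]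
      have h2 : 2 * r * (w % N) ≤ 2 * r * N := Nat.mul_le_mul_left _ (Nat.mod_lt w hN).le
      have h3 : 2 * r * (w % N) * N ≤ 2 * r * N * N := Nat.mul_le_mul_right _ h2
      omega) 1 hI
  rw [zero_add, one_pow, mul_one] at h1
  refine hm0 (w * r) ?_ h1
  have h2 : w ≤ w * r := Nat.le_mul_of_pos_right _ hr
  have h3 : m0 ≤ w := by omega
  exact h3.trans h2

theorem pnum_of_down {δY : Place ℂ F → ℝ} {δW : Place ℂ L → ℝ}
    (hδ0 : ∀ P, Divisorial n P → 0 ≤ δY P) (hn : Algebra.trdeg ℂ F = n) (hN : 1 ≤ N) (hr : 1 ≤ r)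
    (hd : PDownP F L n d s0 N r δY δW) {h : ℕ}
    (hnum : PairNum ℂ L d δW (s0 + h)) : PairNum ℂ F n δY h := by
  intro S'
  obtain ⟨w1, hw1⟩ : ∃ w1, w1 = 4 * r * N * N := ⟨_, rfl⟩
  obtain ⟨S2, hS2⟩ := pshift hn hδ0 S' w1
  obtain ⟨S'', hS''⟩ := hd S2
  obtain ⟨C, hC⟩ := hnum S''
  obtain ⟨Q, hQ⟩ : ∃ Q, Q = s0 * r + 1 := ⟨_, rfl⟩
  obtain ⟨A, hA⟩ : ∃ A, A = 4 * N * Q := ⟨_, rfl⟩
  refine ⟨A ^ s0 * C * r ^ (s0 + h) * (1 + w1) ^ h, fun m N' hm hI => ?_⟩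
  have hI2 := hS2 m 1 N' le_rfl hI
  obtain ⟨w, hw⟩ : ∃ w, w = w1 + m := ⟨_, rfl⟩
  obtain ⟨s, hs⟩ : ∃ s, s = w / N := ⟨_, rfl⟩
  obtain ⟨t, ht⟩ : ∃ t, t = (s - 2 * r * N) / Q := ⟨_, rfl⟩
  rw [← hw] at hI2
  have hQ0 : 0 < Q := by omega
  have hs4 : 4 * r * N ≤ s := by
    rw [hs, Nat.le_div_iff_mul_le hN, ← hw1]
    omega
  have hrN : 1 ≤ r * N := Nat.mul_pos hr hN
  have hs4' : 4 * (r * N) ≤ s := by
    calc 4 * (r * N) = 4 * r * N := by ring
      _ ≤ s := hs4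
  have h2rN : 2 * r * N = 2 * (r * N) := by ring
  have htQ : t * Q ≤ s - 2 * r * N := by
    rw [ht]
    exact Nat.div_mul_le_self _ _
  have htQ2 : s - 2 * r * N < (t + 1) * Q := by
    rw [ht]
    exact Nat.lt_mul_of_div_lt (Nat.lt_succ_self _) hQ0
  have h1 := hS'' w s (w % N) t 1 (by rw [hs]; exact (Nat.mod_add_div w N).symm)
    (by rw [mul_one]; exact (Nat.mod_lt w hN).le) (by
      have h2 : 2 * r * (w % N) ≤ 2 * r * N := Nat.mul_le_mul_left _ (Nat.mod_lt w hN).le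
      have h3 : s0 * t * r ≤ t * Q := by
        rw [hQ]
        calc s0 * t * r = t * (s0 * r) := by ring
          _ ≤ t * (s0 * r + 1) := Nat.mul_le_mul_left _ (Nat.le_succ _)
      omega) N' hI2
  have hwr : 1 ≤ w * r := Nat.mul_pos (by omega) hr
  have h2 := hC (w * r) _ hwr h1
  -- the growth
  have h3 : w ≤ A * (t + 1) := by
    have h4 : w < N * (s + 1) := by
      rw [hs, mul_comm]
      exact Nat.lt_mul_of_div_lt (Nat.lt_succ_self _) hN
    have h5 : N * (s + 1) ≤ N * (2 * s) := Nat.mul_le_mul_left _ (by omega)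
    have h6 : 2 * s ≤ 4 * ((t + 1) * Q) := by omega
    calc w ≤ N * (2 * s) := (h4.trans_le h5).le
      _ ≤ N * (4 * ((t + 1) * Q)) := Nat.mul_le_mul_left _ h6
      _ = A * (t + 1) := by rw [hA]; ring
  have hw0 : 0 < w := by omega
  have h4 : N' * w ^ s0 ≤ A ^ s0 * C * r ^ (s0 + h) * w ^ h * w ^ s0 := by
    calc N' * w ^ s0 ≤ N' * (A * (t + 1)) ^ s0 :=
          Nat.mul_le_mul_left _ (Nat.pow_le_pow_left h3 _)
      _ = A ^ s0 * (N' * (t + 1) ^ s0) := by rw [mul_pow]; ring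
      _ ≤ A ^ s0 * (C * (w * r) ^ (s0 + h)) := Nat.mul_le_mul_left _ h2
      _ = A ^ s0 * C * r ^ (s0 + h) * w ^ h * w ^ s0 := by
        rw [mul_pow, pow_add w]
        ring
  have h5 := Nat.le_of_mul_le_mul_right h4 (pow_pos hw0 _)
  have h6 : w ≤ (1 + w1) * m := by
    rw [hw, Nat.add_mul, one_mul]
    have := Nat.le_mul_of_pos_right w1 hm
    omega
  calc N' ≤ A ^ s0 * C * r ^ (s0 + h) * w ^ h := h5
    _ ≤ A ^ s0 * C * r ^ (s0 + h) * ((1 + w1) * m) ^ h :=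
      Nat.mul_le_mul_left _ (Nat.pow_le_pow_left h6 _)
    _ = _ := by rw [mul_pow]; ring

theorem pkod_of_down {δY : Place ℂ F → ℝ} {δW : Place ℂ L → ℝ} (hN : 1 ≤ N) (hr : 1 ≤ r) (hd : PDownP F L n d s0 N r δY δW) {a : ℕ}
    (hk : PairKap F n δY a) : PairKap L d δW (s0 + a) := by
  obtain ⟨m, hm, hk⟩ := hk
  obtain ⟨S'', hS''⟩ := hd {1}
  obtain ⟨Q, hQ⟩ : ∃ Q, Q = s0 * r + 1 := ⟨_, rfl⟩
  have hQ0 : 0 < Q := by omega
  refine ⟨Q * N * m * r, Nat.mul_pos (Nat.mul_pos (Nat.mul_pos hQ0 hN) hm) hr,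
    fun J hJ => ?_⟩
  have h1 := hS'' (J * (Q * N) * m) (J * Q * m) 0 J 0 (by ring) (by simp) (by
      rw [mul_zero, zero_add]
      have h2 : s0 * J * r ≤ J * Q := by
        rw [hQ]
        calc s0 * J * r = J * (s0 * r) := by ring
          _ ≤ J * (s0 * r + 1) := Nat.mul_le_mul_left _ (Nat.le_succ _)
      exact h2.trans (Nat.le_mul_of_pos_right _ hm)) _
    (hk (J * (Q * N)) (Nat.mul_pos hJ (Nat.mul_pos hQ0 hN)))
  have e1 : J * (Q * N) * m * r = J * (Q * N * m * r) := by ring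
  rw [e1] at h1
  refine indep_mono h1 ?_ fun ω hω => psec_zero hω 0
  have h2 : J ^ a ≤ (J * (Q * N)) ^ a :=
    Nat.pow_le_pow_left (Nat.le_mul_of_pos_right _ (Nat.mul_pos hQ0 hN)) _
  have h3 : J ^ s0 ≤ (J + 1) ^ s0 := Nat.pow_le_pow_left (Nat.le_succ _) _
  calc J ^ (s0 + a) = J ^ a * J ^ s0 := by rw [pow_add]; ring
    _ ≤ _ := Nat.mul_le_mul h2 h3

end

end Pool.Agent.Run7.h562.ND
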