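import Pool.Agent.Run7.h562.ND.PDown

/-!
Pairs dominated by the product of a variety and a pair: the theorem.
-/

set_option autoImplicit false
set_option linter.overlappingInstances false
set_option linter.unusedSectionVars false
set_option linter.unusedVariables false
set_option maxHeartbeats 1000000
set_option synthInstance.maxHeartbeats 400000

open FF IntermediateField Module

namespace Pool.Agent.Run7.h562.ND

open Pool.Agent Pool.Agent.W603.LV Pool.Agent.W619.PQ Pool.Agent.W619.PL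
open Pool.Agent.W602.GT (Divisorial RegAt IsPluri DerReg exists_der)
open Pool.Agent.W619.TW (Dom IsSec HasIndep)
open Pool.Agent.Run7.h562.MM
open Run7.h72 (mlt Lv)
open Pool.Agent.Y174 (PairSec PairNum LiesOn IsPull)

open scoped Classical

section

/-- functions of the place below -/
theorem exists_fun {K F : Type} [Field K] [Field F] [Algebra ℂ K] [Algebra ℂ F] [Algebra F K]
    [IsScalarTower ℂ F K]
    (g : Place ℂ F → ℕ → ℝ) : ∃ δ : Place ℂ K → ℝ,
      (∀ (Q : Place ℂ K) (P : Place ℂ F) (e : ℕ), Over Q P e → δ Q = g P e) ∧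
      ∀ Q : Place ℂ K, (∀ f : F, Q.ord (algebraMap F K f) = 0) → δ Q = 0 := by
  refine ⟨fun Q => if h : ∃ p : Place ℂ F × ℕ, Over Q p.1 p.2 then g h.choose.1 h.choose.2 else 0,
    fun Q P e hQ => ?_, fun Q hQ => ?_⟩
  · have h : ∃ p : Place ℂ F × ℕ, Over Q p.1 p.2 := ⟨(P, e), hQ⟩
    simp only [dif_pos h]
    obtain ⟨h1, h2⟩ := Pool.Agent.Y172.over_unique' h.choose_spec hQ
    rw [h1, h2]
  · refine dif_neg ?_
    rintro ⟨p, hp⟩
    obtain ⟨t, -, ht⟩ := p.1.surj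
    have h1 := hp.2 t
    rw [hQ, ht, mul_one] at h1
    have := hp.1
    omega

variable {K L : Type} [Field K] [Field L] [Algebra ℂ K] [Algebra ℂ L] [Algebra L K]
  [IsScalarTower ℂ L K] [FiniteDimensional L K]

theorem exists_below (Q : Place ℂ K) : ∃ (P : Place ℂ L) (e : ℕ), Over Q P e := by
  by_cases htriv : ∃ f : L, Q.ord (algebraMap L K f) ≠ 0
  · obtain ⟨e, P, hP⟩ := exists_over Q htriv
    exact ⟨P, e, hP⟩
  · push Not at htriv
    exfalso
    obtain ⟨t, -, ht⟩ := Q.surj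
    have h1 := ord_eq_zero_of_alg (K0 := L) (K1 := K) (K2 := K) Q htriv t
    rw [Algebra.algebraMap_self, RingHom.id_apply, ht] at h1
    exact one_ne_zero h1

/-- pull-backs to the covering -/
theorem pull_up [Algebra.EssFiniteType ℂ L] {d : ℕ} (hL : Algebra.trdeg ℂ L = d)
    {δ : Place ℂ L → ℝ} {δ' : Place ℂ K → ℝ} (hpull : IsPull (K := L) (L := K) δ δ')
    (S : Finset L) {m j N : ℕ} (hI : HasIndep ℂ L d N (PairSec ℂ L d δ S m j)) :
    HasIndep ℂ K d N (PairSec ℂ K d δ' (S.image (algebraMap L K)) m j) := by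
  obtain ⟨y, hy⟩ := Pool.Agent.W636.PG.exists_basis ℂ L d hL
  obtain ⟨E, hE⟩ := Pool.Agent.W636.PG.exists_duals ℂ L d y hy
  have hyL : IsTranscendenceBasis ℂ (algebraMap L K ∘ y) := hy.algebraMap_comp
  obtain ⟨E', hE'⟩ := Pool.Agent.W636.PG.exists_duals ℂ K d _ hyL
  have hdet : (Matrix.of fun a b => E' a (algebraMap L K (y b))).det = 1 := by
    have h1 : (Matrix.of fun a b => E' a (algebraMap L K (y b))) = 1 := by
      ext a b
      rw [Matrix.of_apply, Matrix.one_apply]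
      exact hE' a b
    rw [h1, Matrix.det_one]
  obtain ⟨ω, hli, hω⟩ := hI
  refine ⟨fun l D => (Matrix.of fun a b => D a (algebraMap L K (y b))).det ^ m *
    algebraMap L K (ω l E), ?_, fun l => ?_⟩
  · rw [Fintype.linearIndependent_iff] at hli ⊢
    intro c hc
    apply hli
    have h1 : ∑ l, c l • ω l E = 0 := by
      have h2 := congrFun hc E'
      rw [Finset.sum_apply] at h2
      simp only [Pi.smul_apply, Pi.zero_apply, hdet, one_pow, one_mul] at h2
      have h3 : algebraMap L K (∑ l, c l • ω l E) = 0 := by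
        rw [← h2, map_sum]
        refine Finset.sum_congr rfl fun l _ => ?_
        rw [Algebra.smul_def, Algebra.smul_def, map_mul, ← IsScalarTower.algebraMap_apply ℂ L K]
      exact (map_eq_zero _).1 h3
    funext D
    rw [Finset.sum_apply]
    simp only [Pi.smul_apply, Pi.zero_apply]
    have h4 : ∀ l, c l • ω l D = (Matrix.of fun i j => D i (y j)).det ^ m * (c l • ω l E) := by
      intro l
      rw [Pool.Agent.W636.PG.form_eq ℂ L d m y hy E hE (ω l) (hω l).1 D, mul_smul_comm]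
    rw [Finset.sum_congr rfl fun l _ => h4 l, ← Finset.mul_sum, h1, mul_zero]
  · exact Pool.Agent.Y174.pair_pull (K := L) (L := K) inferInstance hL hpull y E hy hE (hω l)

variable {E F : IntermediateField ℂ K} {M n : ℕ}

/-- **Pairs dominated by the product of a variety and a pair.** -/
theorem pmain [Algebra.EssFiniteType ℂ K] [Algebra.EssFiniteType ℂ E]
    [Algebra.EssFiniteType ℂ F] (hsup : E ⊔ F = ⊤)
    (hE : Algebra.trdeg ℂ E = M) (hn : Algebra.trdeg ℂ F = n)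
    (hK : Algebra.trdeg ℂ K = (M + n : ℕ)) {κ : ℕ}
    {m : Fin κ → ℕ} (x : ∀ i, Fin (m i + 1) → E) (hx0 : ∀ i, x i 0 = 1)
    (hgen : Lv L (fun i b => (x i b : K)) κ = ⊤) {N : ℕ} (hN : 1 ≤ N) (Mi : Fin κ → ℕ)
    (hM : ∀ i : Fin κ, 2 * (finrank L (Lv L (fun i b => (x i b : K)) (i + 1)) -
      finrank L (Lv L (fun i b => (x i b : K)) i)) * N <
        Mi i * finrank L (Lv L (fun i b => (x i b : K)) i))
    {η : (Fin M → Derivation ℂ E E) → E} (hη : IsPluri N η) (hη0 : ∃ D, η D ≠ 0)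
    (hreg : ∀ f, ∀ P : Place ℂ E, Divisorial M P → RegAt P fun G => mlt x Mi f * η G)
    {s0 : ℕ} (q : Fin s0 → (i : Fin κ) × Fin (m i + 1))
    (hq : AlgebraicIndependent ℂ fun a => x (q a).1 (q a).2)
    {δY : Place ℂ F → ℝ} {δW : Place ℂ L → ℚ}
    (hY0 : ∀ P, Divisorial n P → 0 ≤ δY P) (hW0 : ∀ P, Divisorial (M + n) P → 0 ≤ δW P)
    (hU : ∀ (P : Place ℂ L) (Q : Place ℂ K) (e : ℕ), Divisorial (M + n) Q → Over Q P e →
      (∀ f : E, Q.ord (f : K) = 0) →
        ((∀ f : F, Q.ord (f : K) = 0) → 1 - e * (1 - (δW P : ℝ)) ≤ 0) ∧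
        ∀ (P' : Place ℂ F) (e' : ℕ), Over Q P' e' → 1 - e * (1 - (δW P : ℝ)) ≤ e' * δY P')
    (hD : ∀ (P : Place ℂ L) (Q : Place ℂ K) (e : ℕ), Divisorial (M + n) Q → Over Q P e →
      ∀ (P' : Place ℂ F) (e' : ℕ), Over Q P' e' → 1 - e' * (1 - δY P') ≤ e * (δW P : ℝ))
    {SW : Finset L} (hSW : ∀ P, Divisorial (M + n) P → ∃ t ∈ SW, t ≠ 0 ∧
      (δW P : ℝ) ≤ -(P.ord t : ℝ)) :
    (PairNeg L (M + n) (fun P => (δW P : ℝ)) ↔ PairNeg F n δY) ∧
    (PairKap L (M + n) (fun P => (δW P : ℝ)) 0 ↔ PairKap F n δY 0) ∧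
    (∀ h, PairNum ℂ L (M + n) (fun P => (δW P : ℝ)) (s0 + h) → PairNum ℂ F n δY h) ∧
    (∀ h, PairNum ℂ F n δY h → PairNum ℂ L (M + n) (fun P => (δW P : ℝ)) (M + h)) ∧
    (∀ a, PairKap F n δY a → PairKap L (M + n) (fun P => (δW P : ℝ)) (s0 + a)) ∧
    (∀ a, PairKap L (M + n) (fun P => (δW P : ℝ)) (M + a) → PairKap F n δY a) := by
  have hL : Algebra.trdeg ℂ L = (M + n : ℕ) := Pool.Agent.Y184.NT.trdeg_below (K := K) hK
  have hessL : Algebra.EssFiniteType ℂ L := Pool.Agent.TH466.QG.ess_below (K := K)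
  have hr : 1 ≤ finrank L K := finrank_pos
  -- forms below
  obtain ⟨δQ, hQ1, hQ2⟩ := exists_fun (K := K) (F := F) fun P e => max 0 (1 - e * (1 - δY P))
  have hd : PDownP F L n (M + n) s0 N (finrank L K) δY (fun P => (δW P : ℝ)) :=
    pdown hsup hE hn hK x hx0 hgen Mi hM hη hη0 hreg q hq (δQ := δQ)
      (fun Q _ hQ => (hQ2 Q hQ).ge) (fun Q _ P e hP => by
        rw [hQ1 Q P e hP]
        exact le_max_right _ _) fun P Q e hP hQ => by
      have he : (0 : ℝ) ≤ e * (δW P : ℝ) :=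
        mul_nonneg (Nat.cast_nonneg e) (by exact_mod_cast hW0 P hP)
      rcases over_or F Q with ⟨P', e', hP'⟩ | htriv
      · rw [hQ1 Q P' e' hP']
        exact max_le he (hD P Q e (Pool.Agent.Y172.divisorial_up hQ hP) hQ P' e' hP')
      · rw [hQ2 Q htriv]
        exact he
  -- forms above
  obtain ⟨δV, hpull⟩ := Pool.Agent.Y174.exists_pull (K := L) (L := K) fun P => (δW P : ℝ)
  have hV1 : ∀ Q : Place ℂ K, Divisorial (M + n) Q → (∀ f : E, Q.ord (f : K) = 0) →
      (∀ f : F, Q.ord (f : K) = 0) → δV Q ≤ 0 := by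
    intro Q hQ hQE hQF
    obtain ⟨P, e, hP⟩ := exists_below (L := L) Q
    rw [hpull P Q e ⟨hP.1, hP.2⟩]
    exact max_le le_rfl ((hU P Q e hQ hP hQE).1 hQF)
  have hV2 : ∀ Q : Place ℂ K, Divisorial (M + n) Q → (∀ f : E, Q.ord (f : K) = 0) →
      ∀ (P : Place ℂ F) (e : ℕ), Over Q P e → δV Q ≤ e * δY P := by
    intro Q hQ hQE P' e' hP'
    obtain ⟨P, e, hP⟩ := exists_below (L := L) Q
    rw [hpull P Q e ⟨hP.1, hP.2⟩]
    have hPd : Divisorial n P' := Pool.Agent.Y71.NT.t_abh F K n (M + n) hn hK Q P' e' hP' hQ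
    exact max_le (mul_nonneg (Nat.cast_nonneg _) (hY0 P' hPd)) ((hU P Q e hQ hP hQE).2 P' e' hP')
  have hV3 : ∀ Q : Place ℂ K, Divisorial (M + n) Q → ∃ t ∈ insert 1 (SW.image (algebraMap L K)),
      t ≠ 0 ∧ δV Q ≤ -(Q.ord t : ℝ) := by
    intro Q hQ
    obtain ⟨P, e, hP⟩ := exists_below (L := L) Q
    rw [hpull P Q e ⟨hP.1, hP.2⟩]
    have hPd : Divisorial (M + n) P := Pool.Agent.Y71.NT.t_abh L K (M + n) (M + n) hL hK Q P e hP hQ
    obtain ⟨t, ht, ht0, hle⟩ := hSW P hPd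
    have he : (1 : ℝ) ≤ e := by exact_mod_cast hP.1
    rcases le_total (1 - e * (1 - (δW P : ℝ))) 0 with h1 | h1
    · refine ⟨1, Finset.mem_insert_self _ _, one_ne_zero, ?_⟩
      rw [max_eq_left h1, Q.ord_one]
      simp
    · refine ⟨algebraMap L K t, Finset.mem_insert_of_mem (Finset.mem_image_of_mem _ ht),
        by simpa using ht0, ?_⟩
      rw [max_eq_right h1, hP.2]
      have h2 := mul_le_mul_of_nonneg_left hle (Nat.cast_nonneg (α := ℝ) e)
      push_cast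
      linarith
  have hkap : ∀ a, PairKap L (M + n) (fun P => (δW P : ℝ)) a → PairKap K (M + n) δV a := by
    rintro a ⟨m, hm, hk⟩
    refine ⟨m, hm, fun j hj => ?_⟩
    have h7 := pull_up (K := K) hL hpull {1} (hk j hj)
    rwa [Finset.image_singleton, map_one] at h7
  refine ⟨⟨fun h => pneg_of_down hN hr hd h, fun h S => ?_⟩,
    ⟨fun h => pkod_zero hsup hE hn hK hV1 hV2 (hkap 0 h), fun h =>
      pair_kap_mono (L := L) (Nat.zero_le _) (pkod_of_down hN hr hd h)⟩,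
    fun h hh => pnum_of_down hY0 hn hN hr hd hh, fun h hh S => ?_,
    fun a ha => pkod_of_down hN hr hd ha,
    fun a ha => pkod_add hsup hE hn hK hV1 hV2 _ hV3 (hkap _ ha)⟩
  · obtain ⟨m0, hm0⟩ := pneg_add hsup hE hn hK hV1 hV2 h (S.image (algebraMap L K))
    exact ⟨m0, fun m hm hI => hm0 m hm (pull_up hL hpull S hI)⟩
  · obtain ⟨C, hC⟩ := pnum_add hsup hE hn hK hV1 hV2 _ hV3 hh (S.image (algebraMap L K))
    exact ⟨C, fun m N hm hI => hC m N hm (pull_up hL hpull S hI)⟩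

end

end Pool.Agent.Run7.h562.ND
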