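import Pool.Agent.Run7.h562.ND.Main
import Pool.Agent.Y174.B5

/-!
Pairs `(W, Δ)` dominated by a product, `Δ` at most the branch divisor.
-/

set_option autoImplicit false
set_option linter.overlappingInstances false
set_option linter.unusedSectionVars false
set_option linter.unusedVariables false
set_option maxHeartbeats 1000000
set_option synthInstance.maxHeartbeats 400000

open FF IntermediateField Module

namespace Pool.Agent.Run7.h562.ND

open Pool.Agent Pool.Agent.W603.LV Pool.Agent.W619.PQ Pool.Agent.W619.PL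
open Pool.Agent.W602.GT (Divisorial RegAt IsPluri DerReg exists_der)
open Pool.Agent.W619.TW (Dom IsSec HasIndep NumLe NumNeg KodGe)
open Pool.Agent.Run7.h562.MM
open Run7.h72 (mlt Lv)
open Pool.Agent.Y174 (PairSec PairNum LiesOn IsPull)

open scoped Classical

section

/-- `K + Δ` is not pseudo-effective -/
def PairNeg (L : Type) [Field L] [Algebra ℂ L] (n : ℕ) (δ : Place ℂ L → ℝ) : Prop :=
  ∀ S : Finset L, ∃ m0 : ℕ, ∀ m, m0 ≤ m → ¬ HasIndep ℂ L n 1 (PairSec ℂ L n δ S m 1)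

/-- `κ (K + Δ) ≥ a` -/
def PairKap (L : Type) [Field L] [Algebra ℂ L] (n : ℕ) (δ : Place ℂ L → ℝ) (a : ℕ) : Prop :=
  ∃ m : ℕ, 1 ≤ m ∧ ∀ j : ℕ, 1 ≤ j → HasIndep ℂ L n (j ^ a) (PairSec ℂ L n δ {1} (j * m) 0)

theorem pair_of_sec {L : Type} [Field L] [Algebra ℂ L] {n : ℕ} {δ : Place ℂ L → ℝ}
    (hδ : ∀ P, Divisorial n P → 0 ≤ δ P) {S : Finset L} {m j : ℕ}
    {ω : (Fin n → Derivation ℂ L L) → L} (h : IsSec ℂ L n (fun _ => False) S m j ω) :
    PairSec ℂ L n δ S m j ω := by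
  refine ⟨h.1, fun v hv D hD => ?_⟩
  rcases h.2.1 v hv (fun h => h) D hD with h | ⟨s, hs, hs0, hle⟩
  · exact Or.inl h
  · refine Or.inr ⟨s, hs, hs0, ?_⟩
    have h1 : ((j : ℤ) * v.ord s : ℝ) ≤ v.ord (ω D) := by exact_mod_cast hle
    have h2 := mul_nonneg (Nat.cast_nonneg (α := ℝ) m) (hδ v hv)
    push_cast at h1
    linarith

variable {K L : Type} [Field K] [Field L] [Algebra ℂ K] [Algebra ℂ L] [Algebra L K]
  [IsScalarTower ℂ L K] [FiniteDimensional L K]

/-- pull-backs to the covering -/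
theorem pair_up [Algebra.EssFiniteType ℂ L] {d : ℕ} (hL : Algebra.trdeg ℂ L = d)
    {δ : Place ℂ L → ℝ} (hδ : ∀ P, Divisorial d P → ∀ (Q : Place ℂ K) (e : ℕ), LiesOn Q P e →
      e * δ P ≤ e - 1) (S : Finset L)
    {m j N : ℕ} (hI : HasIndep ℂ L d N (PairSec ℂ L d δ S m j)) :
    HasIndep ℂ K d N (IsSec ℂ K d (fun _ => False) (S.image (algebraMap L K)) m j) := by
  obtain ⟨δ1, hδ1⟩ : ∃ δ1 : Place ℂ L → ℝ, δ1 = fun P => if Divisorial d P then δ P else 0 :=
    ⟨_, rfl⟩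
  have hpull : IsPull (K := L) (L := K) δ1 (fun _ => 0) := by
    intro v w e hwv
    have he : (1 : ℝ) ≤ e := by exact_mod_cast hwv.1
    rw [hδ1]
    by_cases hv : Divisorial d v
    · have h1 := hδ v hv w e hwv
      beta_reduce
      rw [if_pos hv, max_eq_left (by linarith)]
    · beta_reduce
      rw [if_neg hv, max_eq_left (by linarith)]
  obtain ⟨y, hy⟩ := Pool.Agent.W636.PG.exists_basis ℂ L d hL
  obtain ⟨E, hE⟩ := Pool.Agent.W636.PG.exists_duals ℂ L d y hy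
  have hyL : IsTranscendenceBasis ℂ (algebraMap L K ∘ y) := hy.algebraMap_comp
  obtain ⟨E', hE'⟩ := Pool.Agent.W636.PG.exists_duals ℂ K d _ hyL
  have hdet : (Matrix.of fun a b => E' a (algebraMap L K (y b))).det = 1 := by
    have h1 : (Matrix.of fun a b => E' a (algebraMap L K (y b))) = 1 := by
      ext a b
      rw [Matrix.of_apply, Matrix.one_apply]
      exact hE' a b
    rw [h1, Matrix.det_one]
  obtain ⟨ω, hli, hω⟩ := hI
  refine ⟨fun l D => (Matrix.of fun a b => D a (algebraMap L K (y b))).det ^ m *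
    algebraMap L K (ω l E), ?_, fun l => ?_⟩
  · rw [Fintype.linearIndependent_iff] at hli ⊢
    intro c hc
    apply hli
    have h1 : ∑ l, c l • ω l E = 0 := by
      have h2 := congrFun hc E'
      rw [Finset.sum_apply] at h2
      simp only [Pi.smul_apply, Pi.zero_apply, hdet, one_pow, one_mul] at h2
      have h3 : algebraMap L K (∑ l, c l • ω l E) = 0 := by
        rw [← h2, map_sum]
        refine Finset.sum_congr rfl fun l _ => ?_
        rw [Algebra.smul_def, Algebra.smul_def, map_mul, ← IsScalarTower.algebraMap_apply ℂ L K]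
      exact (map_eq_zero _).1 h3
    funext D
    rw [Finset.sum_apply]
    simp only [Pi.smul_apply, Pi.zero_apply]
    have h4 : ∀ l, c l • ω l D = (Matrix.of fun i j => D i (y j)).det ^ m * (c l • ω l E) := by
      intro l
      rw [Pool.Agent.W636.PG.form_eq ℂ L d m y hy E hE (ω l) (hω l).1 D, mul_smul_comm]
    rw [Finset.sum_congr rfl fun l _ => h4 l, ← Finset.mul_sum, h1, mul_zero]
  · have h1 : PairSec ℂ L d δ1 S m j (ω l) := by
      refine ⟨(hω l).1, fun v hv D hD => ?_⟩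
      have h2 := (hω l).2 v hv D hD
      rw [hδ1]
      beta_reduce
      have hv' : Divisorial d v := hv
      rw [if_pos hv']
      exact h2
    have h2 := Pool.Agent.Y174.pair_pull (K := L) (L := K) inferInstance hL hpull y E hy hE h1
    refine ⟨h2.1, fun v hv _ D hD => ?_, fun v hv hB => hB.elim⟩
    rcases h2.2 v hv D hD with h3 | ⟨s, hs, hs0, hle⟩
    · exact Or.inl h3
    · refine Or.inr ⟨s, hs, hs0, ?_⟩
      rw [mul_zero, sub_zero] at hle
      exact_mod_cast hle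

variable {E F : IntermediateField ℂ K} {M n : ℕ}

/-- **Pairs on the image of a product.** -/
theorem main_pair [Algebra.EssFiniteType ℂ K] [Algebra.EssFiniteType ℂ E]
    [Algebra.EssFiniteType ℂ F] (hsup : E ⊔ F = ⊤)
    (hE : Algebra.trdeg ℂ E = M) (hn : Algebra.trdeg ℂ F = n)
    (hK : Algebra.trdeg ℂ K = (M + n : ℕ)) {κ : ℕ}
    {m : Fin κ → ℕ} (x : ∀ i, Fin (m i + 1) → E) (hx0 : ∀ i, x i 0 = 1)
    (hgen : Lv L (fun i b => (x i b : K)) κ = ⊤) {N : ℕ} (hN : 1 ≤ N) (Mi : Fin κ → ℕ)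
    (hM : ∀ i : Fin κ, 2 * (finrank L (Lv L (fun i b => (x i b : K)) (i + 1)) -
      finrank L (Lv L (fun i b => (x i b : K)) i)) * N <
        Mi i * finrank L (Lv L (fun i b => (x i b : K)) i))
    {η : (Fin M → Derivation ℂ E E) → E} (hη : IsPluri N η) (hη0 : ∃ D, η D ≠ 0)
    (hreg : ∀ f, ∀ P : Place ℂ E, Divisorial M P → RegAt P fun G => mlt x Mi f * η G)
    {s0 : ℕ} (q : Fin s0 → (i : Fin κ) × Fin (m i + 1))
    (hq : AlgebraicIndependent ℂ fun a => x (q a).1 (q a).2) {δ : Place ℂ L → ℝ}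
    (hδ0 : ∀ P, Divisorial (M + n) P → 0 ≤ δ P)
    (hδ : ∀ P, Divisorial (M + n) P → ∀ (Q : Place ℂ K) (e : ℕ), LiesOn Q P e →
      e * δ P ≤ e - 1) :
    (PairNeg L (M + n) δ ↔ NumNeg ℂ F n (fun _ => False)) ∧
    (PairKap L (M + n) δ 0 ↔ KodGe ℂ F n (fun _ => False) 0) ∧
    (∀ h, PairNum ℂ L (M + n) δ (s0 + h) → NumLe ℂ F n (fun _ => False) h) ∧
    (∀ h, NumLe ℂ F n (fun _ => False) h → PairNum ℂ L (M + n) δ (M + h)) ∧
    (∀ a, KodGe ℂ F n (fun _ => False) a → PairKap L (M + n) δ (s0 + a)) ∧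
    (∀ a, PairKap L (M + n) δ (M + a) → KodGe ℂ F n (fun _ => False) a) := by
  obtain ⟨h1, h2, h3, h4, h5, h6⟩ := main hsup hE hn hK x hx0 hgen hN Mi hM hη hη0 hreg q hq
  have hL : Algebra.trdeg ℂ L = (M + n : ℕ) := Pool.Agent.Y184.NT.trdeg_below (K := K) hK
  have hessL : Algebra.EssFiniteType ℂ L := Pool.Agent.TH466.QG.ess_below (K := K)
  have hup : ∀ (S : Finset L) {m j N : ℕ}, HasIndep ℂ L (M + n) N (PairSec ℂ L (M + n) δ S m j) →
      HasIndep ℂ K (M + n) N (IsSec ℂ K (M + n) (fun _ => False) (S.image (algebraMap L K)) m j) :=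
    fun S _ _ _ hI => pair_up hL hδ S hI
  have hkap : ∀ a, PairKap L (M + n) δ a → KodGe ℂ K (M + n) (fun _ => False) a := by
    rintro a ⟨m, hm, hk⟩
    refine ⟨m, hm, fun j hj => ?_⟩
    have h7 := hup {1} (hk j hj)
    rwa [Finset.image_singleton, map_one] at h7
  have hkap2 : ∀ a, KodGe ℂ L (M + n) (fun _ => False) a → PairKap L (M + n) δ a := by
    rintro a ⟨m, hm, hk⟩
    exact ⟨m, hm, fun j hj => indep_mono (hk j hj) le_rfl fun ω hω => pair_of_sec hδ0 hω⟩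
  refine ⟨⟨fun h => h1.1 fun S => ?_, fun h S => ?_⟩,
    ⟨fun h => kod_zero hsup hE hn hK (hkap 0 h), fun h => hkap2 0 (h2.2 h)⟩,
    fun h hh => h3 h fun S => ?_, fun h hh S => ?_,
    fun a ha => hkap2 _ (h5 a ha), fun a ha => kod_add hsup hE hn hK (hkap _ ha)⟩
  · obtain ⟨m0, hm0⟩ := h S
    exact ⟨m0, fun m hm hI => hm0 m hm (indep_mono hI le_rfl fun ω hω => pair_of_sec hδ0 hω)⟩
  · obtain ⟨m0, hm0⟩ := neg_add hsup hE hn hK h (S.image (algebraMap L K))
    exact ⟨m0, fun m hm hI => hm0 m hm (hup S hI)⟩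
  · obtain ⟨C, hC⟩ := hh S
    exact ⟨C, fun m N hm hI => hC m N hm
      (indep_mono hI le_rfl fun ω hω => pair_of_sec hδ0 hω)⟩
  · obtain ⟨C, hC⟩ := num_add hsup hE hn hK hh (S.image (algebraMap L K))
    exact ⟨C, fun m N hm hI => hC m N hm (hup S hI)⟩

/-- the Kodaira dimension of a pair is at most its numerical dimension -/
theorem pair_kap_le {n : ℕ} {δ : Place ℂ L → ℝ} {a b : ℕ} (hk : PairKap L n δ a)
    (hnum : PairNum ℂ L n δ b) : a ≤ b := by
  by_contra hab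
  push Not at hab
  obtain ⟨m, hm, hk⟩ := hk
  obtain ⟨C, hC⟩ := hnum {1}
  obtain ⟨J, hJ⟩ : ∃ J, J = C * m ^ b + 1 := ⟨_, rfl⟩
  have hJ0 : 0 < J := by omega
  have h1 := hC (J * m) _ (Nat.mul_pos hJ0 hm)
    (indep_mono (hk J hJ0) le_rfl fun ω hω => ⟨hω.1, fun v hv D hD => by
      rcases hω.2 v hv D hD with h | ⟨s, hs, hs0, hle⟩
      · exact Or.inl h
      · refine Or.inr ⟨s, hs, hs0, ?_⟩
        rw [Finset.mem_singleton] at hs
        rw [hs, v.ord_one] at hle ⊢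
        simpa using hle⟩)
  have h2 : J ^ (b + 1) ≤ J ^ a := Nat.pow_le_pow_right hJ0 hab
  rw [mul_pow] at h1
  have h3 : J ^ b * J ≤ J ^ b * (C * m ^ b) := by
    calc J ^ b * J = J ^ (b + 1) := by rw [pow_succ]
      _ ≤ C * (J ^ b * m ^ b) := h2.trans h1
      _ = _ := by ring
  have h4 := Nat.le_of_mul_le_mul_left h3 (pow_pos hJ0 _)
  omega

theorem pair_kap_mono {n : ℕ} {δ : Place ℂ L → ℝ} {a b : ℕ} (hab : a ≤ b)
    (hk : PairKap L n δ b) : PairKap L n δ a := by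
  obtain ⟨m, hm, hk⟩ := hk
  exact ⟨m, hm, fun j hj => indep_mono (hk j hj) (Nat.pow_le_pow_right hj hab) fun _ h => h⟩

end

end Pool.Agent.Run7.h562.ND
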