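import Pool.Agent.Run7.h562.ND.PExt2
import Pool.Agent.Run7.h562.ND.Pair

/-!
The numerical dimension of a pair on a product is at most the dimension of one factor plus the
numerical dimension of the pair on the other one.
-/

set_option autoImplicit false
set_option linter.overlappingInstances false
set_option linter.unusedSectionVars false
set_option linter.unusedVariables false
set_option maxHeartbeats 1000000
set_option synthInstance.maxHeartbeats 400000

open FF IntermediateField Module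

namespace Pool.Agent.Run7.h562.ND

open Pool.Agent Pool.Agent.W603.LV Pool.Agent.W619.PQ Pool.Agent.W619.PL
open Pool.Agent.W602.GT (Divisorial RegAt IsPluri DerReg exists_der)
open Pool.Agent.TH122.AB (Gens)
open Pool.Agent.W619.TW
open Pool.Agent.Run7.h562.MM
open Pool.Agent.Y174 (PairSec PairNum LiesOn IsPull)

open scoped Classical

section

theorem psec_zero {L : Type} [Field L] [Algebra ℂ L] {n m : ℕ} {δ : Place ℂ L → ℝ}
    {S : Finset L} {ω : (Fin n → Derivation ℂ L L) → L} (h : PairSec ℂ L n δ S m 0 ω) (j : ℕ) :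
    PairSec ℂ L n δ {1} m j ω := by
  refine ⟨h.1, fun v hv D hD => ?_⟩
  rcases h.2 v hv D hD with h | ⟨s, -, -, h⟩
  · exact Or.inl h
  · refine Or.inr ⟨1, Finset.mem_singleton_self _, one_ne_zero, ?_⟩
    rw [v.ord_one]
    simpa using h

/-- the bound at a place -/
theorem plin_bound {K' : Type} [Field K'] [Algebra ℂ K'] {n : ℕ} (htr : Algebra.trdeg ℂ K' = n)
    (hfin : ∀ y : Fin n → K', IsTranscendenceBasis ℂ y →
      FiniteDimensional (IntermediateField.adjoin ℂ (Set.range y)) K')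
    {w : Place ℂ K'} (hw : IsDivisorial w n) (E : Fin n → Derivation ℂ K' K')
    (δ : Place ℂ K' → ℝ) (S : Finset K') (c : K') :
    ∃ C : ℕ, ∀ (m : ℕ) (ω : (Fin n → Derivation ℂ K' K') → K'), 1 ≤ m →
      PairSec ℂ K' n δ S m 1 ω → Ge w (-((C * m : ℕ) : ℤ)) (c ^ m * ω E) := by
  obtain ⟨y, F, i0, hy, hFy, hi0, hyreg, hF⟩ := Pool.Agent.W619.Y.pFRAME.{0, 0} ℂ K' n htr hfin w hw
  obtain ⟨M, hM⟩ : ∃ M : Matrix (Fin n) (Fin n) K', M = Matrix.of fun b c => E b (y c) := ⟨_, rfl⟩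
  have hEF : E = fun b => ∑ c, M b c • F c := by
    funext b
    rw [Pool.Agent.Y173.QA.der_expand hy hFy (E b), hM]
    rfl
  obtain ⟨C, hC⟩ : ∃ C : ℕ, (w.ord c).natAbs + (w.ord M.det).natAbs +
    ∑ s ∈ S, (w.ord s).natAbs + ⌈δ w⌉₊ ≤ C := ⟨_, le_rfl⟩
  refine ⟨C, fun m ω hm hω => ?_⟩
  have h1 := hω.1 M F
  rw [← hEF] at h1
  rw [h1]
  by_cases hc0 : c = 0
  · left
    rw [hc0, zero_pow (by omega), zero_mul]
  by_cases hM0 : M.det = 0
  · left
    rw [hM0, zero_pow (by omega), zero_mul, mul_zero]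
  by_cases hF0 : ω F = 0
  · left
    rw [hF0, mul_zero, mul_zero]
  obtain ⟨s, hs, hs0, hle⟩ := (hω.2 w hw F hF).resolve_left hF0
  right
  rw [w.ord_mul (pow_ne_zero _ hc0) (mul_ne_zero (pow_ne_zero _ hM0) hF0),
    w.ord_mul (pow_ne_zero _ hM0) hF0, w.ord_pow, w.ord_pow]
  have h2 : (w.ord s).natAbs ≤ ∑ s ∈ S, (w.ord s).natAbs :=
    Finset.single_le_sum (f := fun s => (w.ord s).natAbs) (fun _ _ => Nat.zero_le _) hs
  have h3 : ((w.ord c).natAbs : ℝ) + (w.ord M.det).natAbs + (w.ord s).natAbs + ⌈δ w⌉₊ ≤ C := by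
    exact_mod_cast (by omega : (w.ord c).natAbs + (w.ord M.det).natAbs + (w.ord s).natAbs +
      ⌈δ w⌉₊ ≤ C)
  have habs : ∀ z : ℤ, -((z.natAbs : ℕ) : ℝ) ≤ z := by
    intro z
    have h4 : -((z.natAbs : ℕ) : ℤ) ≤ z := by omega
    exact_mod_cast h4
  have h4 := habs (w.ord c)
  have h5 := habs (w.ord M.det)
  have h6 := habs (w.ord s)
  have h6' : δ w ≤ (⌈δ w⌉₊ : ℝ) := Nat.le_ceil _
  have hm' : (1 : ℝ) ≤ m := by exact_mod_cast hm
  have hm0 : (0 : ℝ) ≤ m := by linarith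
  have h7 : (((w.ord c).natAbs : ℝ) + (w.ord M.det).natAbs +
      (w.ord s).natAbs + ⌈δ w⌉₊) * m ≤ (C : ℝ) * m := mul_le_mul_of_nonneg_right h3 hm0
  have h8 : (m : ℝ) * (-((w.ord c).natAbs : ℝ)) ≤ m * w.ord c :=
    mul_le_mul_of_nonneg_left h4 hm0
  have h9 : (m : ℝ) * (-((w.ord M.det).natAbs : ℝ)) ≤ m * w.ord M.det :=
    mul_le_mul_of_nonneg_left h5 hm0
  have h10 : ((w.ord s).natAbs : ℝ) * 1 ≤ ((w.ord s).natAbs : ℝ) * m :=
    mul_le_mul_of_nonneg_left hm' (by positivity)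
  have h11 : (m : ℝ) * δ w ≤ m * (⌈δ w⌉₊ : ℝ) := mul_le_mul_of_nonneg_left h6' hm0
  have h12 : -((C : ℝ) * m) ≤ m * w.ord c + (m * w.ord M.det + w.ord (ω F)) := by
    rw [Nat.cast_one, one_mul] at hle
    nlinarith
  exact_mod_cast h12

end

section

variable {K : Type} [Field K] [Algebra ℂ K] {E F : IntermediateField ℂ K} {M n : ℕ}

/-- the dimension of the space of sections -/
theorem pexists_gen {y : Fin n → F} (hy : IsTranscendenceBasis ℂ y)
    {δY : Place ℂ F → ℝ} {S' : Finset F} {m j B : ℕ}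
    (hB : ∀ N, HasIndep ℂ F n N (PairSec ℂ F n δY S' m j) → N ≤ B) :
    ∃ b : Finset F, b.card ≤ B ∧ PHS y δY S' m j ⊆ Submodule.span ℂ (b : Set F) := by
  obtain ⟨κ, a, ha, hspan, hli⟩ := exists_linearIndependent' ℂ (fun z : PHS y δY S' m j => (z : F))
  obtain ⟨G, hG⟩ := Pool.Agent.W636.PG.exists_duals ℂ F n _ hy
  have hdet : (Matrix.of fun i l => G i (y l) : Matrix (Fin n) (Fin n) F) = 1 := by
    ext i l
    rw [Matrix.of_apply, hG, Matrix.one_apply]
  have hfin : ∀ t : Finset κ, t.card ≤ B := by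
    intro t
    refine hB _ ⟨fun l => fun D => (Matrix.of fun i l => D i (y l)).det ^ m *
      (a (t.equivFin.symm l) : F), ?_, fun l => (a (t.equivFin.symm l)).2⟩
    have h1 : LinearIndependent ℂ (fun l => ((a (t.equivFin.symm l)) : F)) :=
      hli.comp (fun l => ((t.equivFin.symm l : t) : κ))
        (Subtype.val_injective.comp t.equivFin.symm.injective)
    let ev : ((Fin n → Derivation ℂ F F) → F) →ₗ[ℂ] F := LinearMap.proj G
    refine LinearIndependent.of_comp ev ?_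
    have h2 : (ev ∘ fun l => fun D : Fin n → Derivation ℂ F F =>
        (Matrix.of fun i l => D i (y l)).det ^ m * (a (t.equivFin.symm l) : F)) =
        fun l => ((a (t.equivFin.symm l)) : F) := by
      funext l
      change (Matrix.of fun i l => G i (y l)).det ^ m * (a (t.equivFin.symm l) : F) = _
      rw [hdet, Matrix.det_one, one_pow, one_mul]
    rw [h2]
    exact h1
  have hκ : Finite κ := by
    by_contra hinf
    rw [not_finite_iff_infinite] at hinf
    obtain ⟨t, ht⟩ := Infinite.exists_subset_card_eq κ (B + 1)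
    have := hfin t
    omega
  have := Fintype.ofFinite κ
  refine ⟨Finset.univ.image fun i => (a i : F), ?_, ?_⟩
  · exact Finset.card_image_le.trans (hfin _)
  · intro z hz
    have h1 : z ∈ Submodule.span ℂ (Set.range fun z : PHS y δY S' m j => (z : F)) :=
      Submodule.subset_span ⟨⟨z, hz⟩, rfl⟩
    rw [← hspan] at h1
    have h2 : ((Finset.univ.image fun i => (a i : F) : Finset F) : Set F) =
        Set.range ((fun z : PHS y δY S' m j => (z : F)) ∘ a) := by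
      ext z
      simp
    rw [h2]
    exact h1

/-- coordinates of sections on the product -/
theorem coord_pext {x : Fin M → E} {y : Fin n → F} {S : Finset K} {S' : Finset F} {b0 : K}
    {δY : Place ℂ F → ℝ} {δV : Place ℂ K → ℝ} {G : Fin (M + n) → Derivation ℂ K K}
    (hext : ∀ (m j : ℕ) (u : K),
      (∀ Q : Place ℂ K, Divisorial (M + n) Q → (∀ f : E, Q.ord (f : K) = 0) →
        ∀ D : Fin (M + n) → Derivation ℂ K K, (∀ i, DerReg Q (D i)) →
          RDom Q S j (m * δV Q) ((Matrix.of fun i l => D i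
            (Fin.append (fun i => (x i : K)) (fun j => (y j : K)) l)).det ^ m * u)) →
      b0 ^ j * u ∈ Submodule.span E ((fun a : F => (a : K)) '' PHS y δY S' m j))
    (hz : IsTranscendenceBasis ℂ (Fin.append (fun i => (x i : K)) (fun j => (y j : K))))
    (hG : ∀ i l, G i (Fin.append (fun i => (x i : K)) (fun j => (y j : K)) l) =
      if i = l then 1 else 0)
    {m j : ℕ} {ω : (Fin (M + n) → Derivation ℂ K K) → K}
    (hω : PairSec ℂ K (M + n) δV S m j ω) :
    b0 ^ j * ω G ∈ Submodule.span E ((fun a : F => (a : K)) '' PHS y δY S' m j) := by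
  refine hext m j (ω G) fun Q hQ _ D hD => ?_
  have h2 := hω.2 Q hQ D hD
  have h3 : ω D = (Matrix.of fun i l => D i
      (Fin.append (fun i => (x i : K)) (fun j => (y j : K)) l)).det ^ m * ω G := by
    have h4 := hω.1 (Matrix.of fun i l => D i
      (Fin.append (fun i => (x i : K)) (fun j => (y j : K)) l)) G
    rw [← h4]
    congr 1
    funext i
    exact Pool.Agent.Y173.QA.der_expand hz hG (D i)
  rw [← h3]
  exact h2

/-- **The number of sections on a product.** -/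
theorem pcount_fin [Algebra.EssFiniteType ℂ K] [Algebra.EssFiniteType ℂ E] (hsup : E ⊔ F = ⊤)
    (hE : Algebra.trdeg ℂ E = M) (hK : Algebra.trdeg ℂ K = (M + n : ℕ)) {x : Fin M → E}
    {y : Fin n → F} (hx : IsTranscendenceBasis ℂ x) (hy : IsTranscendenceBasis ℂ y)
    {G : Fin (M + n) → Derivation ℂ K K}
    (hG : ∀ i l, G i (Fin.append (fun i => (x i : K)) (fun j => (y j : K)) l) =
      if i = l then 1 else 0) {δV : Place ℂ K → ℝ} (SW : Finset K)
    (hSW : ∀ Q : Place ℂ K, Divisorial (M + n) Q → ∃ t ∈ SW, t ≠ 0 ∧ δV Q ≤ -(Q.ord t : ℝ))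
    (S : Finset K) :
    ∃ C : ℕ, ∀ m N B : ℕ, 1 ≤ m → ∀ ω : Fin N → (Fin (M + n) → Derivation ℂ K K) → K,
      LinearIndependent ℂ ω → (∀ l, PairSec ℂ K (M + n) δV S m 1 (ω l)) →
      Module.finrank E (Submodule.span E (Set.range fun l => ω l G)) ≤ B →
      N ≤ C * B * m ^ M := by
  have hZ := basis_app hsup hK hx hy
  have hyE := basis_over hsup hE hK hx hy
  have hess : Algebra.EssFiniteType ℂ K := inferInstance
  have hessE : Algebra.EssFiniteType ℂ E := inferInstance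
  have hfdL := Pool.Agent.W824.PG.fin_adj hessE x hx
  have hfin : ∀ y : Fin (M + n) → K, IsTranscendenceBasis ℂ y →
      FiniteDimensional (IntermediateField.adjoin ℂ (Set.range y)) K :=
    fun y hy => Pool.Agent.W824.PG.fin_adj hess y hy
  have hfd := hfin _ hZ
  -- clearing the denominators
  choose q hq0 hq using fun i => Pool.Agent.Y173.QA.exists_clear hZ hfd (G i)
  obtain ⟨c, hc⟩ : ∃ c : K, c = ∏ i, MvPolynomial.aeval
    (Fin.append (fun i => (x i : K)) (fun j => (y j : K))) (q i) := ⟨_, rfl⟩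
  have hc0 : c ≠ 0 := by
    rw [hc]
    refine Finset.prod_ne_zero_iff.2 fun i _ h0 => hq0 i ?_
    exact (injective_iff_map_eq_zero _).1 hZ.1 _ h0
  have hcE : ∀ p : MvPolynomial (Fin (M + n)) ℂ, Irreducible p → ∀ P : Place ℂ K,
      Pool.Agent.Y173.QA.Adic (Fin.append (fun i => (x i : K)) (fun j => (y j : K))) p P →
        ∀ i, Pres P (c • G i) := by
    intro p hp P hP i f hf
    have h1 := hq i p hp P hP f hf
    rw [hc, ← Finset.mul_prod_erase Finset.univ _ (Finset.mem_univ i), mul_comm, mul_smul,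
      Derivation.smul_apply, smul_eq_mul]
    refine P.reg_mul ?_ h1
    have h2 : (∏ j ∈ Finset.univ.erase i, MvPolynomial.aeval
        (Fin.append (fun i => (x i : K)) (fun j => (y j : K))) (q j)) ∈
          Pool.Agent.Y174.regRing P :=
      prod_mem fun j _ => Pool.Agent.Y173.QA.adic_reg hP (q j)
    exact h2
  -- clearing the poles of the boundary
  choose q2 hq20 hq2 using fun t : K => Pool.Agent.TH122.AB.exists_mult hZ t
  obtain ⟨g, hg⟩ : ∃ g : K, g = ∏ t ∈ SW, MvPolynomial.aeval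
    (Fin.append (fun i => (x i : K)) (fun j => (y j : K))) (q2 t) := ⟨_, rfl⟩
  have hg0 : g ≠ 0 := by
    rw [hg]
    refine Finset.prod_ne_zero_iff.2 fun t _ h0 => hq20 t ?_
    exact (injective_iff_map_eq_zero _).1 hZ.1 _ h0
  have hgreg : ∀ p : MvPolynomial (Fin (M + n)) ℂ, Irreducible p → ∀ P : Place ℂ K,
      Pool.Agent.Y173.QA.Adic (Fin.append (fun i => (x i : K)) (fun j => (y j : K))) p P →
        ∀ t ∈ SW, P.Reg (g * t) := by
    intro p hp P hP t ht
    rw [hg, ← Finset.mul_prod_erase SW _ ht, mul_comm (MvPolynomial.aeval _ (q2 t)), mul_assoc]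
    refine P.reg_mul ?_ (Pool.Agent.TH122.AB.reg_of_int
      (fun f => Pool.Agent.Y173.QA.adic_reg hP f) (hq2 t))
    have h2 : (∏ t ∈ SW.erase t, MvPolynomial.aeval
        (Fin.append (fun i => (x i : K)) (fun j => (y j : K))) (q2 t)) ∈
          Pool.Agent.Y174.regRing P :=
      prod_mem fun j _ => Pool.Agent.Y173.QA.adic_reg hP (q2 j)
    exact h2
  obtain ⟨T, hTfin, hTdeg, C2, c2, hC2⟩ := Pool.Agent.Y174.count_rel hx hyE hfd hfdL S
  -- the bound at infinity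
  have hlb : ∀ P : Place ℂ K, IsDivisorial P (M + n) → ∃ C : ℕ,
      ∀ (m : ℕ) (ω : (Fin (M + n) → Derivation ℂ K K) → K), 1 ≤ m →
      PairSec ℂ K (M + n) δV S m 1 ω →
        Ge P (-((C * m : ℕ) : ℤ)) ((g * c ^ (M + n)) ^ m * ω G) :=
    fun P hP => plin_bound hK hfin hP G δV S (g * c ^ (M + n))
  have hdivT : ∀ b, ∀ P ∈ T b, IsDivisorial P (M + n) := by
    intro b P hP
    obtain ⟨e, he, hdeg⟩ := hTdeg b P hP
    refine Pool.Agent.Y173.QA.div_of_deg hZ.1 (b := b) fun f hf hf0 => ?_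
    have h1 : P.ord (MvPolynomial.aeval (Fin.append (fun i => (x i : K)) (fun j => (y j : K))) f) =
        _ := hdeg f hf
    rw [h1, hf0]
    simp
  obtain ⟨C3, hC3⟩ : ∃ C3 : ℕ, ∀ b, ∀ P ∈ T b, ∀ (m : ℕ)
      (ω : (Fin (M + n) → Derivation ℂ K K) → K), 1 ≤ m →
      PairSec ℂ K (M + n) δV S m 1 ω →
        Ge P (-((C3 * m : ℕ) : ℤ)) ((g * c ^ (M + n)) ^ m * ω G) := by
    choose Cf hCf using hlb
    have hfin2 : (⋃ b, T b).Finite := Set.finite_iUnion hTfin
    have := hfin2.fintype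
    let g : (⋃ b, T b) → ℕ := fun P => Cf P.1 (by
      obtain ⟨b, hb⟩ := Set.mem_iUnion.1 P.2
      exact hdivT b P.1 hb)
    refine ⟨∑ P, g P, fun b P hP m ω hm hω => ?_⟩
    have hPm : P ∈ ⋃ b, T b := Set.mem_iUnion.2 ⟨b, hP⟩
    have h1 := hCf P (hdivT b P hP) m ω hm hω
    refine h1.mono ?_
    have h2 : g ⟨P, hPm⟩ ≤ ∑ P, g P :=
      Finset.single_le_sum (fun _ _ => Nat.zero_le _) (Finset.mem_univ _)
    have h3 : Cf P (hdivT b P hP) * m ≤ (∑ P, g P) * m := Nat.mul_le_mul_right _ h2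
    have h4 : ((Cf P (hdivT b P hP) * m : ℕ) : ℤ) ≤ (((∑ P, g P) * m : ℕ) : ℤ) := by
      exact_mod_cast h3
    exact neg_le_neg h4
  have hexp : ∀ D : Derivation ℂ K K, ∃ a : Fin (M + n) → K, D = ∑ i, a i • G i :=
    fun D => ⟨_, Pool.Agent.Y173.QA.der_expand hZ hG D⟩
  refine ⟨C2 * (C3 + c2) ^ M, fun m N B hm ω hli hω hB => ?_⟩
  have hcm : (g * c ^ (M + n)) ^ m ≠ 0 := pow_ne_zero _ (mul_ne_zero hg0 (pow_ne_zero _ hc0))
  have hlin := Pool.Agent.Y173.QA.lin_frame (fun D => hexp D) hli (fun l => (hω l).1) hcm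
  have hrk : Module.finrank E (Submodule.span E (Set.range fun l =>
      (g * c ^ (M + n)) ^ m * ω l G)) ≤ B := by
    have h2 : Submodule.span E (Set.range fun l => (g * c ^ (M + n)) ^ m * ω l G) =
        (Submodule.span E (Set.range fun l => ω l G)).map
          (LinearMap.mulLeft E ((g * c ^ (M + n)) ^ m)) := by
      rw [Submodule.map_span, ← Set.range_comp]
      rfl
    rw [h2]
    have h3 : FiniteDimensional E (Submodule.span E (Set.range fun l => ω l G)) :=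
      FiniteDimensional.span_of_finite E (Set.finite_range _)
    exact (Submodule.finrank_map_le _ _).trans hB
  have h1 := hC2 (fun _ => C3 * m) N B _ hlin hrk (fun l p hp P hP => ?_)
    fun l b P hP => hC3 b P hP m (ω l) hm (hω l)
  · refine h1.trans ?_
    rw [Finset.prod_const, Finset.card_univ, Fintype.card_fin]
    have h2 : C3 * m + c2 ≤ (C3 + c2) * m := by
      rw [Nat.add_mul]
      have := Nat.le_mul_of_pos_right c2 hm
      omega
    have h3 : (C3 * m + c2) ^ M ≤ (C3 + c2) ^ M * m ^ M := by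
      rw [← Nat.mul_pow]
      exact Nat.pow_le_pow_left h2 M
    calc C2 * B * (C3 * m + c2) ^ M ≤
        C2 * B * ((C3 + c2) ^ M * m ^ M) := Nat.mul_le_mul_left _ h3
      _ = C2 * (C3 + c2) ^ M * B * m ^ M := by ring
  · have hPd := Pool.Agent.Y173.QA.adic_div hZ.1 hp hP
    have h3 : (g * c ^ (M + n)) ^ m * ω l G = g ^ m * ω l (fun i => c • G i) := by
      rw [Pool.Agent.Y173.QA.phi_smul (hω l).1 c G]
      ring
    rw [h3]
    rcases (hω l).2 P hPd (fun i => c • G i) (fun i f hf => hcE p hp P hP i f hf) with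
      h4 | ⟨s, hs, hs0, hle⟩
    · left
      rw [h4, mul_zero]
    · by_cases h5 : ω l (fun i => c • G i) = 0
      · left
        rw [h5, mul_zero]
      refine Or.inr ⟨s, hs, hs0, ?_⟩
      obtain ⟨t, ht, ht0, hδt⟩ := hSW P hPd
      have h6 := (hgreg p hp P hP t ht).resolve_left (mul_ne_zero hg0 ht0)
      rw [P.ord_mul hg0 ht0] at h6
      rw [P.ord_mul (pow_ne_zero _ hg0) h5, P.ord_pow]
      have h7 : (0 : ℝ) ≤ (P.ord g : ℝ) + P.ord t := by exact_mod_cast h6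
      have h8 : δV P ≤ P.ord g := by linarith
      have h9 := mul_le_mul_of_nonneg_left h8 (Nat.cast_nonneg (α := ℝ) m)
      have h10 : (((1 : ℕ) : ℝ)) * P.ord s ≤ (m : ℝ) * P.ord g + P.ord (ω l fun i => c • G i) := by
        linarith
      exact_mod_cast h10


/-- **The numerical dimension of a product.** -/
theorem pnum_add [Algebra.EssFiniteType ℂ K] [Algebra.EssFiniteType ℂ E] (hsup : E ⊔ F = ⊤)
    (hE : Algebra.trdeg ℂ E = M) (hn : Algebra.trdeg ℂ F = n)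
    (hK : Algebra.trdeg ℂ K = (M + n : ℕ)) {δY : Place ℂ F → ℝ} {δV : Place ℂ K → ℝ}
    (hδ1 : ∀ Q : Place ℂ K, Divisorial (M + n) Q → (∀ f : E, Q.ord (f : K) = 0) →
      (∀ f : F, Q.ord (f : K) = 0) → δV Q ≤ 0)
    (hδ2 : ∀ Q : Place ℂ K, Divisorial (M + n) Q → (∀ f : E, Q.ord (f : K) = 0) →
      ∀ (P : Place ℂ F) (e : ℕ), Over Q P e → δV Q ≤ e * δY P) (SW : Finset K)
    (hSW : ∀ Q : Place ℂ K, Divisorial (M + n) Q → ∃ t ∈ SW, t ≠ 0 ∧ δV Q ≤ -(Q.ord t : ℝ))
    {h : ℕ} (hnum : PairNum ℂ F n δY h) : PairNum ℂ K (M + n) δV (M + h) := by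
  obtain ⟨x, hx⟩ := Pool.Agent.W636.PG.exists_basis ℂ E M hE
  obtain ⟨y, hy⟩ := Pool.Agent.W636.PG.exists_basis ℂ F n hn
  have hZ := basis_app hsup hK hx hy
  obtain ⟨G, hG⟩ := Pool.Agent.W636.PG.exists_duals ℂ K (M + n) _ hZ
  intro S
  obtain ⟨b0, hb0, S', hext⟩ := pext hsup hx hy hn hK hZ hδ1 hδ2 S
  obtain ⟨C1, hC1⟩ := hnum S'
  obtain ⟨C, hC⟩ := pcount_fin hsup hE hK hx hy hG SW hSW S
  refine ⟨C * C1, fun m N hm ⟨ω, hli, hω⟩ => ?_⟩
  obtain ⟨b, hb, hbs⟩ := pexists_gen hy (δY := δY) (S' := S') (m := m) (j := 1)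
    (B := C1 * m ^ h) fun N hN => hC1 m N hm hN
  have h1 := (span_card (pow_ne_zero 1 hb0)
    fun l => span_le hbs (coord_pext hext hZ hG (hω l))).trans hb
  refine (hC m N _ hm ω hli hω h1).trans (le_of_eq ?_)
  rw [pow_add]
  ring

/-- if `K + Δ` is not pseudo-effective on one factor then that of the product is
not pseudo-effective -/
theorem pneg_add [Algebra.EssFiniteType ℂ K] [Algebra.EssFiniteType ℂ E] (hsup : E ⊔ F = ⊤)
    (hE : Algebra.trdeg ℂ E = M) (hn : Algebra.trdeg ℂ F = n)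
    (hK : Algebra.trdeg ℂ K = (M + n : ℕ)) {δY : Place ℂ F → ℝ} {δV : Place ℂ K → ℝ}
    (hδ1 : ∀ Q : Place ℂ K, Divisorial (M + n) Q → (∀ f : E, Q.ord (f : K) = 0) →
      (∀ f : F, Q.ord (f : K) = 0) → δV Q ≤ 0)
    (hδ2 : ∀ Q : Place ℂ K, Divisorial (M + n) Q → (∀ f : E, Q.ord (f : K) = 0) →
      ∀ (P : Place ℂ F) (e : ℕ), Over Q P e → δV Q ≤ e * δY P)
    (hnum : PairNeg F n δY) : PairNeg K (M + n) δV := by
  obtain ⟨x, hx⟩ := Pool.Agent.W636.PG.exists_basis ℂ E M hE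
  obtain ⟨y, hy⟩ := Pool.Agent.W636.PG.exists_basis ℂ F n hn
  have hZ := basis_app hsup hK hx hy
  obtain ⟨G, hG⟩ := Pool.Agent.W636.PG.exists_duals ℂ K (M + n) _ hZ
  intro S
  obtain ⟨b0, hb0, S', hext⟩ := pext hsup hx hy hn hK hZ hδ1 hδ2 S
  obtain ⟨m0, hm0⟩ := hnum S'
  refine ⟨m0, fun m hm ⟨ω, hli, hω⟩ => ?_⟩
  obtain ⟨b, hb, hbs⟩ := pexists_gen hy (δY := δY) (S' := S') (m := m) (j := 1) (B := 0)
    fun N hN => by
    by_contra h0
    obtain ⟨w, hw, hw2⟩ := hN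
    refine hm0 m hm ⟨fun l => w ⟨l, by omega⟩, ?_, fun l => hw2 _⟩
    exact hw.comp (fun l : Fin 1 => (⟨l, by omega⟩ : Fin N)) fun a b _ => Subsingleton.elim _ _
  have h1 := span_le (E := E) hbs (coord_pext hext hZ hG (hω 0))
  have h2 : b = ∅ := Finset.card_eq_zero.1 (Nat.le_zero.1 hb)
  rw [h2, Finset.coe_empty, Set.image_empty, Submodule.span_empty, Submodule.mem_bot] at h1
  have h3 := (mul_eq_zero.1 h1).resolve_left (pow_ne_zero _ hb0)
  have h4 := Pool.Agent.Y173.QA.lin_frame (fun D =>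
    ⟨_, Pool.Agent.Y173.QA.der_expand hZ hG D⟩) hli (fun l => (hω l).1) (one_ne_zero (α := K))
  exact h4.ne_zero 0 (by rw [h3, mul_zero])

/-- the space of pluricanonical forms -/
theorem pexists_gen0 {y : Fin n → F} (hy : IsTranscendenceBasis ℂ y) {δY : Place ℂ F → ℝ}
    {S' : Finset F} {m B : ℕ}
    (hB : ∀ N, HasIndep ℂ F n N (PairSec ℂ F n δY {1} m 0) → N ≤ B) :
    ∃ b : Finset F, b.card ≤ B ∧ PHS y δY S' m 0 ⊆ Submodule.span ℂ (b : Set F) := by
  obtain ⟨b, hb, hbs⟩ := pexists_gen hy (δY := δY) (S' := {1}) (m := m) (j := 0) (B := B) hB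
  exact ⟨b, hb, fun a ha => hbs (psec_zero ha 0)⟩

/-- **The Kodaira dimension of a product.** -/
theorem pkod_add [Algebra.EssFiniteType ℂ K] [Algebra.EssFiniteType ℂ E] (hsup : E ⊔ F = ⊤)
    (hE : Algebra.trdeg ℂ E = M) (hn : Algebra.trdeg ℂ F = n)
    (hK : Algebra.trdeg ℂ K = (M + n : ℕ)) {δY : Place ℂ F → ℝ} {δV : Place ℂ K → ℝ}
    (hδ1 : ∀ Q : Place ℂ K, Divisorial (M + n) Q → (∀ f : E, Q.ord (f : K) = 0) →
      (∀ f : F, Q.ord (f : K) = 0) → δV Q ≤ 0)
    (hδ2 : ∀ Q : Place ℂ K, Divisorial (M + n) Q → (∀ f : E, Q.ord (f : K) = 0) →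
      ∀ (P : Place ℂ F) (e : ℕ), Over Q P e → δV Q ≤ e * δY P) (SW : Finset K)
    (hSW : ∀ Q : Place ℂ K, Divisorial (M + n) Q → ∃ t ∈ SW, t ≠ 0 ∧ δV Q ≤ -(Q.ord t : ℝ))
    {a : ℕ} (hk : PairKap K (M + n) δV (M + a)) : PairKap F n δY a := by
  obtain ⟨x, hx⟩ := Pool.Agent.W636.PG.exists_basis ℂ E M hE
  obtain ⟨y, hy⟩ := Pool.Agent.W636.PG.exists_basis ℂ F n hn
  have hZ := basis_app hsup hK hx hy
  obtain ⟨G, hG⟩ := Pool.Agent.W636.PG.exists_duals ℂ K (M + n) _ hZ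
  obtain ⟨m, hm, hk⟩ := hk
  obtain ⟨b0, hb0, S', hext⟩ := pext hsup hx hy hn hK hZ hδ1 hδ2 {1}
  obtain ⟨C, hC⟩ := pcount_fin hsup hE hK hx hy hG SW hSW {1}
  obtain ⟨q, hq⟩ : ∃ q, q = C * m ^ M + 1 := ⟨_, rfl⟩
  refine ⟨q * m, Nat.mul_pos (by omega) hm, fun j hj => ?_⟩
  by_contra hcon
  obtain ⟨ω, hli, hω⟩ := hk (j * q) (Nat.mul_pos hj (by omega))
  obtain ⟨b, hb, hbs⟩ := pexists_gen0 hy (δY := δY) (S' := S') (m := j * q * m)
    (B := j ^ a - 1) fun N hN => by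
      by_contra h0
      refine hcon ?_
      rw [← mul_assoc]
      exact indep_mono hN (by omega) fun _ h => h
  have h1 := (span_card (b0 := (1 : K)) one_ne_zero fun l => by
    have h2 := coord_pext hext hZ hG (hω l)
    rw [pow_zero] at h2
    exact span_le (E := E) hbs h2).trans hb
  have h2 := hC (j * q * m) _ _ (Nat.mul_pos (Nat.mul_pos hj (by omega)) hm) ω hli
    (fun l => psec_zero (hω l) 1) h1
  have hja : 1 ≤ j ^ a := Nat.one_le_pow _ _ hj
  have hjq : 0 < (j * q) ^ M := pow_pos (Nat.mul_pos hj (by omega)) _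
  have h3 : (j * q) ^ a ≤ C * m ^ M * (j ^ a - 1) := by
    have h4 : (j * q) ^ a * (j * q) ^ M ≤ C * m ^ M * (j ^ a - 1) * (j * q) ^ M := by
      calc (j * q) ^ a * (j * q) ^ M = (j * q) ^ (M + a) := by rw [pow_add]; ring
        _ ≤ C * (j ^ a - 1) * (j * q * m) ^ M := h2
        _ = _ := by rw [mul_pow (j * q) m]; ring
    exact Nat.le_of_mul_le_mul_right h4 hjq
  rcases Nat.eq_zero_or_pos a with h0 | h0
  · subst h0
    simp at h3
  · have h4 : q ≤ q ^ a := Nat.le_self_pow (by omega) q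
    rw [mul_pow] at h3
    have h5 : j ^ a * q ≤ C * m ^ M * (j ^ a - 1) := (Nat.mul_le_mul_left _ h4).trans h3
    have h6 : C * m ^ M * (j ^ a - 1) ≤ C * m ^ M * j ^ a := Nat.mul_le_mul_left _ (Nat.sub_le _ _)
    have h7 := h5.trans h6
    rw [mul_comm (C * m ^ M)] at h7
    have h8 := Nat.le_of_mul_le_mul_left h7 hja
    omega

/-- if one factor has Kodaira dimension `-∞` then so does the product -/
theorem pkod_zero [Algebra.EssFiniteType ℂ K] [Algebra.EssFiniteType ℂ E] (hsup : E ⊔ F = ⊤)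
    (hE : Algebra.trdeg ℂ E = M) (hn : Algebra.trdeg ℂ F = n)
    (hK : Algebra.trdeg ℂ K = (M + n : ℕ)) {δY : Place ℂ F → ℝ} {δV : Place ℂ K → ℝ}
    (hδ1 : ∀ Q : Place ℂ K, Divisorial (M + n) Q → (∀ f : E, Q.ord (f : K) = 0) →
      (∀ f : F, Q.ord (f : K) = 0) → δV Q ≤ 0)
    (hδ2 : ∀ Q : Place ℂ K, Divisorial (M + n) Q → (∀ f : E, Q.ord (f : K) = 0) →
      ∀ (P : Place ℂ F) (e : ℕ), Over Q P e → δV Q ≤ e * δY P)
    (hk : PairKap K (M + n) δV 0) : PairKap F n δY 0 := by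
  obtain ⟨x, hx⟩ := Pool.Agent.W636.PG.exists_basis ℂ E M hE
  obtain ⟨y, hy⟩ := Pool.Agent.W636.PG.exists_basis ℂ F n hn
  have hZ := basis_app hsup hK hx hy
  obtain ⟨G, hG⟩ := Pool.Agent.W636.PG.exists_duals ℂ K (M + n) _ hZ
  obtain ⟨m, hm, hk⟩ := hk
  obtain ⟨b0, hb0, S', hext⟩ := pext hsup hx hy hn hK hZ hδ1 hδ2 {1}
  refine ⟨m, hm, fun j hj => ?_⟩
  by_contra hcon
  obtain ⟨ω, hli, hω⟩ := hk j hj
  obtain ⟨b, hb, hbs⟩ := pexists_gen0 hy (δY := δY) (S' := S') (m := j * m) (B := 0)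
    fun N hN => by
    by_contra h0
    refine hcon (indep_mono hN ?_ fun _ h => h)
    rw [pow_zero]
    omega
  have h1 := span_le (E := E) hbs (coord_pext hext hZ hG (hω ⟨0, by simp⟩))
  have h2 : b = ∅ := Finset.card_eq_zero.1 (Nat.le_zero.1 hb)
  rw [h2, Finset.coe_empty, Set.image_empty, Submodule.span_empty, Submodule.mem_bot, pow_zero,
    one_mul] at h1
  have h4 := Pool.Agent.Y173.QA.lin_frame (fun D =>
    ⟨_, Pool.Agent.Y173.QA.der_expand hZ hG D⟩) hli (fun l => (hω l).1) (one_ne_zero (α := K))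
  exact h4.ne_zero ⟨0, by simp⟩ (by rw [h1, mul_zero])

end

end Pool.Agent.Run7.h562.ND
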