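import Pool.Agent.Run7.h562.ND.PProd

/-!
Forms on a product with boundary: exterior products of forms on the factors and monomials.
-/

set_option autoImplicit false
set_option linter.overlappingInstances false
set_option linter.unusedSectionVars false
set_option linter.unusedVariables false
set_option maxHeartbeats 1000000
set_option synthInstance.maxHeartbeats 400000

open FF IntermediateField Module

namespace Pool.Agent.Run7.h562.ND

open Pool.Agent Pool.Agent.W603.LV Pool.Agent.W619.PQ Pool.Agent.W619.PL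
open Pool.Agent.W602.GT (Divisorial RegAt IsPluri DerReg exists_der)
open Pool.Agent.W619.TW (Dom IsSec HasIndep)
open Pool.Agent.Run7.h562.MM
open Run7.h72 (mlt)
open Pool.Agent.Y174 (PairSec PairNum LiesOn IsPull)

open scoped Classical

section

/-- **Local frames.** -/
theorem plocal_frame {K R : Type} [Field K] [Field R] [Algebra ℂ K] [Algebra ℂ R] [Algebra K R]
    [IsScalarTower ℂ K R] [Algebra.EssFiniteType ℂ K] {n N : ℕ} (hn : Algebra.trdeg ℂ K = n)
    (hN : Algebra.trdeg ℂ R = N) (Q : Place ℂ R) (hQ : Divisorial N Q) :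
    ∃ (yP : Fin n → K) (EP : Fin n → Derivation ℂ K K), IsTranscendenceBasis ℂ yP ∧
      (∀ i j, EP i (yP j) = if i = j then 1 else 0) ∧
      (∀ i, Q.Reg (algebraMap K R (yP i))) ∧
      ∀ (P : Place ℂ K) (e : ℕ), Over Q P e → Divisorial n P ∧ (∀ i, DerReg P (EP i)) ∧
        ∃ i0, Q.ord (algebraMap K R (yP i0)) = e := by
  by_cases htriv : ∃ f : K, Q.ord (algebraMap K R f) ≠ 0
  · obtain ⟨e, P, hP⟩ := exists_over Q htriv
    have hPd : Divisorial n P := Pool.Agent.Y71.NT.t_abh K R n N hn hN Q P e hP hQ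
    obtain ⟨yP, EP, i0, hbas, hdual, hi0, hyreg, hpres⟩ :=
      Pool.Agent.W240.PG.Frame.main.{0, 0} Pool.Agent.W762.PG.main ℂ K n hn
        (fun y hy => Pool.Agent.Y297.NT.fd_basis hy) P hPd
    refine ⟨yP, EP, hbas, hdual, fun i => hP.reg.2 (hyreg i), fun P' e' hP' => ?_⟩
    obtain ⟨rfl, h2⟩ := Pool.Agent.Y172.over_unique' hP hP'
    refine ⟨hPd, hpres, i0, ?_⟩
    rw [hP'.2, hi0, mul_one]
  · push Not at htriv
    obtain ⟨y, hy⟩ := Pool.Agent.W636.PG.exists_basis ℂ K n hn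
    obtain ⟨E, hE⟩ := Pool.Agent.W636.PG.exists_duals ℂ K n y hy
    refine ⟨y, E, hy, hE, fun i => Or.inr (htriv _).ge, fun P e hP => ?_⟩
    exfalso
    obtain ⟨t, -, ht⟩ := P.surj
    have h1 := hP.2 t
    rw [htriv, ht, mul_one] at h1
    have := hP.1
    omega

end

section

variable {K : Type} [Field K] [Algebra ℂ K] {E F : IntermediateField ℂ K} {M n : ℕ}

/-- the determinant of a local frame -/
theorem det_ge {Q : Place ℂ K} {yP : Fin M → E} {yQ : Fin n → F}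
    {D : Fin (M + n) → Derivation ℂ K K} (hD : ∀ i, DerReg Q (D i))
    (hPr : ∀ i, Q.Reg (yP i : K)) (hQr : ∀ i, Q.Reg (yQ i : K)) {i0 : Fin n} {e : ℕ} (he0 : 0 < e)
    (he : Q.ord (yQ i0 : K) = e) :
    Ge Q ((e : ℤ) - 1) (Matrix.of fun i l => D i
      (Fin.append (fun i => (yP i : K)) (fun j => (yQ j : K)) l)).det := by
  refine Pool.Agent.W603.LV.ge_det Q _ _ (fun _ l => if l = Fin.natAdd M i0 then (e : ℤ) - 1
    else 0) (fun i l => ?_) fun σ => ?_
  · rw [Matrix.of_apply]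
    split_ifs with h
    · rw [h, Fin.append_right]
      have h1 := Pool.Agent.Y172.ge_der_reg (hD i) (yQ i0 : K)
      rw [he] at h1
      exact h1
    · refine hD i _ ?_
      refine Fin.addCases (fun l => ?_) (fun l => ?_) l
      · rw [Fin.append_left]
        exact hPr l
      · rw [Fin.append_right]
        exact hQr l
  · simp

/-- the sections on the second factor -/
theorem ptau_dom {S' : Finset F} {w j : ℕ} {δY : Place ℂ F → ℝ}
    {τ : (Fin n → Derivation ℂ F F) → F}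
    (hτ : PairSec ℂ F n δY S' w j τ) (Q : Place ℂ K) {δQ : ℝ}
    (hδ1 : (∀ f : F, Q.ord (f : K) = 0) → 0 ≤ δQ)
    (hδ2 : ∀ (P : Place ℂ F) (e : ℕ), Over Q P e → 1 - e * (1 - δY P) ≤ δQ)
    {yP : Fin M → E} {yQ : Fin n → F}
    {D : Fin (M + n) → Derivation ℂ K K} (hD : ∀ i, DerReg Q (D i))
    (hPr : ∀ i, Q.Reg (yP i : K)) (hQr : ∀ i, Q.Reg (yQ i : K))
    {EQ : Fin n → Derivation ℂ F F}
    (hP : ∀ (P : Place ℂ F) (e : ℕ), Over Q P e → Divisorial n P ∧ (∀ i, DerReg P (EQ i)) ∧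
      ∃ i0, Q.ord (yQ i0 : K) = e) :
    (τ EQ : K) = 0 ∨ ∃ s ∈ insert 1 S', (s : K) ≠ 0 ∧ ∃ b : ℤ, Ge Q b (Matrix.of fun i l => D i
      (Fin.append (fun i => (yP i : K)) (fun j => (yQ j : K)) l)).det ∧
      (j : ℝ) * Q.ord (s : K) - w * δQ ≤ w * b + Q.ord (τ EQ : K) := by
  rcases over_or F Q with ⟨P, e, hPQ⟩ | htriv
  · obtain ⟨h1, h2, i0, hi0⟩ := hP P e hPQ
    rcases hτ.2 P h1 EQ h2 with h | ⟨s, hs, hs0, hle⟩
    · left
      rw [h]
      rfl
    · refine Or.inr ⟨s, Finset.mem_insert_of_mem hs, fun h0 => hs0 (Subtype.ext h0), (e : ℤ) - 1,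
        det_ge hD hPr hQr hPQ.1 hi0, ?_⟩
      have h2 : Q.ord (s : K) = e * P.ord s := hPQ.2 s
      have h3 : Q.ord (τ EQ : K) = e * P.ord (τ EQ) := hPQ.2 _
      rw [h2, h3]
      have h4 := mul_le_mul_of_nonneg_left hle (Nat.cast_nonneg (α := ℝ) e)
      have h5 := mul_le_mul_of_nonneg_left (hδ2 P e hPQ) (Nat.cast_nonneg (α := ℝ) w)
      push_cast
      nlinarith
  · refine Or.inr ⟨1, Finset.mem_insert_self _ _, one_ne_zero, 0, ?_, ?_⟩
    · refine Pool.Agent.W619.PQ.ge_det Q _ fun i l => hD i _ ?_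
      refine Fin.addCases (fun l => ?_) (fun l => ?_) l
      · rw [Fin.append_left]
        exact hPr l
      · rw [Fin.append_right]
        exact hQr l
    · rw [htriv 1, htriv]
      have h5 := mul_nonneg (Nat.cast_nonneg (α := ℝ) w) (hδ1 htriv)
      push_cast
      linarith

/-- **Forms on a product.** -/
theorem pext_forms [Algebra.EssFiniteType ℂ K] [Algebra.EssFiniteType ℂ E]
    [Algebra.EssFiniteType ℂ F] (hsup : E ⊔ F = ⊤) (hE : Algebra.trdeg ℂ E = M)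
    (hn : Algebra.trdeg ℂ F = n) (hK : Algebra.trdeg ℂ K = (M + n : ℕ)) {κ : ℕ}
    {m : Fin κ → ℕ} (x : ∀ i, Fin (m i + 1) → E) (hx0 : ∀ i, x i 0 = 1) {N : ℕ}
    (Mi : Fin κ → ℕ) {η : (Fin M → Derivation ℂ E E) → E} (hη : IsPluri N η)
    (hη0 : ∃ D, η D ≠ 0)
    (hreg : ∀ f, ∀ P : Place ℂ E, Divisorial M P → RegAt P fun G => mlt x Mi f * η G)
    {s0 : ℕ} (q : Fin s0 → (i : Fin κ) × Fin (m i + 1))
    (hq : AlgebraicIndependent ℂ fun a => x (q a).1 (q a).2) (S' : Finset F)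
    {δY : Place ℂ F → ℝ} {δQ : Place ℂ K → ℝ}
    (hδ1 : ∀ Q : Place ℂ K, Divisorial (M + n) Q → (∀ f : F, Q.ord (f : K) = 0) → 0 ≤ δQ Q)
    (hδ2 : ∀ Q : Place ℂ K, Divisorial (M + n) Q → ∀ (P : Place ℂ F) (e : ℕ), Over Q P e →
      1 - e * (1 - δY P) ≤ δQ Q) :
    ∃ S : Finset K, ∀ (w s r0 t j : ℕ) (M' : Fin κ → ℕ), w = r0 + N * s → r0 ≤ N * j →
      (∀ i, M' i + s0 * t = Mi i * s) → ∀ h,
      HasIndep ℂ F n h (PairSec ℂ F n δY S' w j) →
      ∃ W : Fin (h * (t + 1) ^ s0) → (Fin (M + n) → Derivation ℂ K K) → K,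
        LinearIndependent ℂ W ∧ (∀ l, IsPluri w (W l)) ∧ ∀ l f (Q : Place ℂ K),
          Divisorial (M + n) Q → ∀ D : Fin (M + n) → Derivation ℂ K K, (∀ i, DerReg Q (D i)) →
            RDom Q S j (w * δQ Q) (mlt (fun i b => (x i b : K)) M' f * W l D) := by
  obtain ⟨xb, hxb⟩ := Pool.Agent.W636.PG.exists_basis ℂ E M hE
  obtain ⟨yb, hyb⟩ := Pool.Agent.W636.PG.exists_basis ℂ F n hn
  have hz := basis_app hsup hK hxb hyb
  obtain ⟨G, hG⟩ := Pool.Agent.W636.PG.exists_duals ℂ K (M + n) _ hz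
  obtain ⟨Ex, hEx⟩ := Pool.Agent.W636.PG.exists_duals ℂ E M _ hxb
  obtain ⟨Fy, hFy⟩ := Pool.Agent.W636.PG.exists_duals ℂ F n _ hyb
  obtain ⟨Sx, h1Sx, hSx⟩ := form_dom (k := ℂ) xb
  refine ⟨(Sx ×ˢ insert 1 S').image fun p => (p.1 : K) ^ N * (p.2 : K), ?_⟩
  intro w s r0 t j M' hw hr0 hM' h hI
  obtain ⟨τ, hτi, hτ⟩ := hI
  have hcard : Fintype.card (Fin h × (Fin s0 → Fin (t + 1))) = h * (t + 1) ^ s0 := by simp
  obtain ⟨e, -⟩ : ∃ e : Fin (h * (t + 1) ^ s0) ≃ Fin h × (Fin s0 → Fin (t + 1)), True :=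
    ⟨(Fintype.equivFinOfCardEq hcard).symm, trivial⟩
  let φ : (Fin s0 → Fin (t + 1)) → (Fin M → Derivation ℂ E E) → E := fun c A =>
    (Matrix.of fun i l => A i (xb l)).det ^ r0 * (∏ a, x (q a).1 (q a).2 ^ (c a : ℕ)) * η A ^ s
  have hφ : ∀ c, IsPluri w (φ c) := by
    intro c
    have h1 := Pool.Agent.Y172.pluri_mul
      (Run7.h72.det_pluri xb r0 (∏ a, x (q a).1 (q a).2 ^ (c a : ℕ)))
      (Pool.Agent.Y172.pluri_pow hη s)
    rw [← hw] at h1
    exact h1
  have hηx : η Ex ≠ 0 := by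
    intro h0
    obtain ⟨D, hD⟩ := hη0
    apply hD
    rw [Pool.Agent.Y172.pluri_coord hxb hEx hη, h0, mul_zero]
  have hηx' : (η Ex : K) ^ s ≠ 0 := pow_ne_zero _ fun h0 => hηx (Subtype.ext h0)
  have hdetx : (Matrix.of fun i l => Ex i (xb l) : Matrix (Fin M) (Fin M) E) = 1 := by
    ext i l
    rw [Matrix.of_apply, hEx, Matrix.one_apply]
  have hdetz : (Matrix.of fun i l => G i
      (Fin.append (fun i => (xb i : K)) (fun j => (yb j : K)) l)) = 1 := by
    ext i l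
    rw [Matrix.of_apply, hG, Matrix.one_apply]
  refine ⟨fun l D => (Matrix.of fun i l => D i
      (Fin.append (fun i => (xb i : K)) (fun j => (yb j : K)) l)).det ^ w *
      ((φ (e l).2 Ex : K) * (τ (e l).1 Fy : K)), ?_, fun l => ?_, ?_⟩
  · refine LinearIndependent.of_comp (LinearMap.proj G) ?_
    have h1 : LinearIndependent ℂ fun l => τ l Fy := by
      have h2 := Pool.Agent.Y173.QA.lin_frame (fun D =>
        ⟨_, Pool.Agent.Y173.QA.der_expand hyb hFy D⟩) hτi (fun l => (hτ l).1)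
        (one_ne_zero (α := F))
      simpa using h2
    have h2 := (indep_mon (t := t) hsup hE hn hK hq h1).comp e e.injective
    have h3 := h2.map' (LinearMap.mulRight ℂ ((η Ex : K) ^ s)) (by
      rw [LinearMap.ker_eq_bot]
      exact fun a b hab => mul_right_cancel₀ hηx' hab)
    have h4 : ((LinearMap.mulRight ℂ ((η Ex : K) ^ s)) ∘ (fun p : Fin h ×
        (Fin s0 → Fin (t + 1)) => (τ p.1 Fy : K) *
          ((∏ a, x (q a).1 (q a).2 ^ (p.2 a : ℕ) : E) : K)) ∘ e) =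
        ((LinearMap.proj G : ((Fin (M + n) → Derivation ℂ K K) → K) →ₗ[ℂ] K) ∘
          fun l D => (Matrix.of fun i l => D i
            (Fin.append (fun i => (xb i : K)) (fun j => (yb j : K)) l)).det ^ w *
              ((φ (e l).2 Ex : K) * (τ (e l).1 Fy : K))) := by
      funext l
      change (τ (e l).1 Fy : K) * ((∏ a, x (q a).1 (q a).2 ^ ((e l).2 a : ℕ) : E) : K) *
        (η Ex : K) ^ s = (Matrix.of fun i l => G i
            (Fin.append (fun i => (xb i : K)) (fun j => (yb j : K)) l)).det ^ w *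
              (((((Matrix.of fun i l => Ex i (xb l)).det ^ r0 *
                (∏ a, x (q a).1 (q a).2 ^ ((e l).2 a : ℕ)) * η Ex ^ s : E)) : K) *
                (τ (e l).1 Fy : K))
      rw [hdetz, hdetx, Matrix.det_one, Matrix.det_one, one_pow, one_pow, one_mul, one_mul]
      push_cast
      ring
    rw [← h4]
    exact h3
  · exact Run7.h72.det_pluri _ _ _
  · intro l f Q hQ D hD
    obtain ⟨yP, EP, hyP, hEP, hPr, hPP⟩ := plocal_frame (K := E) hE hK Q hQ
    obtain ⟨yQ, EQ, hyQ, hEQ, hQr, hQQ⟩ := plocal_frame (K := F) hn hK Q hQ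
    have h1 := two_val (K := K) hxb hyb hyP hyQ hEx hFy hEP hEQ (hφ (e l).2) (hτ (e l).1).1 D
    beta_reduce
    rw [h1]
    obtain ⟨δ, hδ⟩ : ∃ δ, δ = (Matrix.of fun i l => D i
      (Fin.append (fun i => (yP i : K)) (fun j => (yQ j : K)) l)).det := ⟨_, rfl⟩
    rw [← hδ]
    obtain ⟨s1, hs1, hs10, hs1n, hs1d⟩ := form_dom_Q h1Sx hSx Q
      (fun P e hP => (hPP P e hP).2.1)
    have hηP : (η EP : K) ≠ 0 := by
      intro h0
      have h2 : η EP = 0 := Subtype.ext h0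
      apply hηx
      rw [Pool.Agent.Y172.pluri_coord hyP hEP hη, h2, mul_zero]
    have h3 := ge_mono Q (fun i b => (x i b : K)) (fun i => by rw [hx0]; rfl) Mi M' hηP
      (eta_Q hreg Q fun P e hP => ⟨(hPP P e hP).1, (hPP P e hP).2.1⟩) hM' q (fun a => ((e l).2 a : ℕ)) (fun a => Nat.lt_succ_iff.1 ((e l).2 a).2) f
    have h4 : (φ (e l).2 EP : K) = (((Matrix.of fun i l => EP i (xb l)).det : E) : K) ^ r0 *
        (∏ a, (x (q a).1 (q a).2 : K) ^ ((e l).2 a : ℕ)) * (η EP : K) ^ s := by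
      change (((Matrix.of fun i l => EP i (xb l)).det ^ r0 *
                (∏ a, x (q a).1 (q a).2 ^ ((e l).2 a : ℕ)) * η EP ^ s : E) : K) = _
      push_cast
      rfl
    rcases ptau_dom (hτ (e l).1) Q (hδ1 Q hQ) (hδ2 Q hQ) hD hPr hQr hQQ with
      h5 | ⟨s2, hs2, hs20, b, hδr, hs2d⟩
    · left
      rw [h5, mul_zero, mul_zero, mul_zero]
    · rw [← hδ] at hδr
      have h6 : Ge Q (Q.ord (τ (e l).1 EQ : K)) (τ (e l).1 EQ : K) := Or.inr le_rfl
      have h7 := ((hδr.pow w).mul (h3.mul ((hs1d.pow r0).mul h6)))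
      have h8 : δ ^ w * (mlt (fun i b => (x i b : K)) M' f *
          ((∏ a, (x (q a).1 (q a).2 : K) ^ ((e l).2 a : ℕ)) * (η EP : K) ^ s) *
          ((((Matrix.of fun i l => EP i (xb l)).det : E) : K) ^ r0 * (τ (e l).1 EQ : K))) =
          mlt (fun i b => (x i b : K)) M' f * (δ ^ w * ((φ (e l).2 EP : K) *
            (τ (e l).1 EQ : K))) := by
        rw [h4]
        ring
      rw [h8] at h7
      rcases h7 with h7 | h7
      · exact Or.inl h7
      · refine Or.inr ⟨(s1 : K) ^ N * (s2 : K), Finset.mem_image.2 ⟨(s1, s2),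
          Finset.mem_product.2 ⟨hs1, hs2⟩, rfl⟩, mul_ne_zero (pow_ne_zero _ hs10) hs20, ?_⟩
        rw [Q.ord_mul (pow_ne_zero _ hs10) hs20, Q.ord_pow]
        have h9 : (r0 : ℤ) ≤ N * j := by exact_mod_cast hr0
        have h10 : ((N : ℤ) * j) * Q.ord (s1 : K) ≤ r0 * Q.ord (s1 : K) :=
          mul_le_mul_of_nonpos_right h9 hs1n
        have h11 : (((N : ℤ) * j) * Q.ord (s1 : K) + (w * b + Q.ord (τ (e l).1 EQ : K)) : ℤ) ≤
            Q.ord (mlt (fun i b => (x i b : K)) M' f * (δ ^ w * ((φ (e l).2 EP : K) *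
              (τ (e l).1 EQ : K)))) := by
          linarith
        have h12 : (((((N : ℤ) * j) * Q.ord (s1 : K) + (w * b + Q.ord (τ (e l).1 EQ : K)) : ℤ)) :
            ℝ) ≤ (Q.ord (mlt (fun i b => (x i b : K)) M' f * (δ ^ w * ((φ (e l).2 EP : K) *
              (τ (e l).1 EQ : K)))) : ℝ) := by exact_mod_cast h11
        push_cast at h12 ⊢
        linarith

end

end Pool.Agent.Run7.h562.ND
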