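import Pool.Agent.Run7.h562.ND.Ext3
import Pool.Agent.Y174.W4
import Pool.Agent.N145.SX.Prods

/-!
The numerical dimension of a product is at most the dimension of one factor plus the numerical
dimension of the other one.
-/

set_option autoImplicit false
set_option linter.overlappingInstances false
set_option linter.unusedSectionVars false
set_option linter.unusedVariables false
set_option maxHeartbeats 1000000
set_option synthInstance.maxHeartbeats 400000

open FF IntermediateField Module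

namespace Pool.Agent.Run7.h562.ND

open Pool.Agent Pool.Agent.W603.LV Pool.Agent.W619.PQ Pool.Agent.W619.PL
open Pool.Agent.W602.GT (Divisorial RegAt IsPluri DerReg exists_der)
open Pool.Agent.TH122.AB (Gens)
open Pool.Agent.W619.TW
open Pool.Agent.Run7.h562.MM

open scoped Classical

section

variable {K : Type} [Field K] [Algebra ℂ K] {E F : IntermediateField ℂ K} {M n : ℕ}

/-- the coordinates on a product -/
theorem basis_app (hsup : E ⊔ F = ⊤) (hK : Algebra.trdeg ℂ K = (M + n : ℕ)) {x : Fin M → E}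
    {y : Fin n → F} (hx : IsTranscendenceBasis ℂ x) (hy : IsTranscendenceBasis ℂ y) :
    IsTranscendenceBasis ℂ (Fin.append (fun i => (x i : K)) (fun j => (y j : K))) := by
  obtain ⟨w, hw⟩ : ∃ w : Fin (M + n) → K, w = Fin.append (fun i => (x i : K))
    (fun j => (y j : K)) := ⟨_, rfl⟩
  rw [← hw]
  obtain ⟨S, hS⟩ : ∃ S, S = IntermediateField.adjoin ℂ (Set.range w) := ⟨_, rfl⟩
  have hwS : ∀ l, w l ∈ S := fun l => by
    rw [hS]
    exact IntermediateField.subset_adjoin _ _ ⟨l, rfl⟩
  have h1 : E ⊔ F ≤ (algebraicClosure S K).restrictScalars ℂ := by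
    refine sup_le (fun z hz => ?_) fun z hz => ?_
    · change z ∈ algebraicClosure S K
      rw [mem_algebraicClosure_iff]
      refine Pool.Agent.N145.SX.alg_of_basis hx (fun j => ?_) hz
      have h2 := hwS (Fin.castAdd n j)
      rw [hw, Fin.append_left] at h2
      exact h2
    · change z ∈ algebraicClosure S K
      rw [mem_algebraicClosure_iff]
      refine Pool.Agent.N145.SX.alg_of_basis hy (fun j => ?_) hz
      have h2 := hwS (Fin.natAdd M j)
      rw [hw, Fin.append_right] at h2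
      exact h2
  have h5 : Algebra.IsAlgebraic (Algebra.adjoin ℂ (Set.range w)) K := by
    refine Pool.Agent.W619.PQ.alg_adjoin fun z => ?_
    have h6 := h1 (by rw [hsup]; exact IntermediateField.mem_top (x := z))
    rw [mem_restrictScalars, mem_algebraicClosure_iff, hS] at h6
    exact h6
  refine Algebra.IsAlgebraic.isTranscendenceBasis_of_lift_le_trdeg_of_finite ℂ _ ?_
  rw [hK]
  simp

/-- the coordinates of the second factor, over the first one -/
theorem basis_over (hsup : E ⊔ F = ⊤) (hE : Algebra.trdeg ℂ E = M)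
    (hK : Algebra.trdeg ℂ K = (M + n : ℕ)) {x : Fin M → E}
    {y : Fin n → F} (hx : IsTranscendenceBasis ℂ x) (hy : IsTranscendenceBasis ℂ y) :
    IsTranscendenceBasis E (fun j => (y j : K)) :=
  indep_over (M := n) (n := M) hE (by rw [hK, add_comm])
    (basis_app (by rw [sup_comm, hsup]) (by rw [hK, add_comm]) hy hx)

/-- the dimension of the space of sections -/
theorem exists_gen {y : Fin n → F} (hy : IsTranscendenceBasis ℂ y) {S' : Finset F} {m B : ℕ}
    (hB : ∀ N, HasIndep ℂ F n N (IsSec ℂ F n (fun _ => False) S' m 1) → N ≤ B) :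
    ∃ b : Finset F, b.card ≤ B ∧ HS y S' m 1 ⊆ Submodule.span ℂ (b : Set F) := by
  obtain ⟨κ, a, ha, hspan, hli⟩ := exists_linearIndependent' ℂ (fun z : HS y S' m 1 => (z : F))
  obtain ⟨G, hG⟩ := Pool.Agent.W636.PG.exists_duals ℂ F n _ hy
  have hdet : (Matrix.of fun i l => G i (y l) : Matrix (Fin n) (Fin n) F) = 1 := by
    ext i l
    rw [Matrix.of_apply, hG, Matrix.one_apply]
  have hfin : ∀ t : Finset κ, t.card ≤ B := by
    intro t
    refine hB _ ⟨fun l => fun D => (Matrix.of fun i l => D i (y l)).det ^ m *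
      (a (t.equivFin.symm l) : F), ?_, fun l => (a (t.equivFin.symm l)).2⟩
    have h1 : LinearIndependent ℂ (fun l => ((a (t.equivFin.symm l)) : F)) :=
      hli.comp (fun l => ((t.equivFin.symm l : t) : κ))
        (Subtype.val_injective.comp t.equivFin.symm.injective)
    let ev : ((Fin n → Derivation ℂ F F) → F) →ₗ[ℂ] F := LinearMap.proj G
    refine LinearIndependent.of_comp ev ?_
    have h2 : (ev ∘ fun l => fun D : Fin n → Derivation ℂ F F =>
        (Matrix.of fun i l => D i (y l)).det ^ m * (a (t.equivFin.symm l) : F)) =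
        fun l => ((a (t.equivFin.symm l)) : F) := by
      funext l
      change (Matrix.of fun i l => G i (y l)).det ^ m * (a (t.equivFin.symm l) : F) = _
      rw [hdet, Matrix.det_one, one_pow, one_mul]
    rw [h2]
    exact h1
  have hκ : Finite κ := by
    by_contra hinf
    rw [not_finite_iff_infinite] at hinf
    obtain ⟨t, ht⟩ := Infinite.exists_subset_card_eq κ (B + 1)
    have := hfin t
    omega
  have := Fintype.ofFinite κ
  refine ⟨Finset.univ.image fun i => (a i : F), ?_, ?_⟩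
  · exact Finset.card_image_le.trans (hfin _)
  · intro z hz
    have h1 : z ∈ Submodule.span ℂ (Set.range fun z : HS y S' m 1 => (z : F)) :=
      Submodule.subset_span ⟨⟨z, hz⟩, rfl⟩
    rw [← hspan] at h1
    have h2 : ((Finset.univ.image fun i => (a i : F) : Finset F) : Set F) =
        Set.range ((fun z : HS y S' m 1 => (z : F)) ∘ a) := by
      ext z
      simp
    rw [h2]
    exact h1

/-- over the function field of the other factor -/
theorem span_le {b : Finset F} {H : Set F} (h : H ⊆ Submodule.span ℂ (b : Set F)) :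
    Submodule.span E ((fun a : F => (a : K)) '' H) ≤
      Submodule.span E ((fun a : F => (a : K)) '' (b : Set F)) := by
  rw [Submodule.span_le]
  rintro _ ⟨a, ha, rfl⟩
  have h1 := h ha
  have h2 : ∀ z ∈ Submodule.span ℂ (b : Set F),
      (z : K) ∈ Submodule.span E ((fun a : F => (a : K)) '' (b : Set F)) := by
    intro z hz
    induction hz using Submodule.span_induction with
    | mem z hz => exact Submodule.subset_span ⟨z, hz, rfl⟩
    | zero => exact Submodule.zero_mem _
    | add z w _ _ hz hw => exact Submodule.add_mem _ hz hw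
    | smul c z _ hz =>
      have h3 : ((c • z : F) : K) = (algebraMap ℂ E c) • (z : K) := by
        rw [Algebra.smul_def]
        change ((algebraMap ℂ F c * z : F) : K) = _
        rfl
      rw [h3]
      exact Submodule.smul_mem _ _ hz
  exact h2 a h1

/-- coordinates of sections on the product -/
theorem coord_ext {x : Fin M → E} {y : Fin n → F} {S : Finset K} {S' : Finset F} {b0 : K}
    {G : Fin (M + n) → Derivation ℂ K K}
    (hext : ∀ (m j : ℕ) (u : K),
      (∀ Q : Place ℂ K, Divisorial (M + n) Q → (∀ f : E, Q.ord (f : K) = 0) →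
        ∀ D : Fin (M + n) → Derivation ℂ K K, (∀ i, DerReg Q (D i)) →
          Dom Q S j ((Matrix.of fun i l => D i
            (Fin.append (fun i => (x i : K)) (fun j => (y j : K)) l)).det ^ m * u)) →
      b0 ^ j * u ∈ Submodule.span E ((fun a : F => (a : K)) '' HS y S' m j))
    (hz : IsTranscendenceBasis ℂ (Fin.append (fun i => (x i : K)) (fun j => (y j : K))))
    (hG : ∀ i l, G i (Fin.append (fun i => (x i : K)) (fun j => (y j : K)) l) =
      if i = l then 1 else 0)
    {m : ℕ} {ω : (Fin (M + n) → Derivation ℂ K K) → K}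
    (hω : IsSec ℂ K (M + n) (fun _ => False) S m 1 ω) :
    b0 * ω G ∈ Submodule.span E ((fun a : F => (a : K)) '' HS y S' m 1) := by
  have h1 := hext m 1 (ω G) fun Q hQ _ D hD => by
    have h2 := hω.2.1 Q hQ (fun h => h) D hD
    have h3 : ω D = (Matrix.of fun i l => D i
        (Fin.append (fun i => (x i : K)) (fun j => (y j : K)) l)).det ^ m * ω G := by
      have h4 := hω.1 (Matrix.of fun i l => D i
        (Fin.append (fun i => (x i : K)) (fun j => (y j : K)) l)) G
      rw [← h4]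
      congr 1
      funext i
      exact Pool.Agent.Y173.QA.der_expand hz hG (D i)
    rw [← h3]
    exact h2
  rwa [pow_one] at h1

/-- **The number of sections on a product.** -/
theorem count_fin [Algebra.EssFiniteType ℂ K] [Algebra.EssFiniteType ℂ E] (hsup : E ⊔ F = ⊤)
    (hE : Algebra.trdeg ℂ E = M) (hK : Algebra.trdeg ℂ K = (M + n : ℕ)) {x : Fin M → E}
    {y : Fin n → F} (hx : IsTranscendenceBasis ℂ x) (hy : IsTranscendenceBasis ℂ y)
    {G : Fin (M + n) → Derivation ℂ K K}
    (hG : ∀ i l, G i (Fin.append (fun i => (x i : K)) (fun j => (y j : K)) l) =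
      if i = l then 1 else 0) (S : Finset K) :
    ∃ C : ℕ, ∀ m N B : ℕ, 1 ≤ m → ∀ ω : Fin N → (Fin (M + n) → Derivation ℂ K K) → K,
      LinearIndependent ℂ ω → (∀ l, IsSec ℂ K (M + n) (fun _ => False) S m 1 (ω l)) →
      Module.finrank E (Submodule.span E (Set.range fun l => ω l G)) ≤ B →
      N ≤ C * B * m ^ M := by
  have hZ := basis_app hsup hK hx hy
  have hyE := basis_over hsup hE hK hx hy
  have hess : Algebra.EssFiniteType ℂ K := inferInstance
  have hessE : Algebra.EssFiniteType ℂ E := inferInstance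
  have hfdL := Pool.Agent.W824.PG.fin_adj hessE x hx
  have hfin : ∀ y : Fin (M + n) → K, IsTranscendenceBasis ℂ y →
      FiniteDimensional (IntermediateField.adjoin ℂ (Set.range y)) K :=
    fun y hy => Pool.Agent.W824.PG.fin_adj hess y hy
  have hfd := hfin _ hZ
  -- clearing the denominators
  choose q hq0 hq using fun i => Pool.Agent.Y173.QA.exists_clear hZ hfd (G i)
  obtain ⟨c, hc⟩ : ∃ c : K, c = ∏ i, MvPolynomial.aeval
    (Fin.append (fun i => (x i : K)) (fun j => (y j : K))) (q i) := ⟨_, rfl⟩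
  have hc0 : c ≠ 0 := by
    rw [hc]
    refine Finset.prod_ne_zero_iff.2 fun i _ h0 => hq0 i ?_
    exact (injective_iff_map_eq_zero _).1 hZ.1 _ h0
  have hcE : ∀ p : MvPolynomial (Fin (M + n)) ℂ, Irreducible p → ∀ P : Place ℂ K,
      Pool.Agent.Y173.QA.Adic (Fin.append (fun i => (x i : K)) (fun j => (y j : K))) p P →
        ∀ i, Pres P (c • G i) := by
    intro p hp P hP i f hf
    have h1 := hq i p hp P hP f hf
    rw [hc, ← Finset.mul_prod_erase Finset.univ _ (Finset.mem_univ i), mul_comm, mul_smul,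
      Derivation.smul_apply, smul_eq_mul]
    refine P.reg_mul ?_ h1
    have h2 : (∏ j ∈ Finset.univ.erase i, MvPolynomial.aeval
        (Fin.append (fun i => (x i : K)) (fun j => (y j : K))) (q j)) ∈
          Pool.Agent.Y174.regRing P :=
      prod_mem fun j _ => Pool.Agent.Y173.QA.adic_reg hP (q j)
    exact h2
  obtain ⟨T, hTfin, hTdeg, C2, c2, hC2⟩ := Pool.Agent.Y174.count_rel hx hyE hfd hfdL S
  -- the bound at infinity
  have hlb : ∀ P : Place ℂ K, IsDivisorial P (M + n) → ∃ C : ℕ,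
      ∀ (m : ℕ) (ω : (Fin (M + n) → Derivation ℂ K K) → K), 1 ≤ m →
      IsSec ℂ K (M + n) (fun _ => False) S m 1 ω →
        Ge P (-((C * m : ℕ) : ℤ)) ((c ^ (M + n)) ^ m * ω G) :=
    fun P hP => Pool.Agent.Y173.QA.lin_bound hK hfin hP G S (c ^ (M + n))
  have hdivT : ∀ b, ∀ P ∈ T b, IsDivisorial P (M + n) := by
    intro b P hP
    obtain ⟨e, he, hdeg⟩ := hTdeg b P hP
    refine Pool.Agent.Y173.QA.div_of_deg hZ.1 (b := b) fun f hf hf0 => ?_
    have h1 : P.ord (MvPolynomial.aeval (Fin.append (fun i => (x i : K)) (fun j => (y j : K))) f) =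
        _ := hdeg f hf
    rw [h1, hf0]
    simp
  obtain ⟨C3, hC3⟩ : ∃ C3 : ℕ, ∀ b, ∀ P ∈ T b, ∀ (m : ℕ)
      (ω : (Fin (M + n) → Derivation ℂ K K) → K), 1 ≤ m →
      IsSec ℂ K (M + n) (fun _ => False) S m 1 ω →
        Ge P (-((C3 * m : ℕ) : ℤ)) ((c ^ (M + n)) ^ m * ω G) := by
    choose Cf hCf using hlb
    have hfin2 : (⋃ b, T b).Finite := Set.finite_iUnion hTfin
    have := hfin2.fintype
    let g : (⋃ b, T b) → ℕ := fun P => Cf P.1 (by
      obtain ⟨b, hb⟩ := Set.mem_iUnion.1 P.2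
      exact hdivT b P.1 hb)
    refine ⟨∑ P, g P, fun b P hP m ω hm hω => ?_⟩
    have hPm : P ∈ ⋃ b, T b := Set.mem_iUnion.2 ⟨b, hP⟩
    have h1 := hCf P (hdivT b P hP) m ω hm hω
    refine h1.mono ?_
    have h2 : g ⟨P, hPm⟩ ≤ ∑ P, g P :=
      Finset.single_le_sum (fun _ _ => Nat.zero_le _) (Finset.mem_univ _)
    have h3 : Cf P (hdivT b P hP) * m ≤ (∑ P, g P) * m := Nat.mul_le_mul_right _ h2
    have h4 : ((Cf P (hdivT b P hP) * m : ℕ) : ℤ) ≤ (((∑ P, g P) * m : ℕ) : ℤ) := by
      exact_mod_cast h3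
    exact neg_le_neg h4
  have hexp : ∀ D : Derivation ℂ K K, ∃ a : Fin (M + n) → K, D = ∑ i, a i • G i :=
    fun D => ⟨_, Pool.Agent.Y173.QA.der_expand hZ hG D⟩
  refine ⟨C2 * (C3 + c2) ^ M, fun m N B hm ω hli hω hB => ?_⟩
  have hcm : (c ^ (M + n)) ^ m ≠ 0 := pow_ne_zero _ (pow_ne_zero _ hc0)
  have hlin := Pool.Agent.Y173.QA.lin_frame (fun D => hexp D) hli (fun l => (hω l).1) hcm
  have hrk : Module.finrank E (Submodule.span E (Set.range fun l =>
      (c ^ (M + n)) ^ m * ω l G)) ≤ B := by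
    have h2 : Submodule.span E (Set.range fun l => (c ^ (M + n)) ^ m * ω l G) =
        (Submodule.span E (Set.range fun l => ω l G)).map
          (LinearMap.mulLeft E ((c ^ (M + n)) ^ m)) := by
      rw [Submodule.map_span, ← Set.range_comp]
      rfl
    rw [h2]
    have h3 : FiniteDimensional E (Submodule.span E (Set.range fun l => ω l G)) :=
      FiniteDimensional.span_of_finite E (Set.finite_range _)
    exact (Submodule.finrank_map_le _ _).trans hB
  have h1 := hC2 (fun _ => C3 * m) N B _ hlin hrk (fun l p hp P hP => ?_)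
    fun l b P hP => hC3 b P hP m (ω l) hm (hω l)
  · refine h1.trans ?_
    rw [Finset.prod_const, Finset.card_univ, Fintype.card_fin]
    have h2 : C3 * m + c2 ≤ (C3 + c2) * m := by
      rw [Nat.add_mul]
      have := Nat.le_mul_of_pos_right c2 hm
      omega
    have h3 : (C3 * m + c2) ^ M ≤ (C3 + c2) ^ M * m ^ M := by
      rw [← Nat.mul_pow]
      exact Nat.pow_le_pow_left h2 M
    calc C2 * B * (C3 * m + c2) ^ M ≤
        C2 * B * ((C3 + c2) ^ M * m ^ M) := Nat.mul_le_mul_left _ h3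
      _ = C2 * (C3 + c2) ^ M * B * m ^ M := by ring
  · rw [← Pool.Agent.Y173.QA.phi_smul (hω l).1 c G]
    exact (hω l).2.1 P (Pool.Agent.Y173.QA.adic_div hZ.1 hp hP) (fun h => h) _
      fun i f hf => hcE p hp P hP i f hf

/-- the dimension of the span -/
theorem span_card {b : Finset F} {b0 : K} (hb0 : b0 ≠ 0) {N : ℕ} {u : Fin N → K}
    (h : ∀ l, b0 * u l ∈ Submodule.span E ((fun a : F => (a : K)) '' (b : Set F))) :
    Module.finrank E (Submodule.span E (Set.range u)) ≤ b.card := by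
  have h2 : Submodule.span E (Set.range u) ≤
      (Submodule.span E ((fun a : F => (a : K)) '' (b : Set F))).map
        (LinearMap.mulLeft E b0⁻¹) := by
    rw [Submodule.span_le]
    rintro _ ⟨l, rfl⟩
    refine ⟨_, h l, ?_⟩
    change b0⁻¹ * (b0 * u l) = u l
    rw [← mul_assoc, inv_mul_cancel₀ hb0, one_mul]
  have h3 : ((fun a : F => (a : K)) '' (b : Set F)) = ((b.image fun a : F => (a : K) :
      Finset K) : Set K) := by
    rw [Finset.coe_image]
  rw [h3] at h2
  have h4 : FiniteDimensional E (Submodule.span E ((b.image fun a : F => (a : K) :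
      Finset K) : Set K)) := FiniteDimensional.span_finset E _
  refine (Submodule.finrank_mono h2).trans ((Submodule.finrank_map_le _ _).trans ?_)
  refine (finrank_span_finset_le_card _).trans ?_
  exact Finset.card_image_le

/-- **The numerical dimension of a product.** -/
theorem num_add [Algebra.EssFiniteType ℂ K] [Algebra.EssFiniteType ℂ E] (hsup : E ⊔ F = ⊤)
    (hE : Algebra.trdeg ℂ E = M) (hn : Algebra.trdeg ℂ F = n)
    (hK : Algebra.trdeg ℂ K = (M + n : ℕ)) {h : ℕ} (hnum : NumLe ℂ F n (fun _ => False) h) :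
    NumLe ℂ K (M + n) (fun _ => False) (M + h) := by
  obtain ⟨x, hx⟩ := Pool.Agent.W636.PG.exists_basis ℂ E M hE
  obtain ⟨y, hy⟩ := Pool.Agent.W636.PG.exists_basis ℂ F n hn
  have hZ := basis_app hsup hK hx hy
  obtain ⟨G, hG⟩ := Pool.Agent.W636.PG.exists_duals ℂ K (M + n) _ hZ
  intro S
  obtain ⟨b0, hb0, S', hext⟩ := ext hsup hx hy hn hK hZ S
  obtain ⟨C1, hC1⟩ := hnum S'
  obtain ⟨C, hC⟩ := count_fin hsup hE hK hx hy hG S
  refine ⟨C * C1, fun m N hm ⟨ω, hli, hω⟩ => ?_⟩
  obtain ⟨b, hb, hbs⟩ := exists_gen hy (S' := S') (m := m) (B := C1 * m ^ h)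
    fun N hN => hC1 m N hm hN
  have h1 := (span_card hb0 fun l => span_le hbs (coord_ext hext hZ hG (hω l))).trans hb
  refine (hC m N _ hm ω hli hω h1).trans (le_of_eq ?_)
  rw [pow_add]
  ring

/-- if the canonical divisor of one factor is not pseudo-effective then that of the product is
not pseudo-effective -/
theorem neg_add [Algebra.EssFiniteType ℂ K] [Algebra.EssFiniteType ℂ E] (hsup : E ⊔ F = ⊤)
    (hE : Algebra.trdeg ℂ E = M) (hn : Algebra.trdeg ℂ F = n)
    (hK : Algebra.trdeg ℂ K = (M + n : ℕ)) (hnum : NumNeg ℂ F n (fun _ => False)) :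
    NumNeg ℂ K (M + n) (fun _ => False) := by
  obtain ⟨x, hx⟩ := Pool.Agent.W636.PG.exists_basis ℂ E M hE
  obtain ⟨y, hy⟩ := Pool.Agent.W636.PG.exists_basis ℂ F n hn
  have hZ := basis_app hsup hK hx hy
  obtain ⟨G, hG⟩ := Pool.Agent.W636.PG.exists_duals ℂ K (M + n) _ hZ
  intro S
  obtain ⟨b0, hb0, S', hext⟩ := ext hsup hx hy hn hK hZ S
  obtain ⟨m0, hm0⟩ := hnum S'
  refine ⟨m0, fun m hm ⟨ω, hli, hω⟩ => ?_⟩
  obtain ⟨b, hb, hbs⟩ := exists_gen hy (S' := S') (m := m) (B := 0) fun N hN => by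
    by_contra h0
    obtain ⟨w, hw, hw2⟩ := hN
    refine hm0 m hm ⟨fun l => w ⟨l, by omega⟩, ?_, fun l => hw2 _⟩
    exact hw.comp (fun l : Fin 1 => (⟨l, by omega⟩ : Fin N)) fun a b _ => Subsingleton.elim _ _
  have h1 := span_le (E := E) hbs (coord_ext hext hZ hG (hω 0))
  have h2 : b = ∅ := Finset.card_eq_zero.1 (Nat.le_zero.1 hb)
  rw [h2, Finset.coe_empty, Set.image_empty, Submodule.span_empty, Submodule.mem_bot] at h1
  have h3 := (mul_eq_zero.1 h1).resolve_left hb0
  have h4 := Pool.Agent.Y173.QA.lin_frame (fun D =>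
    ⟨_, Pool.Agent.Y173.QA.der_expand hZ hG D⟩) hli (fun l => (hω l).1) (one_ne_zero (α := K))
  exact h4.ne_zero 0 (by rw [h3, mul_zero])

end

section

theorem dom_zero {k K : Type} [Field k] [Field K] [Algebra k K] {v : Place k K} {S : Finset K}
    {f : K} (h : Dom v S 0 f) (j : ℕ) : Dom v {1} j f := by
  rcases h with h | ⟨s, -, -, h⟩
  · exact Or.inl h
  · refine Or.inr ⟨1, Finset.mem_singleton_self _, one_ne_zero, ?_⟩
    rw [v.ord_one, mul_zero]
    simpa using h

theorem sec_zero {k K : Type} [Field k] [Field K] [Algebra k K] {n m : ℕ} {Bd : Place k K → Prop}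
    {S : Finset K} {ω : (Fin n → Derivation k K K) → K} (h : IsSec k K n Bd S m 0 ω) (j : ℕ) :
    IsSec k K n Bd {1} m j ω :=
  ⟨h.1, fun v hv hB D hD => dom_zero (h.2.1 v hv hB D hD) j,
    fun v hv hB D hD => dom_zero (h.2.2 v hv hB D hD) j⟩

theorem indep_mono {k K : Type} [Field k] [Field K] [Algebra k K] {n N N' : ℕ}
    {P P' : ((Fin n → Derivation k K K) → K) → Prop} (h : HasIndep k K n N P) (hN : N' ≤ N)
    (hP : ∀ ω, P ω → P' ω) : HasIndep k K n N' P' := by
  obtain ⟨ω, hli, hω⟩ := h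
  exact ⟨fun l => ω (Fin.castLE hN l), hli.comp _ (Fin.castLE_injective hN), fun l => hP _ (hω _)⟩

variable {K : Type} [Field K] [Algebra ℂ K] {E F : IntermediateField ℂ K} {M n : ℕ}

/-- the space of pluricanonical forms -/
theorem exists_gen0 {y : Fin n → F} (hy : IsTranscendenceBasis ℂ y) {S' : Finset F} {m B : ℕ}
    (hB : ∀ N, HasIndep ℂ F n N (IsSec ℂ F n (fun _ => False) {1} m 0) → N ≤ B) :
    ∃ b : Finset F, b.card ≤ B ∧ HS y S' m 0 ⊆ Submodule.span ℂ (b : Set F) := by
  obtain ⟨b, hb, hbs⟩ := exists_gen hy (S' := {1}) (m := m) (B := B) fun N hN =>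
    hB N (indep_mono hN le_rfl fun ω hω => ⟨hω.1, fun v hv hB D hD => by
      rcases hω.2.1 v hv hB D hD with h | ⟨s, hs, hs0, h⟩
      · exact Or.inl h
      · refine Or.inr ⟨s, hs, hs0, ?_⟩
        rw [Finset.mem_singleton] at hs
        rw [hs, v.ord_one, mul_zero] at h ⊢
        exact h, fun v hv hB => hB.elim⟩)
  exact ⟨b, hb, fun a ha => hbs (sec_zero ha 1)⟩

/-- coordinates of pluricanonical forms on the product -/
theorem coord_ext0 {x : Fin M → E} {y : Fin n → F} {S : Finset K} {S' : Finset F} {b0 : K}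
    {G : Fin (M + n) → Derivation ℂ K K}
    (hext : ∀ (m j : ℕ) (u : K),
      (∀ Q : Place ℂ K, Divisorial (M + n) Q → (∀ f : E, Q.ord (f : K) = 0) →
        ∀ D : Fin (M + n) → Derivation ℂ K K, (∀ i, DerReg Q (D i)) →
          Dom Q S j ((Matrix.of fun i l => D i
            (Fin.append (fun i => (x i : K)) (fun j => (y j : K)) l)).det ^ m * u)) →
      b0 ^ j * u ∈ Submodule.span E ((fun a : F => (a : K)) '' HS y S' m j))
    (hz : IsTranscendenceBasis ℂ (Fin.append (fun i => (x i : K)) (fun j => (y j : K))))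
    (hG : ∀ i l, G i (Fin.append (fun i => (x i : K)) (fun j => (y j : K)) l) =
      if i = l then 1 else 0)
    {m : ℕ} {ω : (Fin (M + n) → Derivation ℂ K K) → K}
    (hω : IsSec ℂ K (M + n) (fun _ => False) S m 0 ω) :
    ω G ∈ Submodule.span E ((fun a : F => (a : K)) '' HS y S' m 0) := by
  have h1 := hext m 0 (ω G) fun Q hQ _ D hD => by
    have h2 := hω.2.1 Q hQ (fun h => h) D hD
    have h3 : ω D = (Matrix.of fun i l => D i
        (Fin.append (fun i => (x i : K)) (fun j => (y j : K)) l)).det ^ m * ω G := by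
      have h4 := hω.1 (Matrix.of fun i l => D i
        (Fin.append (fun i => (x i : K)) (fun j => (y j : K)) l)) G
      rw [← h4]
      congr 1
      funext i
      exact Pool.Agent.Y173.QA.der_expand hz hG (D i)
    rw [← h3]
    exact h2
  rwa [pow_zero, one_mul] at h1

/-- **The Kodaira dimension of a product.** -/
theorem kod_add [Algebra.EssFiniteType ℂ K] [Algebra.EssFiniteType ℂ E] (hsup : E ⊔ F = ⊤)
    (hE : Algebra.trdeg ℂ E = M) (hn : Algebra.trdeg ℂ F = n)
    (hK : Algebra.trdeg ℂ K = (M + n : ℕ)) {a : ℕ}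
    (hk : KodGe ℂ K (M + n) (fun _ => False) (M + a)) : KodGe ℂ F n (fun _ => False) a := by
  obtain ⟨x, hx⟩ := Pool.Agent.W636.PG.exists_basis ℂ E M hE
  obtain ⟨y, hy⟩ := Pool.Agent.W636.PG.exists_basis ℂ F n hn
  have hZ := basis_app hsup hK hx hy
  obtain ⟨G, hG⟩ := Pool.Agent.W636.PG.exists_duals ℂ K (M + n) _ hZ
  obtain ⟨m, hm, hk⟩ := hk
  obtain ⟨b0, hb0, S', hext⟩ := ext hsup hx hy hn hK hZ {1}
  obtain ⟨C, hC⟩ := count_fin hsup hE hK hx hy hG {1}
  obtain ⟨q, hq⟩ : ∃ q, q = C * m ^ M + 1 := ⟨_, rfl⟩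
  refine ⟨q * m, Nat.mul_pos (by omega) hm, fun j hj => ?_⟩
  by_contra hcon
  obtain ⟨ω, hli, hω⟩ := hk (j * q) (Nat.mul_pos hj (by omega))
  obtain ⟨b, hb, hbs⟩ := exists_gen0 hy (S' := S') (m := j * q * m) (B := j ^ a - 1)
    fun N hN => by
      by_contra h0
      refine hcon ?_
      rw [← mul_assoc]
      exact indep_mono hN (by omega) fun _ h => h
  have h1 := (span_card (b0 := (1 : K)) one_ne_zero fun l => by
    rw [one_mul]
    exact span_le (E := E) hbs (coord_ext0 hext hZ hG (hω l))).trans hb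
  have h2 := hC (j * q * m) _ _ (Nat.mul_pos (Nat.mul_pos hj (by omega)) hm) ω hli
    (fun l => sec_zero (hω l) 1) h1
  have hja : 1 ≤ j ^ a := Nat.one_le_pow _ _ hj
  have hjq : 0 < (j * q) ^ M := pow_pos (Nat.mul_pos hj (by omega)) _
  have h3 : (j * q) ^ a ≤ C * m ^ M * (j ^ a - 1) := by
    have h4 : (j * q) ^ a * (j * q) ^ M ≤ C * m ^ M * (j ^ a - 1) * (j * q) ^ M := by
      calc (j * q) ^ a * (j * q) ^ M = (j * q) ^ (M + a) := by rw [pow_add]; ring
        _ ≤ C * (j ^ a - 1) * (j * q * m) ^ M := h2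
        _ = _ := by rw [mul_pow (j * q) m]; ring
    exact Nat.le_of_mul_le_mul_right h4 hjq
  rcases Nat.eq_zero_or_pos a with h0 | h0
  · subst h0
    simp at h3
  · have h4 : q ≤ q ^ a := Nat.le_self_pow (by omega) q
    rw [mul_pow] at h3
    have h5 : j ^ a * q ≤ C * m ^ M * (j ^ a - 1) := (Nat.mul_le_mul_left _ h4).trans h3
    have h6 : C * m ^ M * (j ^ a - 1) ≤ C * m ^ M * j ^ a := Nat.mul_le_mul_left _ (Nat.sub_le _ _)
    have h7 := h5.trans h6
    rw [mul_comm (C * m ^ M)] at h7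
    have h8 := Nat.le_of_mul_le_mul_left h7 hja
    omega

/-- if one factor has Kodaira dimension `-∞` then so does the product -/
theorem kod_zero [Algebra.EssFiniteType ℂ K] [Algebra.EssFiniteType ℂ E] (hsup : E ⊔ F = ⊤)
    (hE : Algebra.trdeg ℂ E = M) (hn : Algebra.trdeg ℂ F = n)
    (hK : Algebra.trdeg ℂ K = (M + n : ℕ))
    (hk : KodGe ℂ K (M + n) (fun _ => False) 0) : KodGe ℂ F n (fun _ => False) 0 := by
  obtain ⟨x, hx⟩ := Pool.Agent.W636.PG.exists_basis ℂ E M hE
  obtain ⟨y, hy⟩ := Pool.Agent.W636.PG.exists_basis ℂ F n hn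
  have hZ := basis_app hsup hK hx hy
  obtain ⟨G, hG⟩ := Pool.Agent.W636.PG.exists_duals ℂ K (M + n) _ hZ
  obtain ⟨m, hm, hk⟩ := hk
  obtain ⟨b0, hb0, S', hext⟩ := ext hsup hx hy hn hK hZ {1}
  refine ⟨m, hm, fun j hj => ?_⟩
  by_contra hcon
  obtain ⟨ω, hli, hω⟩ := hk j hj
  obtain ⟨b, hb, hbs⟩ := exists_gen0 hy (S' := S') (m := j * m) (B := 0) fun N hN => by
    by_contra h0
    refine hcon (indep_mono hN ?_ fun _ h => h)
    rw [pow_zero]
    omega
  have h1 := span_le (E := E) hbs (coord_ext0 hext hZ hG (hω ⟨0, by simp⟩))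
  have h2 : b = ∅ := Finset.card_eq_zero.1 (Nat.le_zero.1 hb)
  rw [h2, Finset.coe_empty, Set.image_empty, Submodule.span_empty, Submodule.mem_bot] at h1
  have h4 := Pool.Agent.Y173.QA.lin_frame (fun D =>
    ⟨_, Pool.Agent.Y173.QA.der_expand hZ hG D⟩) hli (fun l => (hω l).1) (one_ne_zero (α := K))
  exact h4.ne_zero ⟨0, by simp⟩ (by rw [h1, mul_zero])

end

end Pool.Agent.Run7.h562.ND
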