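import Pool.Agent.Run7.h562.ND.Prod
import Pool.Agent.Run7.h72.Pair

/-!
Local frames on a product; poles of forms and of monomials.
-/

set_option autoImplicit false
set_option linter.overlappingInstances false
set_option linter.unusedSectionVars false
set_option linter.unusedVariables false
set_option maxHeartbeats 1000000
set_option synthInstance.maxHeartbeats 400000

open FF IntermediateField Module

namespace Pool.Agent.Run7.h562.ND

open Pool.Agent Pool.Agent.W603.LV Pool.Agent.W619.PQ Pool.Agent.W619.PL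
open Pool.Agent.W602.GT (Divisorial RegAt IsPluri DerReg exists_der)
open Pool.Agent.W619.TW
open Pool.Agent.Run7.h562.MM
open Run7.h72 (mlt)

open scoped Classical

section

/-- **Local frames.** -/
theorem local_frame {K R : Type} [Field K] [Field R] [Algebra ℂ K] [Algebra ℂ R] [Algebra K R]
    [IsScalarTower ℂ K R] [Algebra.EssFiniteType ℂ K] {n N : ℕ} (hn : Algebra.trdeg ℂ K = n)
    (hN : Algebra.trdeg ℂ R = N) (Q : Place ℂ R) (hQ : Divisorial N Q) :
    ∃ (yP : Fin n → K) (EP : Fin n → Derivation ℂ K K), IsTranscendenceBasis ℂ yP ∧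
      (∀ i j, EP i (yP j) = if i = j then 1 else 0) ∧
      (∀ i, Q.Reg (algebraMap K R (yP i))) ∧
      ∀ (P : Place ℂ K) (e : ℕ), Over Q P e → Divisorial n P ∧ ∀ i, DerReg P (EP i) := by
  by_cases htriv : ∃ f : K, Q.ord (algebraMap K R f) ≠ 0
  · obtain ⟨e, P, hP⟩ := exists_over Q htriv
    have hPd : Divisorial n P := Pool.Agent.Y71.NT.t_abh K R n N hn hN Q P e hP hQ
    obtain ⟨yP, EP, i0, hbas, hdual, -, hyreg, hpres⟩ :=
      Pool.Agent.W240.PG.Frame.main.{0, 0} Pool.Agent.W762.PG.main ℂ K n hn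
        (fun y hy => Pool.Agent.Y297.NT.fd_basis hy) P hPd
    refine ⟨yP, EP, hbas, hdual, fun i => hP.reg.2 (hyreg i), fun P' e' hP' => ?_⟩
    obtain ⟨rfl, -⟩ := Pool.Agent.Y172.over_unique' hP hP'
    exact ⟨hPd, hpres⟩
  · push Not at htriv
    obtain ⟨y, hy⟩ := Pool.Agent.W636.PG.exists_basis ℂ K n hn
    obtain ⟨E, hE⟩ := Pool.Agent.W636.PG.exists_duals ℂ K n y hy
    refine ⟨y, E, hy, hE, fun i => Or.inr (htriv _).ge, fun P e hP => ?_⟩
    exfalso
    obtain ⟨t, -, ht⟩ := P.surj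
    have h1 := hP.2 t
    rw [htriv, ht, mul_one] at h1
    have := hP.1
    omega

end

section

variable {K : Type} [Field K] [Algebra ℂ K] {E F : IntermediateField ℂ K} {M n : ℕ}

/-- change of coordinates on both factors -/
theorem det_two {x yP : Fin M → E} {y yQ : Fin n → F} (hyP : IsTranscendenceBasis ℂ yP)
    (hyQ : IsTranscendenceBasis ℂ yQ) {EP : Fin M → Derivation ℂ E E}
    {EQ : Fin n → Derivation ℂ F F} (hEP : ∀ i j, EP i (yP j) = if i = j then 1 else 0)
    (hEQ : ∀ i j, EQ i (yQ j) = if i = j then 1 else 0) (D : Fin (M + n) → Derivation ℂ K K) :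
    (Matrix.of fun i l => D i (Fin.append (fun i => (x i : K)) (fun j => (y j : K)) l)).det =
      (Matrix.of fun i l => D i (Fin.append (fun i => (yP i : K)) (fun j => (yQ j : K)) l)).det *
      (((Matrix.of fun i l => EP i (x l)).det : E) : K) *
      (((Matrix.of fun i l => EQ i (y l)).det : F) : K) := by
  obtain ⟨A, hA⟩ : ∃ A : Matrix (Fin M) (Fin M) K, A = (algebraMap E K).mapMatrix
    (Matrix.of fun i l => EP i (x l)) := ⟨_, rfl⟩
  obtain ⟨B, hB⟩ : ∃ B : Matrix (Fin n) (Fin n) K, B = (algebraMap F K).mapMatrix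
    (Matrix.of fun i l => EQ i (y l)) := ⟨_, rfl⟩
  have h1 : (Matrix.of fun i l => D i (Fin.append (fun i => (x i : K))
      (fun j => (y j : K)) l)).submatrix finSumFinEquiv finSumFinEquiv =
      (Matrix.of fun i l => D i (Fin.append (fun i => (yP i : K))
        (fun j => (yQ j : K)) l)).submatrix finSumFinEquiv finSumFinEquiv *
        Matrix.fromBlocks A 0 0 B := by
    ext a b
    rw [Matrix.mul_apply, Fintype.sum_sum_type]
    simp only [Matrix.submatrix_apply, Matrix.of_apply]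
    rcases b with l | l
    · have h2 := Pool.Agent.W73.PG.PULL.chain (L := K) yP hyP EP hEP (D (finSumFinEquiv a)) (x l)
      simp only [finSumFinEquiv_apply_left, finSumFinEquiv_apply_right, Fin.append_left,
        Fin.append_right, Matrix.fromBlocks_apply₁₁, Matrix.fromBlocks_apply₂₁,
        Matrix.zero_apply, mul_zero, Finset.sum_const_zero, add_zero]
      rw [hA]
      exact h2
    · have h2 := Pool.Agent.W73.PG.PULL.chain (L := K) yQ hyQ EQ hEQ (D (finSumFinEquiv a)) (y l)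
      simp only [finSumFinEquiv_apply_left, finSumFinEquiv_apply_right, Fin.append_left,
        Fin.append_right, Matrix.fromBlocks_apply₁₂, Matrix.fromBlocks_apply₂₂,
        Matrix.zero_apply, mul_zero, Finset.sum_const_zero, zero_add]
      rw [hB]
      exact h2
  rw [← Matrix.det_submatrix_equiv_self finSumFinEquiv, h1, Matrix.det_mul,
    Matrix.det_submatrix_equiv_self, Matrix.det_fromBlocks_zero₂₁, hA, hB, ← RingHom.map_det,
    ← RingHom.map_det, ← mul_assoc]
  rfl

/-- exterior products of forms in local coordinates -/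
theorem two_val {m : ℕ} {x yP : Fin M → E} {y yQ : Fin n → F} (hx : IsTranscendenceBasis ℂ x)
    (hy : IsTranscendenceBasis ℂ y) (hyP : IsTranscendenceBasis ℂ yP)
    (hyQ : IsTranscendenceBasis ℂ yQ) {Ex EP : Fin M → Derivation ℂ E E}
    {Fy EQ : Fin n → Derivation ℂ F F} (hEx : ∀ i j, Ex i (x j) = if i = j then 1 else 0)
    (hFy : ∀ i j, Fy i (y j) = if i = j then 1 else 0)
    (hEP : ∀ i j, EP i (yP j) = if i = j then 1 else 0)
    (hEQ : ∀ i j, EQ i (yQ j) = if i = j then 1 else 0)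
    {φ : (Fin M → Derivation ℂ E E) → E} (hφ : IsPluri m φ)
    {τ : (Fin n → Derivation ℂ F F) → F} (hτ : IsPluri m τ) (D : Fin (M + n) → Derivation ℂ K K) :
    (Matrix.of fun i l => D i (Fin.append (fun i => (x i : K)) (fun j => (y j : K)) l)).det ^ m *
        ((φ Ex : K) * (τ Fy : K)) =
      (Matrix.of fun i l => D i (Fin.append (fun i => (yP i : K)) (fun j => (yQ j : K)) l)).det ^ m *
        ((φ EP : K) * (τ EQ : K)) := by
  have h1 := Pool.Agent.Y172.pluri_coord hx hEx hφ EP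
  have h2 := Pool.Agent.Y172.pluri_coord hy hFy hτ EQ
  rw [det_two hyP hyQ hEP hEQ D, h1, h2, mul_pow, mul_pow]
  push_cast
  ring

end

section

variable {k K : Type} [Field k] [Field K] [Algebra k K]

theorem ge_prod {ι : Type} {Q : Place k K} (s : Finset ι) (c : ι → ℤ) (f : ι → K)
    (h : ∀ i ∈ s, Ge Q (c i) (f i)) : Ge Q (∑ i ∈ s, c i) (∏ i ∈ s, f i) := by
  induction s using Finset.induction_on with
  | empty =>
    rw [Finset.sum_empty, Finset.prod_empty]
    exact Ge.one
  | insert a s ha ih =>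
    rw [Finset.sum_insert ha, Finset.prod_insert ha]
    exact (h a (Finset.mem_insert_self _ _)).mul
      (ih fun i hi => h i (Finset.mem_insert_of_mem hi))

theorem ord_prod {ι : Type} (Q : Place k K) (s : Finset ι) (f : ι → K)
    (h : ∀ i ∈ s, f i ≠ 0) : Q.ord (∏ i ∈ s, f i) = ∑ i ∈ s, Q.ord (f i) := by
  induction s using Finset.induction_on with
  | empty => rw [Finset.sum_empty, Finset.prod_empty, Q.ord_one]
  | insert a s ha ih =>
    rw [Finset.sum_insert ha, Finset.prod_insert ha, Q.ord_mul (h a (Finset.mem_insert_self _ _))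
      (Finset.prod_ne_zero_iff.2 fun i hi => h i (Finset.mem_insert_of_mem hi)),
      ih fun i hi => h i (Finset.mem_insert_of_mem hi)]

/-- **Poles of the differentials of the coordinates.** -/
theorem form_dom [CharZero k] {M : ℕ} (x : Fin M → K) : ∃ S : Finset K, 1 ∈ S ∧
    ∀ (P : Place k K) (G : Fin M → Derivation k K K), (∀ i, DerReg P (G i)) →
      ∃ s ∈ S, s ≠ 0 ∧ P.ord s ≤ 0 ∧ Ge P (P.ord s) (Matrix.of fun i l => G i (x l)).det := by
  refine ⟨Finset.univ.powerset.image fun I : Finset (Fin M) => ∏ l ∈ I, x l ^ 2, ?_,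
    fun P G hG => ?_⟩
  · rw [Finset.mem_image]
    exact ⟨∅, by simp, by simp⟩
  obtain ⟨I, hI⟩ : ∃ I, I = Finset.univ.filter fun l => P.ord (x l) < 0 := ⟨_, rfl⟩
  have hne : ∀ l ∈ I, x l ^ 2 ≠ 0 := by
    intro l hl
    rw [hI, Finset.mem_filter] at hl
    refine pow_ne_zero _ fun h0 => ?_
    rw [h0, P.ord_zero] at hl
    exact lt_irrefl _ hl.2
  have hord : P.ord (∏ l ∈ I, x l ^ 2) = ∑ l : Fin M, if P.ord (x l) < 0 then
      2 * P.ord (x l) else 0 := by
    rw [ord_prod P I _ hne, hI, Finset.sum_filter]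
    refine Finset.sum_congr rfl fun l _ => ?_
    split_ifs
    · rw [P.ord_pow]
      rfl
    · rfl
  refine ⟨∏ l ∈ I, x l ^ 2, Finset.mem_image.2 ⟨I, by simp, rfl⟩, Finset.prod_ne_zero_iff.2 hne,
    ?_, ?_⟩
  · rw [hord]
    refine Finset.sum_nonpos fun l _ => ?_
    split_ifs with h
    · linarith
    · exact le_rfl
  · refine Pool.Agent.W603.LV.ge_det P _ _ (fun _ l => if P.ord (x l) < 0 then
      2 * P.ord (x l) else 0) (fun i l => ?_) fun σ => ?_
    · rw [Matrix.of_apply]
      split_ifs with h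
      · have h1 := Pool.Agent.Y172.ge_der_reg (hG i) (x l)
        exact h1.mono (by linarith)
      · exact hG i (x l) (Or.inr (not_lt.1 h))
    · rw [hord]

/-- **Monomials in linear systems.** -/
theorem ge_mono (Q : Place k K) {κ : ℕ} {m : Fin κ → ℕ} (x : ∀ i, Fin (m i + 1) → K)
    (hx0 : ∀ i, x i 0 = 1) (Mi M' : Fin κ → ℕ) {g : K} (hg0 : g ≠ 0)
    (hg : ∀ b, Ge Q 0 (mlt x Mi b * g)) {s s0 t : ℕ} (hM : ∀ i, M' i + s0 * t = Mi i * s)
    (q : Fin s0 → (i : Fin κ) × Fin (m i + 1)) (c : Fin s0 → ℕ) (hc : ∀ a, c a ≤ t)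
    (f : ∀ i, Fin (m i + 1)) :
    Ge Q 0 (mlt x M' f * ((∏ a, x (q a).1 (q a).2 ^ c a) * g ^ s)) := by
  choose b hb hbmin using fun i => Finset.exists_min_image
    (Finset.univ.filter fun b => x i b ≠ 0) (fun b => Q.ord (x i b)) ⟨0, by simp [hx0]⟩
  have hb0 : ∀ i, x i (b i) ≠ 0 := fun i => (Finset.mem_filter.1 (hb i)).2
  obtain ⟨a, ha⟩ : ∃ a : Fin κ → ℤ, ∀ i, a i = Q.ord (x i (b i)) := ⟨_, fun _ => rfl⟩
  have ha0 : ∀ i, a i ≤ 0 := by
    intro i
    have h1 := hbmin i 0 (by simp [hx0])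
    rw [hx0, Q.ord_one] at h1
    rw [ha]
    exact h1
  have hge : ∀ i b', Ge Q (a i) (x i b') := by
    intro i b'
    by_cases h0 : x i b' = 0
    · exact Or.inl h0
    · right
      rw [ha]
      exact hbmin i b' (by simp [h0])
  have hne : mlt x Mi b ≠ 0 := Finset.prod_ne_zero_iff.2 fun i _ => pow_ne_zero _ (hb0 i)
  have h1 := (hg b).resolve_left (mul_ne_zero hne hg0)
  have h2 : Q.ord (mlt x Mi b) = ∑ i, (Mi i : ℤ) * a i := by
    unfold mlt
    rw [ord_prod Q _ _ fun i _ => pow_ne_zero _ (hb0 i)]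
    refine Finset.sum_congr rfl fun i _ => ?_
    rw [Q.ord_pow, ha]
  rw [Q.ord_mul hne hg0, h2] at h1
  have h3 : Ge Q (∑ i, (M' i : ℤ) * a i) (mlt x M' f) :=
    ge_prod _ _ _ fun i _ => (hge i (f i)).pow _
  have h4 : Ge Q (∑ l, (c l : ℤ) * a (q l).1) (∏ l, x (q l).1 (q l).2 ^ c l) :=
    ge_prod _ _ _ fun l _ => (hge (q l).1 (q l).2).pow _
  have h5 : Ge Q (s * Q.ord g) (g ^ s) := Ge.pow (Or.inr le_rfl) s
  refine (h3.mul (h4.mul h5)).mono ?_
  obtain ⟨A, hA⟩ : ∃ A, A = ∑ i, a i := ⟨_, rfl⟩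
  have hA0 : A ≤ 0 := by
    rw [hA]
    exact Finset.sum_nonpos fun i _ => ha0 i
  have h6 : ∑ i, (M' i : ℤ) * a i = s * (∑ i, (Mi i : ℤ) * a i) - s0 * t * A := by
    rw [hA, Finset.mul_sum, Finset.mul_sum, ← Finset.sum_sub_distrib]
    refine Finset.sum_congr rfl fun i _ => ?_
    have h7 : (M' i : ℤ) + s0 * t = Mi i * s := by exact_mod_cast hM i
    have h8 : (M' i : ℤ) = Mi i * s - s0 * t := by linarith
    rw [h8]
    ring
  have h7 : (s0 : ℤ) * t * A ≤ ∑ l, (c l : ℤ) * a (q l).1 := by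
    have h8 : ∀ l : Fin s0, (t : ℤ) * A ≤ (c l : ℤ) * a (q l).1 := by
      intro l
      have h9 : A ≤ a (q l).1 := by
        rw [hA, ← Finset.add_sum_erase _ _ (Finset.mem_univ (q l).1)]
        have h10 : ∑ i ∈ Finset.univ.erase (q l).1, a i ≤ 0 :=
          Finset.sum_nonpos fun i _ => ha0 i
        linarith
      have h10 : (c l : ℤ) ≤ t := by exact_mod_cast hc l
      have h11 : (t : ℤ) * A ≤ t * a (q l).1 := mul_le_mul_of_nonneg_left h9 (by positivity)
      have h12 : (t : ℤ) * a (q l).1 ≤ c l * a (q l).1 :=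
        mul_le_mul_of_nonpos_right h10 (ha0 _)
      exact h11.trans h12
    calc (s0 : ℤ) * t * A = ∑ l : Fin s0, (t : ℤ) * A := by
          rw [Finset.sum_const, Finset.card_univ, Fintype.card_fin, nsmul_eq_mul]
          ring
      _ ≤ _ := Finset.sum_le_sum fun l _ => h8 l
  have h8 := mul_le_mul_of_nonneg_left h1 (Nat.cast_nonneg (α := ℤ) s)
  rw [mul_zero, mul_add] at h8
  rw [h6]
  linarith

end

section

variable {K : Type} [Field K] [Algebra ℂ K] {E F : IntermediateField ℂ K} {M n : ℕ}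

/-- functions on one factor which are independent over the other one -/
theorem indep_F (hsup : E ⊔ F = ⊤) (hE : Algebra.trdeg ℂ E = M) (hn : Algebra.trdeg ℂ F = n)
    (hK : Algebra.trdeg ℂ K = (M + n : ℕ)) {s0 : ℕ} {ξ : Fin s0 → E}
    (hξ : AlgebraicIndependent ℂ ξ) : AlgebraicIndependent F (fun a => (ξ a : K)) := by
  obtain ⟨t, ht, htb⟩ := exists_isTranscendenceBasis_superset (R := ℂ) (s := Set.range ξ)
    hξ.to_subtype_range
  have hcard : Cardinal.mk t = M := by rw [htb.cardinalMk_eq_trdeg, hE]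
  have hfin : Finite t := by
    rw [← Cardinal.lt_aleph0_iff_finite, hcard]
    exact Cardinal.natCast_lt_aleph0
  have h3 : Nat.card t = M := by
    rw [Nat.card, hcard, Cardinal.toNat_natCast]
  obtain ⟨e, -⟩ : ∃ e : t ≃ Fin M, True := ⟨Finite.equivFinOfCardEq h3, trivial⟩
  obtain ⟨y, hy⟩ := Pool.Agent.W636.PG.exists_basis ℂ F n hn
  have hx' : IsTranscendenceBasis ℂ (fun i : Fin M => ((e.symm i : t) : E)) :=
    (isTranscendenceBasis_equiv e.symm).2 htb
  have h4 := (basis_over (E := F) (F := E) (by rw [sup_comm, hsup]) hn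
    (by rw [hK, add_comm]) hy hx').1
  have h5 : ∀ a, ξ a ∈ t := fun a => ht ⟨a, rfl⟩
  have h6 := h4.comp (fun a : Fin s0 => e ⟨ξ a, h5 a⟩) (e.injective.comp fun a b hab =>
    hξ.injective (congrArg Subtype.val hab))
  have h7 : ((fun j => (((e.symm j : t) : E) : K)) ∘ fun a : Fin s0 => e ⟨ξ a, h5 a⟩) =
      fun a => (ξ a : K) := by
    funext a
    simp only [Function.comp_apply, Equiv.symm_apply_apply]
  rwa [h7] at h6

/-- monomials and forms -/
theorem indep_mon (hsup : E ⊔ F = ⊤) (hE : Algebra.trdeg ℂ E = M) (hn : Algebra.trdeg ℂ F = n)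
    (hK : Algebra.trdeg ℂ K = (M + n : ℕ)) {s0 t h : ℕ} {ξ : Fin s0 → E}
    (hξ : AlgebraicIndependent ℂ ξ) {b : Fin h → F} (hb : LinearIndependent ℂ b) :
    LinearIndependent ℂ fun p : Fin h × (Fin s0 → Fin (t + 1)) =>
      (b p.1 : K) * ((∏ a, ξ a ^ (p.2 a : ℕ) : E) : K) := by
  have h1 := indep_F hsup hE hn hK hξ
  have h2 : LinearIndependent F fun c : Fin s0 → Fin (t + 1) =>
      ((∏ a, ξ a ^ (c a : ℕ) : E) : K) := by
    have h3 : LinearIndependent F fun c : Fin s0 → Fin (t + 1) =>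
        (MvPolynomial.monomial (Finsupp.equivFunOnFinite.symm fun a => (c a : ℕ)) (1 : F)) := by
      have h4 := (MvPolynomial.basisMonomials (Fin s0) F).linearIndependent
      have h5 := h4.comp (fun c : Fin s0 → Fin (t + 1) =>
        Finsupp.equivFunOnFinite.symm fun a => (c a : ℕ)) (by
          intro c c' hcc
          funext a
          have h6 := DFunLike.congr_fun hcc a
          simp only [Finsupp.equivFunOnFinite_symm_apply_apply] at h6
          exact Fin.ext h6)
      have h6 : ((MvPolynomial.basisMonomials (Fin s0) F) ∘ fun c : Fin s0 → Fin (t + 1) =>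
          Finsupp.equivFunOnFinite.symm fun a => (c a : ℕ)) = fun c : Fin s0 → Fin (t + 1) =>
          (MvPolynomial.monomial (Finsupp.equivFunOnFinite.symm fun a => (c a : ℕ)) (1 : F)) := by
        funext c
        simp
      rwa [h6] at h5
    have h4 := h3.map' (MvPolynomial.aeval (fun a => (ξ a : K)) :
      MvPolynomial (Fin s0) F →ₐ[F] K).toLinearMap (LinearMap.ker_eq_bot.2 h1)
    have h5 : ((MvPolynomial.aeval (fun a => (ξ a : K)) :
        MvPolynomial (Fin s0) F →ₐ[F] K).toLinearMap ∘ fun c : Fin s0 → Fin (t + 1) =>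
        (MvPolynomial.monomial (Finsupp.equivFunOnFinite.symm fun a => (c a : ℕ)) (1 : F))) =
        fun c : Fin s0 → Fin (t + 1) => ((∏ a, ξ a ^ (c a : ℕ) : E) : K) := by
      funext c
      rw [Function.comp_apply, AlgHom.toLinearMap_apply, MvPolynomial.aeval_monomial, map_one,
        one_mul, Finsupp.prod_fintype _ _ (fun a => pow_zero _)]
      have h6 : ((∏ a, ξ a ^ (c a : ℕ) : E) : K) = algebraMap E K (∏ a, ξ a ^ (c a : ℕ)) := rfl
      rw [h6, map_prod]
      refine Finset.prod_congr rfl fun a _ => ?_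
      rw [map_pow]
      simp only [Finsupp.equivFunOnFinite_symm_apply_apply]
      rfl
    rwa [h5] at h4
  have h3 := linearIndependent_smul hb h2
  exact h3

end

end Pool.Agent.Run7.h562.ND
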