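import Pool.Agent.Run7.h562.ND.Main
import Pool.Agent.R882.GLb
import Pool.Agent.W619.Y.Unir
import Pool.Agent.R885.Noe

/-!
The image of a product with a uniruled factor is uniruled.
-/

set_option autoImplicit false
set_option linter.overlappingInstances false
set_option linter.unusedSectionVars false
set_option linter.unusedVariables false
set_option maxHeartbeats 1000000
set_option synthInstance.maxHeartbeats 400000

open FF IntermediateField Module

namespace Pool.Agent.Run7.h562.ND

open Pool.Agent Pool.Agent.W603.LV Pool.Agent.W619.PQ Pool.Agent.W619.PL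
open Pool.Agent.W602.GT (Divisorial RegAt IsPluri DerReg exists_der)
open Pool.Agent.W619.TW (Dom IsSec HasIndep NumLe NumNeg KodGe)
open Pool.Agent.Run7.h562.MM

open scoped Classical

section

variable {Ω : Type} [Field Ω] [Algebra ℂ Ω]

/-- the transcendence degree of a compositum -/
theorem trdeg_sup {A B : IntermediateField ℂ Ω} {a b : ℕ} {x : Fin a → Ω} {y : Fin b → Ω}
    (hxA : ∀ i, x i ∈ A) (hyB : ∀ i, y i ∈ B)
    (hA : ∀ z ∈ A, IsAlgebraic (IntermediateField.adjoin ℂ (Set.range (Fin.append x y))) z)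
    (hB : ∀ z ∈ B, IsAlgebraic (IntermediateField.adjoin ℂ (Set.range (Fin.append x y))) z) :
    Algebra.trdeg ℂ ↥(A ⊔ B) ≤ (a + b : ℕ) := by
  obtain ⟨S, hS⟩ : ∃ S, S = IntermediateField.adjoin ℂ (Set.range (Fin.append x y)) := ⟨_, rfl⟩
  rw [← hS] at hA hB
  have hle : A ⊔ B ≤ (algebraicClosure S Ω).restrictScalars ℂ := by
    refine sup_le (fun z hz => ?_) fun z hz => ?_
    · change z ∈ algebraicClosure S Ω
      rw [mem_algebraicClosure_iff]
      exact hA z hz
    · change z ∈ algebraicClosure S Ω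
      rw [mem_algebraicClosure_iff]
      exact hB z hz
  have hw : ∀ i, Fin.append x y i ∈ A ⊔ B := by
    intro i
    refine Fin.addCases (fun i => ?_) (fun j => ?_) i
    · rw [Fin.append_left]
      exact (le_sup_left : A ≤ A ⊔ B) (hxA i)
    · rw [Fin.append_right]
      exact (le_sup_right : B ≤ A ⊔ B) (hyB j)
  obtain ⟨w, hwd⟩ : ∃ w : Fin (a + b) → ↥(A ⊔ B), ∀ i, (w i : Ω) = Fin.append x y i :=
    ⟨fun i => ⟨_, hw i⟩, fun _ => rfl⟩
  have hSle : S ≤ A ⊔ B := by
    rw [hS, adjoin_le_iff]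
    rintro _ ⟨i, rfl⟩
    exact hw i
  have hmap : (IntermediateField.adjoin ℂ (Set.range w)).map (A ⊔ B).val = S := by
    rw [IntermediateField.adjoin_map, hS]
    congr 1
    ext z
    constructor
    · rintro ⟨_, ⟨i, rfl⟩, rfl⟩
      exact ⟨i, (hwd i).symm⟩
    · rintro ⟨i, rfl⟩
      exact ⟨w i, ⟨i, rfl⟩, hwd i⟩
  have h1 : Algebra.IsAlgebraic (Algebra.adjoin ℂ (Set.range w)) ↥(A ⊔ B) := by
    refine Pool.Agent.W619.PQ.alg_adjoin fun z => ?_
    have h2 : IsAlgebraic S (z : Ω) := by
      have h3 := hle z.2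
      rw [mem_restrictScalars, mem_algebraicClosure_iff] at h3
      exact h3
    let g : S →+* IntermediateField.adjoin ℂ (Set.range w) :=
      { toFun := fun s => ⟨⟨(s : Ω), hSle s.2⟩, by
          have h4 : (s : Ω) ∈ (IntermediateField.adjoin ℂ (Set.range w)).map (A ⊔ B).val := by
            rw [hmap]
            exact s.2
          obtain ⟨v, hv, hvs⟩ := h4
          have h5 : (⟨(s : Ω), hSle s.2⟩ : ↥(A ⊔ B)) = v := Subtype.ext hvs.symm
          rw [h5]
          exact hv⟩
        map_one' := rfl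
        map_mul' := fun _ _ => rfl
        map_zero' := rfl
        map_add' := fun _ _ => rfl }
    have h6 : Function.Injective (algebraMap ↥(A ⊔ B) Ω) := (algebraMap ↥(A ⊔ B) Ω).injective
    have h7 : IsAlgebraic (IntermediateField.adjoin ℂ (Set.range w)) (z : Ω) := by
      refine h2.ringHom_of_comp_eq g (RingHom.id Ω) g.injective ?_
      ext s
      rfl
    exact (isAlgebraic_algebraMap_iff h6).1 h7
  refine (Algebra.IsAlgebraic.trdeg_le_cardinalMk ℂ (Set.range w)).trans ?_
  refine Cardinal.mk_range_le.trans ?_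
  simp

end

section

variable {K L : Type} [Field K] [Field L] [Algebra ℂ K] [Algebra ℂ L] [Algebra L K]
  [IsScalarTower ℂ L K] [FiniteDimensional L K] {E F : IntermediateField ℂ K} {d n : ℕ}

/-- **The image of a product with a uniruled factor is uniruled.** -/
theorem unir_prod [Algebra.EssFiniteType ℂ L] (hsup : E ⊔ F = ⊤)
    (hE : Algebra.trdeg ℂ E = d) (hn : Algebra.trdeg ℂ F = n)
    (hK : Algebra.trdeg ℂ K = (d + n : ℕ)) (hu : IsUniruled ℂ F n) :
    IsUniruled ℂ L (d + n) := by
  have hL : Algebra.trdeg ℂ L = (d + n : ℕ) := Pool.Agent.Y184.NT.trdeg_below (K := K) hK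
  obtain ⟨M, iM, iA, hM, htr, ⟨f⟩⟩ := hu
  obtain ⟨r, hr⟩ : ∃ r : ℕ, Algebra.trdeg ℂ M = r := by
    have h1 : Algebra.trdeg ℂ M < Cardinal.aleph0 := by
      refine lt_of_le_of_lt (self_le_add_right _ 1) ?_
      rw [htr]
      exact Cardinal.natCast_lt_aleph0
    obtain ⟨r, hr⟩ := Cardinal.lt_aleph0.1 h1
    exact ⟨r, hr⟩
  have hnr : n = r + 1 := by
    rw [hr] at htr
    exact_mod_cast htr.symm
  let _ : Algebra F (RatFunc M) := f.toRingHom.toAlgebra
  have t1 : IsScalarTower ℂ F (RatFunc M) := IsScalarTower.of_algebraMap_eq fun c => by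
    change _ = f (algebraMap ℂ F c)
    rw [f.commutes]
  have halg : Algebra.IsAlgebraic F (RatFunc M) := by
    have h1 := Pool.Agent.R885.trdeg_ratFunc (k := ℂ) hr
    have h2 := trdeg_add_eq ℂ F (A := RatFunc M)
    rw [h1, hn, hnr] at h2
    have h3 : Algebra.trdeg F (RatFunc M) = 0 := by
      have h4 : ((r + 1 : ℕ) : Cardinal) + Algebra.trdeg F (RatFunc M) =
          ((r + 1 : ℕ) : Cardinal) + 0 := by rw [h2, add_zero]
      exact Cardinal.eq_of_add_eq_add_left h4 Cardinal.natCast_lt_aleph0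
    exact trdeg_eq_zero_iff.1 h3
  let Ω := AlgebraicClosure K
  let g : RatFunc M →ₐ[F] Ω := IsAlgClosed.lift
  let gM : M →ₐ[ℂ] Ω := (g.restrictScalars ℂ).comp (IsScalarTower.toAlgHom ℂ M (RatFunc M))
  let ι : K →ₐ[ℂ] Ω := IsScalarTower.toAlgHom ℂ K Ω
  obtain ⟨E', hE'⟩ : ∃ E' : IntermediateField ℂ Ω, E' = E.map ι := ⟨_, rfl⟩
  obtain ⟨M', hM'⟩ : ∃ M' : IntermediateField ℂ Ω, M' = gM.fieldRange := ⟨_, rfl⟩
  obtain ⟨Λ, hΛ⟩ : ∃ Λ : IntermediateField ℂ Ω, Λ = E' ⊔ M' := ⟨_, rfl⟩
  obtain ⟨s, hs⟩ : ∃ s : Ω, s = g RatFunc.X := ⟨_, rfl⟩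
  -- the field of `V` is contained in `Λ(s)`
  have hgM : ∀ z : RatFunc M, g z ∈ IntermediateField.adjoin Λ {s} := by
    let D : IntermediateField M (RatFunc M) :=
      { carrier := {z | g z ∈ IntermediateField.adjoin Λ {s}}
        mul_mem' := fun {a b} ha hb => by
          change g (a * b) ∈ IntermediateField.adjoin Λ {s}
          rw [map_mul]
          exact mul_mem ha hb
        add_mem' := fun {a b} ha hb => by
          change g (a + b) ∈ IntermediateField.adjoin Λ {s}
          rw [map_add]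
          exact add_mem ha hb
        algebraMap_mem' := fun c => by
          change g (algebraMap M (RatFunc M) c) ∈ IntermediateField.adjoin Λ {s}
          refine (IntermediateField.adjoin Λ {s}).algebraMap_mem (⟨gM c, ?_⟩ : Λ)
          rw [hΛ]
          refine (le_sup_right : M' ≤ E' ⊔ M') ?_
          rw [hM']
          exact ⟨c, rfl⟩
        inv_mem' := fun a ha => by
          change g a⁻¹ ∈ IntermediateField.adjoin Λ {s}
          rw [map_inv₀]
          exact inv_mem ha }
    have h1 : IntermediateField.adjoin M {(RatFunc.X : RatFunc M)} ≤ D := by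
      rw [adjoin_simple_le_iff]
      change g RatFunc.X ∈ IntermediateField.adjoin Λ {s}
      rw [← hs]
      exact mem_adjoin_simple_self _ _
    intro z
    have h2 : z ∈ IntermediateField.adjoin M {(RatFunc.X : RatFunc M)} := by
      rw [RatFunc.adjoin_X]
      trivial
    exact h1 h2
  have hKΛ : ∀ z : K, algebraMap K Ω z ∈ IntermediateField.adjoin Λ {s} := by
    have h1 : E ⊔ F ≤ ((IntermediateField.adjoin Λ {s}).restrictScalars ℂ).comap ι := by
      refine sup_le (fun z hz => ?_) fun z hz => ?_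
      · change ι z ∈ IntermediateField.adjoin Λ {s}
        refine (IntermediateField.adjoin Λ {s}).algebraMap_mem (⟨ι z, ?_⟩ : Λ)
        rw [hΛ]
        refine (le_sup_left : E' ≤ E' ⊔ M') ?_
        rw [hE']
        exact ⟨z, hz, rfl⟩
      · change ι z ∈ IntermediateField.adjoin Λ {s}
        have h2 : g (algebraMap F (RatFunc M) ⟨z, hz⟩) = algebraMap F Ω ⟨z, hz⟩ := g.commutes _
        have h3 : ι z = algebraMap F Ω ⟨z, hz⟩ := rfl
        rw [h3, ← h2]
        exact hgM _
    rw [hsup] at h1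
    exact fun z => h1 (IntermediateField.mem_top (x := z))
  -- transcendence degrees
  have hΩ : Algebra.trdeg ℂ Ω = (d + n : ℕ) := by
    have h1 := trdeg_add_eq ℂ K (A := Ω)
    have h2 : Algebra.IsAlgebraic K Ω := AlgebraicClosure.isAlgebraic K
    have h3 : Algebra.trdeg K Ω = 0 := trdeg_eq_zero
    rw [h3, add_zero] at h1
    rw [← h1, hK]
  obtain ⟨x, hx⟩ := Pool.Agent.W636.PG.exists_basis ℂ E d hE
  obtain ⟨t, ht⟩ := Pool.Agent.W636.PG.exists_basis ℂ M r hr
  have hle : Algebra.trdeg ℂ Λ ≤ (d + r : ℕ) := by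
    rw [hΛ]
    refine trdeg_sup (x := fun i => ι (x i)) (y := fun j => gM (t j)) (fun i => ?_) (fun j => ?_)
      (fun z hz => ?_) fun z hz => ?_
    · rw [hE']
      exact ⟨x i, (x i).2, rfl⟩
    · rw [hM']
      exact ⟨t j, rfl⟩
    · rw [hE'] at hz
      obtain ⟨e, he, rfl⟩ := hz
      have h1 : Algebra.IsAlgebraic (IntermediateField.adjoin ℂ (Set.range x)) E :=
        hx.isAlgebraic_field
      let ιE : E →ₐ[ℂ] Ω := ι.comp E.val
      have h3 : (IntermediateField.adjoin ℂ (Set.range x)).map ιE ≤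
          IntermediateField.adjoin ℂ (Set.range
            (Fin.append (fun i => ι (x i)) (fun j => gM (t j)))) := by
        rw [IntermediateField.adjoin_map, adjoin_le_iff]
        rintro _ ⟨_, ⟨i, rfl⟩, rfl⟩
        refine subset_adjoin _ _ ⟨Fin.castAdd r i, ?_⟩
        rw [Fin.append_left]
        rfl
      let g' : IntermediateField.adjoin ℂ (Set.range x) →+* IntermediateField.adjoin ℂ (Set.range
            (Fin.append (fun i => ι (x i)) (fun j => gM (t j)))) :=
        { toFun := fun v => ⟨ιE v, h3 ⟨v, v.2, rfl⟩⟩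
          map_one' := Subtype.ext (map_one ιE)
          map_mul' := fun a b => Subtype.ext (map_mul ιE (a : E) (b : E))
          map_zero' := Subtype.ext (map_zero ιE)
          map_add' := fun a b => Subtype.ext (map_add ιE (a : E) (b : E)) }
      refine (h1.isAlgebraic ⟨e, he⟩).ringHom_of_comp_eq g' ιE.toRingHom g'.injective ?_
      ext v
      rfl
    · rw [hM'] at hz
      obtain ⟨e, rfl⟩ := hz
      have h1 : Algebra.IsAlgebraic (IntermediateField.adjoin ℂ (Set.range t)) M :=
        ht.isAlgebraic_field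
      have h3 : (IntermediateField.adjoin ℂ (Set.range t)).map gM ≤
          IntermediateField.adjoin ℂ (Set.range
            (Fin.append (fun i => ι (x i)) (fun j => gM (t j)))) := by
        rw [IntermediateField.adjoin_map, adjoin_le_iff]
        rintro _ ⟨_, ⟨i, rfl⟩, rfl⟩
        refine subset_adjoin _ _ ⟨Fin.natAdd d i, ?_⟩
        rw [Fin.append_right]
      let g' : IntermediateField.adjoin ℂ (Set.range t) →+* IntermediateField.adjoin ℂ (Set.range
            (Fin.append (fun i => ι (x i)) (fun j => gM (t j)))) :=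
        { toFun := fun v => ⟨gM v, h3 ⟨v, v.2, rfl⟩⟩
          map_one' := Subtype.ext (map_one gM)
          map_mul' := fun a b => Subtype.ext (map_mul gM (a : M) (b : M))
          map_zero' := Subtype.ext (map_zero gM)
          map_add' := fun a b => Subtype.ext (map_add gM (a : M) (b : M)) }
      refine (h1.isAlgebraic e).ringHom_of_comp_eq g' gM.toRingHom g'.injective ?_
      ext v
      rfl
  have halgΩ : Algebra.IsAlgebraic (IntermediateField.adjoin Λ {s}) Ω := by
    have h2 : Algebra.IsAlgebraic K Ω := AlgebraicClosure.isAlgebraic K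
    refine ⟨fun z => ?_⟩
    let g' : K →+* IntermediateField.adjoin Λ {s} :=
      { toFun := fun v => ⟨algebraMap K Ω v, hKΛ v⟩
        map_one' := Subtype.ext (map_one _)
        map_mul' := fun a b => Subtype.ext (map_mul _ a b)
        map_zero' := Subtype.ext (map_zero _)
        map_add' := fun a b => Subtype.ext (map_add _ a b) }
    refine (h2.isAlgebraic z).ringHom_of_comp_eq g' (RingHom.id Ω) g'.injective ?_
    ext v
    rfl
  have hadd := trdeg_add_eq ℂ Λ (A := Ω)
  rw [hΩ] at hadd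
  have hst : Transcendental Λ s := by
    intro hsa
    have h1 : Algebra.IsAlgebraic Λ (IntermediateField.adjoin Λ {s}) :=
      IntermediateField.isAlgebraic_adjoin_simple hsa.isIntegral
    have h2 : Algebra.IsAlgebraic Λ Ω := Algebra.IsAlgebraic.trans Λ
      (IntermediateField.adjoin Λ {s}) Ω
    have h4 : Algebra.trdeg Λ Ω = 0 := trdeg_eq_zero
    rw [h4, add_zero] at hadd
    rw [hadd] at hle
    have h3 : d + n ≤ d + r := by exact_mod_cast hle
    omega
  have hone : Algebra.trdeg Λ Ω ≤ 1 := by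
    have h1 : Algebra.IsAlgebraic (Algebra.adjoin Λ ({s} : Set Ω)) Ω :=
      Pool.Agent.W619.PQ.alg_adjoin fun z => halgΩ.isAlgebraic z
    refine (Algebra.IsAlgebraic.trdeg_le_cardinalMk Λ ({s} : Set Ω)).trans ?_
    simp
  have htrΛ : Algebra.trdeg ℂ Λ = (d + r : ℕ) := by
    refine le_antisymm hle ?_
    have h1 : ((d + n : ℕ) : Cardinal) ≤ Algebra.trdeg ℂ Λ + 1 := by
      rw [← hadd]
      exact add_le_add le_rfl hone
    obtain ⟨q, hq⟩ := Cardinal.lt_aleph0.1 (lt_of_le_of_lt hle Cardinal.natCast_lt_aleph0)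
    rw [hq] at h1 ⊢
    have h2 : d + n ≤ q + 1 := by exact_mod_cast h1
    have h3 : d + r ≤ q := by omega
    exact_mod_cast h3
  have htL : IsScalarTower ℂ Λ Ω := inferInstance
  exact Pool.Agent.R882.GL.uniruled_geo (E := L) (Λ := Λ) (F := Ω) hL htrΛ
    (by rw [hnr]; rfl) (ι.comp (IsScalarTower.toAlgHom ℂ L K)) s hst
    fun e => hKΛ (algebraMap L K e)

end

end Pool.Agent.Run7.h562.ND
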